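import Pool.Agent.CC603.Level2

/-!
MP_603bb3_co: numerical parameters of a step, the loss bound, bounds for the main term.
-/

namespace Pool.Agent.CC603

open Finset

/-- numerical parameters for a step from scale `E` to scale `F` -/
theorem par_exists : ∃ E0, ∀ E ≥ E0, ∀ F, 4956 * E ≤ 1000 * F → 1000 * F ≤ 4961 * E →
    ∀ bp j1 l, 1 ≤ bp → 4 * bp ≤ bb E → 1 ≤ j1 → j1 ≤ 3 → 3 ≤ l → l ≤ bb E / 768 →
    ∃ e a w2, Par (bb E / 768) (bb E) bp e a E (w2 - j1) w2 j1 l ∧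
      a + E + w2 + bb E = F ∧ E / 2 + 20 ≤ a ∧ 20 ≤ w2 - j1 := by
  refine ⟨2000000, fun E hE F hF1 hF2 bp j1 l hbp1 hbp hj1 hj3 hl3 hlm => ?_⟩
  obtain ⟨K, hK⟩ : ∃ K, K = kap E := ⟨_, rfl⟩
  have hK1 : 16777216 * K ≤ E := by
    rw [hK]; unfold kap
    have := Nat.mul_div_le E (2 ^ 24)
    norm_num at this ⊢
    exact this
  have hb : bb E + 5 + K = E := by unfold bb; omega
  obtain ⟨b, hbdef⟩ : ∃ b, b = bb E := ⟨_, rfl⟩
  rw [← hbdef] at hb hbp hlm ⊢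
  obtain ⟨m, hmdef⟩ : ∃ m, m = b / 768 := ⟨_, rfl⟩
  rw [← hmdef] at hlm ⊢
  have hm1 : 768 * m ≤ b := by omega
  have hm2 : b < 768 * m + 768 := by omega
  clear hmdef hbdef hK
  have hFb : b ≤ F := by omega
  obtain ⟨r, hr⟩ : ∃ r, r = (F - b) % 2 := ⟨_, rfl⟩
  have hr2 : r ≤ 1 := by omega
  obtain ⟨t, ht⟩ : ∃ t, F = b + (8 * m + r) + 2 * t := by
    refine ⟨(F - b - (8 * m + r)) / 2, ?_⟩
    omega
  have htE : E ≤ t := by omega
  refine ⟨8 * m + r, t - E, t + (8 * m + r), ⟨?_, hm1, hm2, ?_, ?_, ?_, ?_, ?_, ?_, hj1, hj3, hbp1,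
    ?_, hl3, hlm, ?_⟩, ?_, ?_, ?_⟩ <;> omega

/-- the loss is small -/
theorem loss_bound : ∃ E0, ∀ E ≥ E0,
    (2 : ℝ) ^ (12 * kap E + 40) * (999 / 1000) ^ (bb E / 768) ≤ (1 / 2) ^ (E / 2 ^ 20) := by
  refine ⟨10 ^ 10, fun E hE => ?_⟩
  obtain ⟨k, hk⟩ : ∃ k, k = bb E / 768 / 693 := ⟨_, rfl⟩
  have h1 : (999 / 1000 : ℝ) ^ (bb E / 768) ≤ (1 / 2) ^ k := by
    have h2 : (999 / 1000 : ℝ) ^ (bb E / 768) ≤ (999 / 1000) ^ (693 * k) := by
      apply pow_le_pow_of_le_one (by norm_num) (by norm_num)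
      rw [hk]; exact Nat.mul_div_le _ _
    refine h2.trans ?_
    rw [pow_mul]
    refine pow_le_pow_left₀ (by positivity) ?_ k
    have h5 : (999 / 1000 : ℝ) ^ 231 ≤ 7937 / 10000 := by norm_num
    calc (999 / 1000 : ℝ) ^ 693 = ((999 / 1000) ^ 231) ^ 3 := by rw [← pow_mul]
      _ ≤ (7937 / 10000) ^ 3 := pow_le_pow_left₀ (by positivity) h5 3
      _ ≤ 1 / 2 := by norm_num
  have h3 : 12 * kap E + 40 + E / 2 ^ 20 ≤ k := by
    have hK1 : 16777216 * kap E ≤ E := by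
      unfold kap
      have := Nat.mul_div_le E (2 ^ 24)
      norm_num at this ⊢
      exact this
    have hb : bb E + 5 + kap E = E := by unfold bb; omega
    norm_num at hE ⊢
    omega
  obtain ⟨r, hr⟩ : ∃ r, k = 12 * kap E + 40 + E / 2 ^ 20 + r := ⟨k - (12 * kap E + 40 + E / 2 ^ 20), by omega⟩
  calc (2 : ℝ) ^ (12 * kap E + 40) * (999 / 1000) ^ (bb E / 768)
      ≤ (2 : ℝ) ^ (12 * kap E + 40) * (1 / 2) ^ k :=
        mul_le_mul_of_nonneg_left h1 (by positivity)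
    _ = ((2 : ℝ) ^ (12 * kap E + 40) * (1 / 2) ^ (12 * kap E + 40)) * (1 / 2) ^ (E / 2 ^ 20) *
        (1 / 2) ^ r := by rw [hr, pow_add, pow_add]; ring
    _ = (1 / 2) ^ (E / 2 ^ 20) * (1 / 2) ^ r := by
        rw [← mul_pow]; norm_num
    _ ≤ (1 / 2) ^ (E / 2 ^ 20) * 1 := by
        refine mul_le_mul_of_nonneg_left (pow_le_one₀ (by norm_num) (by norm_num)) (by positivity)
    _ = _ := mul_one _

/-- bounds for the main term, `p + s = a + w2` -/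
theorem main_term {E F a w2 b p s i q σ : ℕ} (hF : a + E + w2 + b = F) (ha : 20 ≤ a)
    (hw2 : 20 ≤ w2) (hs : s ≤ 2) (hp : p + s = a + w2) (hi : i ≤ 3) (hb : b + 5 ≤ E)
    (hq1 : 3 * 2 ^ E ≤ q) (hq2 : q < 3 * 2 ^ E + 2 ^ (E - 5)) (hσ1 : 2 ^ E ≤ σ)
    (hσ2 : 1024 * σ ≤ 1025 * 2 ^ E) :
    1024 * 2 ^ s * ((2 ^ i - 1) * q + 2 ^ b * (2 ^ p * q + (q + (2 ^ a - 1) * σ) * (2 ^ w2 - 1)))
      ≤ (3104 + 2 ^ s * 1026) * 2 ^ F ∧
    (3072 + 2 ^ s * 1023) * 2 ^ F ≤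
    1024 * 2 ^ s * ((2 ^ i - 1) * q + 2 ^ b * (2 ^ p * q + (q + (2 ^ a - 1) * σ) * (2 ^ w2 - 1)))
    := by
  have _ := hs
  have hT : 2 ^ F = 2 ^ a * 2 ^ E * 2 ^ w2 * 2 ^ b := by rw [← hF, pow_add, pow_add, pow_add]
  have hsp : 2 ^ s * 2 ^ p = 2 ^ a * 2 ^ w2 := by rw [← pow_add, ← pow_add]; congr 1; omega
  have hP : 32 * 2 ^ (E - 5) = 2 ^ E := by
    obtain ⟨E', rfl⟩ : ∃ E', E = E' + 5 := ⟨E - 5, by omega⟩
    rw [Nat.add_sub_cancel, pow_add]; ring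
  have hA : 2 ^ 20 ≤ 2 ^ a := Nat.pow_le_pow_right (by norm_num) ha
  have hW : 2 ^ 20 ≤ 2 ^ w2 := Nat.pow_le_pow_right (by norm_num) hw2
  have hI : 2 ^ i ≤ 2 ^ 3 := Nat.pow_le_pow_right (by norm_num) hi
  have hI1 : 1 ≤ 2 ^ i := Nat.one_le_two_pow
  have hB : 1 ≤ 2 ^ b := Nat.one_le_two_pow
  rw [hT]
  generalize 2 ^ a = A at *
  generalize 2 ^ w2 = W at *
  generalize 2 ^ b = B at *
  generalize 2 ^ i = I at *
  generalize 2 ^ s = S at *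
  generalize 2 ^ p = Q at *
  generalize 2 ^ (E - 5) = P5 at *
  generalize 2 ^ E = P at *
  obtain ⟨A', rfl⟩ : ∃ A', A = A' + 1 := ⟨A - 1, by omega⟩
  obtain ⟨W', rfl⟩ : ∃ W', W = W' + 1 := ⟨W - 1, by omega⟩
  obtain ⟨I', rfl⟩ : ∃ I', I = I' + 1 := ⟨I - 1, by omega⟩
  rw [Nat.add_sub_cancel, Nat.add_sub_cancel, Nat.add_sub_cancel]
  have hq3 : 1024 * q ≤ 3104 * P := by omega
  have hI' : I' ≤ 7 := by omega
  have hA' : 1048575 ≤ A' := by omega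
  have hW' : 1048575 ≤ W' := by omega
  have e1 : 1024 * S * (I' * q + B * (Q * q + (q + A' * σ) * W')) =
      S * (I' * (1024 * q)) + B * ((S * Q) * (1024 * q)) +
        S * (B * ((1024 * q + A' * (1024 * σ)) * W')) := by ring
  rw [e1, hsp]
  constructor
  · have h1 : S * (I' * (1024 * q)) ≤ S * (7 * (3104 * P)) :=
      Nat.mul_le_mul_left _ (Nat.mul_le_mul hI' hq3)
    have h2 : B * (((A' + 1) * (W' + 1)) * (1024 * q)) ≤ B * (((A' + 1) * (W' + 1)) * (3104 * P)) :=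
      Nat.mul_le_mul_left _ (Nat.mul_le_mul_left _ hq3)
    have h3 : S * (B * ((1024 * q + A' * (1024 * σ)) * W')) ≤
        S * (B * ((3104 * P + A' * (1025 * P)) * W')) :=
      Nat.mul_le_mul_left _ (Nat.mul_le_mul_left _ (Nat.mul_le_mul_right _
        (Nat.add_le_add hq3 (Nat.mul_le_mul_left _ hσ2))))
    have h4 : 7 * 3104 + B * ((3104 + A' * 1025) * W') ≤ 1026 * ((A' + 1) * (W' + 1) * B) := by
      have h5 : 3104 * (B * W') + 21728 ≤ A' * (B * W') := by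
        have h6 : 1 * 1048575 ≤ B * W' := Nat.mul_le_mul hB hW'
        have h7 : 1048575 * (B * W') ≤ A' * (B * W') := Nat.mul_le_mul_right _ hA'
        omega
      nlinarith [Nat.zero_le (B * A'), Nat.zero_le (B * W'), Nat.zero_le (A' * (B * W'))]
    have h5 : S * (7 * (3104 * P)) + S * (B * ((3104 * P + A' * (1025 * P)) * W')) ≤
        S * 1026 * ((A' + 1) * P * (W' + 1) * B) := by
      calc _ = S * P * (7 * 3104 + B * ((3104 + A' * 1025) * W')) := by ring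
        _ ≤ S * P * (1026 * ((A' + 1) * (W' + 1) * B)) := Nat.mul_le_mul_left _ h4
        _ = _ := by ring
    calc _ ≤ S * (7 * (3104 * P)) + B * (((A' + 1) * (W' + 1)) * (3104 * P)) +
          S * (B * ((3104 * P + A' * (1025 * P)) * W')) := by
          exact Nat.add_le_add (Nat.add_le_add h1 h2) h3
      _ = (S * (7 * (3104 * P)) + S * (B * ((3104 * P + A' * (1025 * P)) * W'))) +
          3104 * ((A' + 1) * P * (W' + 1) * B) := by ring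
      _ ≤ S * 1026 * ((A' + 1) * P * (W' + 1) * B) + 3104 * ((A' + 1) * P * (W' + 1) * B) :=
          Nat.add_le_add_right h5 _
      _ = _ := by ring
  · have h2 : B * (((A' + 1) * (W' + 1)) * (3072 * P)) ≤ B * (((A' + 1) * (W' + 1)) * (1024 * q)) :=
      Nat.mul_le_mul_left _ (Nat.mul_le_mul_left _ (by omega))
    have h3 : S * (B * ((1024 * P + A' * (1024 * P)) * W')) ≤
        S * (B * ((1024 * q + A' * (1024 * σ)) * W')) :=
      Nat.mul_le_mul_left _ (Nat.mul_le_mul_left _ (Nat.mul_le_mul_right _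
        (Nat.add_le_add (by omega) (Nat.mul_le_mul_left _ (by omega)))))
    have h4 : 1023 * (W' + 1) ≤ 1024 * W' := by omega
    have h5 : S * 1023 * ((A' + 1) * P * (W' + 1) * B) ≤
        S * (B * ((1024 * P + A' * (1024 * P)) * W')) := by
      calc _ = S * (B * ((A' + 1) * P)) * (1023 * (W' + 1)) := by ring
        _ ≤ S * (B * ((A' + 1) * P)) * (1024 * W') := Nat.mul_le_mul_left _ h4
        _ = _ := by ring
    calc _ = B * (((A' + 1) * (W' + 1)) * (3072 * P)) + S * 1023 * ((A' + 1) * P * (W' + 1) * B) := by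
          ring
      _ ≤ B * (((A' + 1) * (W' + 1)) * (1024 * q)) +
          S * (B * ((1024 * q + A' * (1024 * σ)) * W')) := Nat.add_le_add h2 (h5.trans h3)
      _ ≤ _ := by
          rw [add_assoc]
          exact Nat.le_add_left _ _

/-- the two range conditions of `fail_count` and `level_fail` for the windows inside
`[3 * 2^F, 3 * 2^F + 2^(F-5))`, with `w1 = w2 - i`, `j1 = i`, `θ = 28` -/
theorem step_range {E F a w2 b i l q σ Y : ℕ} (hF : a + E + w2 + b = F) (ha : 20 ≤ a)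
    (hw2 : 20 ≤ w2 - i) (hi : 1 ≤ i) (hi3 : i ≤ 3) (hb : b + 5 ≤ E) (hl : l ≤ a + w2 + E)
    (hq1 : 3 * 2 ^ E ≤ q) (hq2 : q < 3 * 2 ^ E + 2 ^ (E - 5)) (hσ1 : 2 ^ E ≤ σ)
    (hσ2 : 1024 * σ ≤ 1025 * 2 ^ E) (hY1 : 3 * 2 ^ F ≤ Y)
    (hY2 : Y + 2 ^ b * 2 ^ (a + w2 + E - l) ≤ 3 * 2 ^ F + 2 ^ (F - 5)) :
    (28 + 2) * 2 ^ (a + E + w2 + b) + 64 * ((2 ^ i - 1) * q + 2 ^ b *
      (2 ^ (i + a + (w2 - i) - 1) * q + (q + (2 ^ a - 1) * σ) * (2 ^ w2 - 1))) ≤ 64 * Y ∧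
    2 ^ i * (64 * (Y + 2 ^ b * 2 ^ (a + w2 + E - l) + 2 ^ b))
        ≤ (2 ^ i * 28 + 64) * 2 ^ (a + E + w2 + b)
          + 2 ^ i * (64 * ((2 ^ i - 1) * q + 2 ^ b *
        (2 ^ (i + a + (w2 - i) - 1) * q + (q + (2 ^ a - 1) * σ) * (2 ^ w2 - 1)))) := by
  have _ := hl
  have hp : (i + a + (w2 - i) - 1) + 1 = a + w2 := by omega
  obtain ⟨m1, m2⟩ := main_term (s := 1) (p := i + a + (w2 - i) - 1) hF ha (by omega) (by norm_num)
    hp hi3 hb hq1 hq2 hσ1 hσ2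
  rw [hF]
  have hF5 : 32 * 2 ^ (F - 5) = 2 ^ F := by
    obtain ⟨F', rfl⟩ : ∃ F', F = F' + 5 := ⟨F - 5, by omega⟩
    rw [Nat.add_sub_cancel, pow_add]; ring
  have hbF : 1024 * 2 ^ b ≤ 2 ^ F := by
    obtain ⟨F', rfl⟩ : ∃ F', F = b + 10 + F' := ⟨F - b - 10, by omega⟩
    rw [pow_add, pow_add]
    have : 1 ≤ 2 ^ F' := Nat.one_le_two_pow
    nlinarith [Nat.zero_le (2 ^ b)]
  have hI : 2 ^ i ≤ 8 := by
    calc 2 ^ i ≤ 2 ^ 3 := Nat.pow_le_pow_right (by norm_num) hi3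
      _ = 8 := by norm_num
  have hI1 : 1 ≤ 2 ^ i := Nat.one_le_two_pow
  generalize (2 ^ i - 1) * q + 2 ^ b * (2 ^ (i + a + (w2 - i) - 1) * q +
    (q + (2 ^ a - 1) * σ) * (2 ^ w2 - 1)) = X at *
  generalize 2 ^ b * 2 ^ (a + w2 + E - l) = Z at *
  generalize 2 ^ (F - 5) = F5 at *
  generalize 2 ^ F = T at *
  generalize 2 ^ b = B at *
  generalize 2 ^ i = I at *
  norm_num at m1 m2
  constructor
  · omega
  · have h1 : 64 * (Y + Z + B) ≤ 195 * T := by omega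
    have h2 : 159 * T ≤ 64 * X := by omega
    have h3 : I * (64 * (Y + Z + B)) ≤ I * (195 * T) := Nat.mul_le_mul_left _ h1
    have h4 : I * (159 * T) ≤ I * (64 * X) := Nat.mul_le_mul_left _ h2
    have h5 : I * T ≤ 8 * T := Nat.mul_le_mul_right _ hI
    nlinarith

end Pool.Agent.CC603
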