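import Pool.Agent.CC603.Basic

/-!
From windows to natural density (module H of MP_603bb3_co).
-/

open Classical

namespace Pool.Agent.CC603

/-- greedy covering by windows -/
lemma oddBad_window (P : ℕ → Prop) (ε : ℝ) (hε : 0 < ε) (F0 : ℕ) (hF0 : 6 ≤ F0)
    (hp : ∀ F ≥ F0, ∀ Y, 15 * 2 ^ F ≤ 8 * Y → 4 * Y < 15 * 2 ^ F →
      (((Finset.Ico Y (Y + 2 ^ (F - 6))).filter (fun N => Odd N ∧ ¬ P N)).card : ℝ)
        ≤ ε * 2 ^ (F - 6)) :
    ∀ (n Y x : ℕ), x - Y ≤ n → 15 * 2 ^ F0 ≤ 8 * Y → Y ≤ x →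
      (((Finset.Ico Y x).filter (fun N => Odd N ∧ ¬ P N)).card : ℝ) ≤ ε * (2 * x - Y) := by
  intro n
  induction n with
  | zero =>
    intro Y x h1 _ h3
    have : x = Y := by omega
    subst this
    simp only [Finset.Ico_self, Finset.filter_empty, Finset.card_empty, Nat.cast_zero]
    have : (0 : ℝ) ≤ x := Nat.cast_nonneg x
    have h : (2 * (x : ℝ) - x) = x := by ring
    rw [h]; positivity
  | succ n ih =>
    intro Y x h1 h2 h3
    -- the scale of `Y`
    have hex : ∃ F, 4 * Y < 15 * 2 ^ F := by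
      refine ⟨4 * Y, ?_⟩
      have := Nat.lt_two_pow_self (n := 4 * Y)
      omega
    set F := Nat.find hex with hF
    have hFs : 4 * Y < 15 * 2 ^ F := Nat.find_spec hex
    have hFge : F0 ≤ F := by
      by_contra hlt
      push Not at hlt
      have h4 : 2 ^ (F + 1) ≤ 2 ^ F0 := Nat.pow_le_pow_right (by norm_num) hlt
      rw [pow_succ] at h4
      omega
    have hFl : 15 * 2 ^ F ≤ 8 * Y := by
      rcases Nat.eq_zero_or_pos F with h0 | h0
      · omega
      · have hm := Nat.find_min hex (m := F - 1) (by omega)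
        push Not at hm
        obtain ⟨G, hG⟩ : ∃ G, F = G + 1 := ⟨F - 1, by omega⟩
        have hG' : F - 1 = G := by omega
        rw [hG'] at hm
        rw [hG, pow_succ]
        omega
    have hw := hp F hFge Y hFl hFs
    set w := 2 ^ (F - 6) with hwdef
    have hwle : w ≤ Y := by
      have h5 : 2 ^ F = 2 ^ (F - 6) * 64 := by
        have : F = (F - 6) + 6 := by omega
        conv_lhs => rw [this]
        rw [pow_add]; norm_num
      rw [h5] at hFl
      omega
    have hwpos : 0 < w := by positivity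
    have hcast : ((2 : ℝ) ^ (F - 6)) = (w : ℝ) := by
      rw [hwdef]; push_cast; rfl
    rw [hcast] at hw
    by_cases hx : Y + w ≤ x
    · have hrec := ih (Y + w) x (by omega) (by omega) hx
      have hsub : ((Finset.Ico Y x).filter (fun N => Odd N ∧ ¬ P N)) ⊆
          ((Finset.Ico Y (Y + w)).filter (fun N => Odd N ∧ ¬ P N)) ∪
          ((Finset.Ico (Y + w) x).filter (fun N => Odd N ∧ ¬ P N)) := by
        intro a ha
        simp only [Finset.mem_union, Finset.mem_filter, Finset.mem_Ico] at ha ⊢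
        rcases lt_or_ge a (Y + w) with h | h
        · left; exact ⟨⟨ha.1.1, h⟩, ha.2⟩
        · right; exact ⟨⟨h, ha.1.2⟩, ha.2⟩
      have hc := (Finset.card_le_card hsub).trans (Finset.card_union_le _ _)
      have hc' : (((Finset.Ico Y x).filter (fun N => Odd N ∧ ¬ P N)).card : ℝ) ≤
          (((Finset.Ico Y (Y + w)).filter (fun N => Odd N ∧ ¬ P N)).card : ℝ) +
          (((Finset.Ico (Y + w) x).filter (fun N => Odd N ∧ ¬ P N)).card : ℝ) := by
        exact_mod_cast hc
      push_cast at hrec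
      have : ε * (2 * (x : ℝ) - Y) = ε * w + ε * (2 * x - (Y + w)) := by ring
      linarith
    · push Not at hx
      have hsub : ((Finset.Ico Y x).filter (fun N => Odd N ∧ ¬ P N)) ⊆
          ((Finset.Ico Y (Y + w)).filter (fun N => Odd N ∧ ¬ P N)) := by
        intro a ha
        simp only [Finset.mem_filter, Finset.mem_Ico] at ha ⊢
        exact ⟨⟨ha.1.1, by omega⟩, ha.2⟩
      have hc' : (((Finset.Ico Y x).filter (fun N => Odd N ∧ ¬ P N)).card : ℝ) ≤
          (((Finset.Ico Y (Y + w)).filter (fun N => Odd N ∧ ¬ P N)).card : ℝ) := by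
        exact_mod_cast Finset.card_le_card hsub
      have h6 : (w : ℝ) ≤ x := by exact_mod_cast (hwle.trans h3)
      have h7 : (Y : ℝ) ≤ x := by exact_mod_cast h3
      have h8 : ε * (w : ℝ) ≤ ε * (2 * x - Y) := by
        apply mul_le_mul_of_nonneg_left _ hε.le
        linarith
      linarith

/-- the odd exceptions below `x` -/
lemma oddBad_le (P : ℕ → Prop)
    (hp : ∀ ε : ℝ, 0 < ε → ∃ F0, ∀ F ≥ F0, ∀ Y, 15 * 2 ^ F ≤ 8 * Y → 4 * Y < 15 * 2 ^ F →
      (((Finset.Ico Y (Y + 2 ^ (F - 6))).filter (fun N => Odd N ∧ ¬ P N)).card : ℝ)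
        ≤ ε * 2 ^ (F - 6)) (ε : ℝ) (hε : 0 < ε) :
    ∃ C : ℕ, ∀ x : ℕ, (((Finset.range x).filter (fun N => Odd N ∧ ¬ P N)).card : ℝ)
      ≤ C + ε * x := by
  obtain ⟨F1, hF1⟩ := hp (ε / 2) (by positivity)
  set F0 := max F1 6 with hF0
  have hw := oddBad_window P (ε / 2) (by positivity) F0 (le_max_right _ _)
    (fun F hF => hF1 F ((le_max_left _ _).trans hF))
  set C := 15 * 2 ^ F0 with hC
  refine ⟨C, fun x => ?_⟩
  have hx0 : (0 : ℝ) ≤ x := Nat.cast_nonneg x
  rcases le_total x C with h | h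
  · have h1 : ((Finset.range x).filter (fun N => Odd N ∧ ¬ P N)).card ≤ x := by
      refine (Finset.card_filter_le _ _).trans ?_
      simp
    have h2 : (((Finset.range x).filter (fun N => Odd N ∧ ¬ P N)).card : ℝ) ≤ C := by
      exact_mod_cast h1.trans h
    have : 0 ≤ ε * (x : ℝ) := by positivity
    linarith
  · have h1 := hw x C x (by omega) (by omega) h
    have hsub : ((Finset.range x).filter (fun N => Odd N ∧ ¬ P N)) ⊆
        Finset.range C ∪ ((Finset.Ico C x).filter (fun N => Odd N ∧ ¬ P N)) := by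
      intro a ha
      simp only [Finset.mem_union, Finset.mem_filter, Finset.mem_Ico, Finset.mem_range] at ha ⊢
      rcases lt_or_ge a C with h | h
      · left; exact h
      · right; exact ⟨⟨h, ha.1⟩, ha.2⟩
    have hc := (Finset.card_le_card hsub).trans (Finset.card_union_le _ _)
    rw [Finset.card_range] at hc
    have hc' : (((Finset.range x).filter (fun N => Odd N ∧ ¬ P N)).card : ℝ) ≤
        (C : ℝ) + (((Finset.Ico C x).filter (fun N => Odd N ∧ ¬ P N)).card : ℝ) := by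
      exact_mod_cast hc
    have hC0 : (0 : ℝ) ≤ C := Nat.cast_nonneg C
    have : ε / 2 * (2 * (x : ℝ) - C) ≤ ε * x := by nlinarith
    linarith

/-- all exceptions below `x` -/
lemma bad_le (P : ℕ → Prop) (h2 : ∀ x, P x → P (2 * x))
    (hp : ∀ ε : ℝ, 0 < ε → ∃ F0, ∀ F ≥ F0, ∀ Y, 15 * 2 ^ F ≤ 8 * Y → 4 * Y < 15 * 2 ^ F →
      (((Finset.Ico Y (Y + 2 ^ (F - 6))).filter (fun N => Odd N ∧ ¬ P N)).card : ℝ)
        ≤ ε * 2 ^ (F - 6)) (ε : ℝ) (hε : 0 < ε) :
    ∃ C : ℕ, ∀ x : ℕ, (((Finset.range x).filter (fun N => ¬ P N)).card : ℝ)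
      ≤ C + 5 * ε * x := by
  obtain ⟨C, hC⟩ := oddBad_le P hp ε hε
  obtain ⟨x0, hx0⟩ := exists_nat_gt ((C : ℝ) / ε)
  set D := max x0 5 with hD
  refine ⟨D, fun x => ?_⟩
  induction x using Nat.strong_induction_on with
  | _ x ih =>
    have hxn : (0 : ℝ) ≤ x := Nat.cast_nonneg x
    rcases le_or_gt x D with h | h
    · have h1 : ((Finset.range x).filter (fun N => ¬ P N)).card ≤ x := by
        refine (Finset.card_filter_le _ _).trans ?_
        simp
      have h2 : (((Finset.range x).filter (fun N => ¬ P N)).card : ℝ) ≤ D := by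
        exact_mod_cast h1.trans h
      have : 0 ≤ 5 * ε * (x : ℝ) := by positivity
      linarith
    · have hx5 : 5 < x := lt_of_le_of_lt (le_max_right _ _) h
      have hxx0 : x0 < x := lt_of_le_of_lt (le_max_left _ _) h
      have hCx : (C : ℝ) ≤ ε * x := by
        have h3 : (x0 : ℝ) < x := by exact_mod_cast hxx0
        have h4 : (C : ℝ) / ε < x := hx0.trans h3
        rw [div_lt_iff₀ hε] at h4
        linarith
      set y := (x + 1) / 2 with hy
      have hrec := ih y (by omega)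
      have hsub : ((Finset.range x).filter (fun N => ¬ P N)) ⊆
          ((Finset.range y).filter (fun N => ¬ P N)).image (fun m => 2 * m) ∪
          ((Finset.range x).filter (fun N => Odd N ∧ ¬ P N)) := by
        intro a ha
        simp only [Finset.mem_union, Finset.mem_filter, Finset.mem_image, Finset.mem_range] at ha ⊢
        rcases Nat.even_or_odd' a with ⟨z, rfl | rfl⟩
        · left
          exact ⟨z, ⟨by omega, fun hz => ha.2 (h2 z hz)⟩, rfl⟩
        · right
          exact ⟨ha.1, ⟨z, rfl⟩, ha.2⟩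
      have hc := (Finset.card_le_card hsub).trans (Finset.card_union_le _ _)
      have hi : (((Finset.range y).filter (fun N => ¬ P N)).image (fun m => 2 * m)).card ≤
          ((Finset.range y).filter (fun N => ¬ P N)).card := Finset.card_image_le
      have hc' : (((Finset.range x).filter (fun N => ¬ P N)).card : ℝ) ≤
          (((Finset.range y).filter (fun N => ¬ P N)).card : ℝ) +
          (((Finset.range x).filter (fun N => Odd N ∧ ¬ P N)).card : ℝ) := by
        exact_mod_cast hc.trans (Nat.add_le_add_right hi _)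
      have hodd := hC x
      have hyx : (y : ℝ) ≤ (x + 1) / 2 := by
        have : 2 * y ≤ x + 1 := by omega
        have h3 : (2 : ℝ) * y ≤ x + 1 := by exact_mod_cast this
        linarith
      have h6 : 5 * ε * (y : ℝ) ≤ 5 * ε * ((x + 1) / 2) := by
        apply mul_le_mul_of_nonneg_left hyx (by positivity)
      have hx5' : (5 : ℝ) ≤ x := by exact_mod_cast hx5.le
      have h7 : 0 ≤ ε * ((x : ℝ) - 5) := mul_nonneg hε.le (by linarith)
      nlinarith

theorem density (P : ℕ → Prop) (h2 : ∀ x, P x → P (2 * x))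
    (hp : ∀ ε : ℝ, 0 < ε → ∃ F0, ∀ F ≥ F0, ∀ Y, 15 * 2 ^ F ≤ 8 * Y → 4 * Y < 15 * 2 ^ F →
      (((Finset.Ico Y (Y + 2 ^ (F - 6))).filter (fun N => Odd N ∧ ¬ P N)).card : ℝ)
        ≤ ε * 2 ^ (F - 6)) :
    Filter.Tendsto (fun x : ℕ => (((Finset.range x).filter (fun n => ¬ P n)).card : ℝ) / x)
      Filter.atTop (nhds 0) := by
  rw [Metric.tendsto_atTop]
  intro ε hε
  obtain ⟨C, hC⟩ := bad_le P h2 hp (ε / 10) (by positivity)
  obtain ⟨x0, hx0⟩ := exists_nat_gt (2 * (C : ℝ) / ε)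
  refine ⟨x0 + 1, fun x hx => ?_⟩
  have hxpos : (0 : ℝ) < x := by
    have : 0 < x := by omega
    exact_mod_cast this
  have hnn : 0 ≤ (((Finset.range x).filter (fun n => ¬ P n)).card : ℝ) / x := by positivity
  rw [Real.dist_eq, sub_zero, abs_of_nonneg hnn, div_lt_iff₀ hxpos]
  have h1 := hC x
  have h2' : (x0 : ℝ) < x := by exact_mod_cast hx
  have h3 : 2 * (C : ℝ) / ε < x := hx0.trans h2'
  rw [div_lt_iff₀ hε] at h3
  have h4 : 5 * (ε / 10) * (x : ℝ) = ε * x / 2 := by ring
  rw [h4] at h1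
  linarith

theorem density_shift (P Q : ℕ → Prop) (h2 : ∀ x, P x → P (2 * x))
    (hp : ∀ ε : ℝ, 0 < ε → ∃ F0, ∀ F ≥ F0, ∀ Y, 15 * 2 ^ F ≤ 8 * Y → 4 * Y < 15 * 2 ^ F →
      (((Finset.Ico Y (Y + 2 ^ (F - 6))).filter (fun N => Odd N ∧ ¬ P N)).card : ℝ)
        ≤ ε * 2 ^ (F - 6))
    (hP : ∀ x, P x → (∀ k : ℕ, x ≠ 2 ^ k) → Q (x - 1)) :
    Filter.Tendsto (fun x : ℕ => (((Finset.range x).filter (fun n => ¬ Q n)).card : ℝ) / x)
      Filter.atTop (nhds 0) := by
  obtain ⟨P', hP'⟩ : ∃ P' : ℕ → Prop, ∀ x, P' x ↔ (P x ∧ ∀ k : ℕ, x ≠ 2 ^ k) :=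
    ⟨fun x => P x ∧ ∀ k : ℕ, x ≠ 2 ^ k, fun x => Iff.rfl⟩
  have h2' : ∀ x, P' x → P' (2 * x) := by
    intro x hx
    rw [hP'] at hx ⊢
    refine ⟨h2 x hx.1, fun k hk => ?_⟩
    rcases k with _ | k
    · simp at hk
    · rw [pow_succ] at hk
      exact hx.2 k (by omega)
  have hp' : ∀ ε : ℝ, 0 < ε → ∃ F0, ∀ F ≥ F0, ∀ Y, 15 * 2 ^ F ≤ 8 * Y → 4 * Y < 15 * 2 ^ F →
      (((Finset.Ico Y (Y + 2 ^ (F - 6))).filter (fun N => Odd N ∧ ¬ P' N)).card : ℝ)
        ≤ ε * 2 ^ (F - 6) := by
    intro ε hε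
    obtain ⟨F0, hF0⟩ := hp ε hε
    refine ⟨F0, fun F hF Y hY1 hY2 => le_trans ?_ (hF0 F hF Y hY1 hY2)⟩
    have hY : 2 ≤ Y := by
      have : 1 ≤ 2 ^ F := Nat.one_le_two_pow
      omega
    have hsub : ((Finset.Ico Y (Y + 2 ^ (F - 6))).filter (fun N => Odd N ∧ ¬ P' N)) ⊆
        ((Finset.Ico Y (Y + 2 ^ (F - 6))).filter (fun N => Odd N ∧ ¬ P N)) := by
      intro a ha
      simp only [Finset.mem_filter, Finset.mem_Ico] at ha ⊢
      refine ⟨ha.1, ha.2.1, fun hPa => ha.2.2 ((hP' a).2 ⟨hPa, fun k hk => ?_⟩)⟩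
      rcases k with _ | k
      · simp at hk
        omega
      · have hodd := ha.2.1
        rw [hk, pow_succ] at hodd
        exact absurd hodd (by simp)
    exact_mod_cast Finset.card_le_card hsub
  have ht := density P' h2' hp'
  have h1 : Filter.Tendsto (fun x : ℕ => (1 : ℝ) / x) Filter.atTop (nhds 0) :=
    tendsto_one_div_atTop_nhds_zero_nat
  have hsum := ht.add h1
  rw [add_zero] at hsum
  refine squeeze_zero (fun x => by positivity) (fun x => ?_) hsum
  rw [← add_div]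
  apply div_le_div_of_nonneg_right _ (Nat.cast_nonneg x)
  have hsub : ((Finset.range x).filter (fun n => ¬ Q n)).image (fun n => n + 1) ⊆
      ((Finset.range x).filter (fun n => ¬ P' n)) ∪ {x} := by
    intro a ha
    simp only [Finset.mem_union, Finset.mem_filter, Finset.mem_image, Finset.mem_range,
      Finset.mem_singleton] at ha ⊢
    obtain ⟨n, ⟨hn, hq⟩, rfl⟩ := ha
    by_cases hx : n + 1 = x
    · right; exact hx
    · left
      refine ⟨by omega, fun hPn => hq ?_⟩
      have := hP (n + 1) ((hP' _).1 hPn).1 ((hP' _).1 hPn).2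
      simpa using this
  have hc := (Finset.card_le_card hsub).trans (Finset.card_union_le _ _)
  rw [Finset.card_image_of_injective _ (fun a b h => by simpa using h),
    Finset.card_singleton] at hc
  exact_mod_cast hc

end Pool.Agent.CC603
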