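import Pool.Agent.CC603.Basic

/-!
Closed under small ratios implies all large numbers; generation of the units modulo `2 ^ c`.
-/

namespace Pool.Agent.CC603

theorem growth_step (S : Nat → Prop) (E0 : Nat) (h : ∀ E ≥ E0, S E → ∀ E', 4956 * E ≤ 1000 * E' →
    1000 * E' ≤ 4961 * E → S E') (a b : Nat) (ha : E0 ≤ a) (ha2 : 992 ≤ a)
    (hab : a ≤ b) (hS : ∀ E, a ≤ E → E ≤ b → S E) (E' : Nat) (h1 : 4956 * a ≤ 1000 * E')
    (h2 : 1000 * E' ≤ 4961 * b) : S E' := by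
  by_cases hb : 1000 * E' / 4956 < b
  · refine h (1000 * E' / 4956) ?_ (hS _ ?_ hb.le) E' ?_ ?_ <;> omega
  · exact h b (ha.trans hab) (hS b hab le_rfl) E' (by omega) h2

theorem growth_iter (S : Nat → Prop) (E0 : Nat) (h : ∀ E ≥ E0, S E → ∀ E', 4956 * E ≤ 1000 * E' →
    1000 * E' ≤ 4961 * E → S E') (E2 : Nat) (hE0 : E0 ≤ E2) (hE : 2000 ≤ E2) (hS : S E2) (k : Nat) :
    ∃ a b : Nat, E0 ≤ a ∧ 2000 ≤ a ∧ a ≤ b ∧ (∀ E, a ≤ E → E ≤ b → S E) ∧
      4961 ^ k * (E2 - 1) * (a + 1) ≤ 4956 ^ k * (E2 + 1) * (b - 1) := by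
  induction k with
  | zero =>
    refine ⟨E2, E2, hE0, hE, le_rfl, fun E h1 h2 => ?_, ?_⟩
    · have : E = E2 := le_antisymm h2 h1
      rw [this]; exact hS
    · rw [pow_zero, pow_zero, one_mul, one_mul, mul_comm]
  | succ k ih =>
    obtain ⟨a, b, h1, h2, h3, h4, h5⟩ := ih
    refine ⟨(4956 * a + 999) / 1000, 4961 * b / 1000, by omega, by omega, by omega,
      fun E h6 h7 => growth_step S E0 h a b h1 (by omega) h3 h4 E (by omega) (by omega), ?_⟩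
    have h6 : 1000 * ((4956 * a + 999) / 1000 + 1) ≤ 4956 * (a + 1) := by omega
    have h7 : 4961 * (b - 1) ≤ 1000 * (4961 * b / 1000 - 1) := by omega
    generalize (4956 * a + 999) / 1000 = a' at h6
    generalize 4961 * b / 1000 = b' at h7
    have h8 : 1000 * (4961 ^ (k + 1) * (E2 - 1) * (a' + 1)) ≤
        1000 * (4956 ^ (k + 1) * (E2 + 1) * (b' - 1)) := by
      calc 1000 * (4961 ^ (k + 1) * (E2 - 1) * (a' + 1))
          = 4961 ^ (k + 1) * (E2 - 1) * (1000 * (a' + 1)) := by ring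
        _ ≤ 4961 ^ (k + 1) * (E2 - 1) * (4956 * (a + 1)) := Nat.mul_le_mul_left _ h6
        _ = 4956 * 4961 * (4961 ^ k * (E2 - 1) * (a + 1)) := by ring
        _ ≤ 4956 * 4961 * (4956 ^ k * (E2 + 1) * (b - 1)) := Nat.mul_le_mul_left _ h5
        _ = 4956 ^ (k + 1) * (E2 + 1) * (4961 * (b - 1)) := by ring
        _ ≤ 4956 ^ (k + 1) * (E2 + 1) * (1000 * (b' - 1)) := Nat.mul_le_mul_left _ h7
        _ = 1000 * (4956 ^ (k + 1) * (E2 + 1) * (b' - 1)) := by ring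
    exact Nat.le_of_mul_le_mul_left h8 (by norm_num)

theorem exists_pow_ratio : ∃ k : Nat, 10 * 4956 ^ k ≤ 4961 ^ k := by
  obtain ⟨k, hk⟩ := pow_unbounded_of_one_lt (10 : ℝ) (y := 4961 / 4956) (by norm_num)
  refine ⟨k, ?_⟩
  rw [div_pow, lt_div_iff₀ (by positivity)] at hk
  exact_mod_cast hk.le

theorem growth (S : Nat → Prop) (E0 : Nat) (h : ∀ E ≥ E0, S E → ∀ E', 4956 * E ≤ 1000 * E' →
    1000 * E' ≤ 4961 * E → S E') : ∃ E1, ∀ E2 ≥ E1, S E2 → ∃ E3, ∀ E' ≥ E3, S E' := by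
  refine ⟨max E0 2000, fun E2 hE2 hS => ?_⟩
  have hE0 : E0 ≤ E2 := (le_max_left _ _).trans hE2
  have hE : 2000 ≤ E2 := (le_max_right _ _).trans hE2
  obtain ⟨k, hk⟩ := exists_pow_ratio
  obtain ⟨a, b, h1, h2, h3, h4, h5⟩ := growth_iter S E0 h E2 hE0 hE hS k
  have h6 : 5 * (a + 1) ≤ b - 1 := by
    have e1 : 10 * 4956 ^ k * (E2 - 1) * (a + 1) ≤ 4956 ^ k * (E2 + 1) * (b - 1) :=
      (Nat.mul_le_mul_right _ (Nat.mul_le_mul_right _ hk)).trans h5
    have e2 : 4956 ^ k * (10 * (E2 - 1) * (a + 1)) ≤ 4956 ^ k * ((E2 + 1) * (b - 1)) := by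
      calc _ = 10 * 4956 ^ k * (E2 - 1) * (a + 1) := by ring
        _ ≤ _ := e1
        _ = _ := by ring
    have e3 := Nat.le_of_mul_le_mul_left e2 (by positivity)
    have e4 : (E2 + 1) * (5 * (a + 1)) ≤ (E2 + 1) * (b - 1) := by
      calc (E2 + 1) * (5 * (a + 1)) = 5 * (E2 + 1) * (a + 1) := by ring
        _ ≤ 10 * (E2 - 1) * (a + 1) := Nat.mul_le_mul_right _ (by omega)
        _ ≤ _ := e3
    exact Nat.le_of_mul_le_mul_left e4 (by omega)
  refine ⟨a, fun E' => ?_⟩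
  induction E' using Nat.strong_induction_on with
  | _ E' ih =>
    intro hE'
    rcases Nat.lt_or_ge b E' with h7 | h7
    · refine h (1000 * E' / 4956) ?_ (ih _ ?_ ?_) E' ?_ ?_ <;> omega
    · exact h4 E' hE' h7

/-! ### The units modulo a power of two -/

theorem three_pow_mod (c : Nat) : ∃ m : Nat, 3 ^ 2 ^ (c + 1) = 1 + 2 ^ (c + 3) + 2 ^ (c + 4) * m := by
  induction c with
  | zero => exact ⟨0, by norm_num⟩
  | succ c ih =>
    obtain ⟨m, hm⟩ := ih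
    refine ⟨m + 2 ^ (c + 1) * (1 + 2 * m) ^ 2, ?_⟩
    rw [pow_succ 2 (c + 1), pow_mul, hm]
    ring

theorem units_gen (c ρ τ : Nat) (hc : 3 ≤ c) (hρ : Odd ρ) (hτ : Odd τ) :
    ∃ i j : Nat, (3 ^ i * 7 ^ j * ρ) % 2 ^ c = τ % 2 ^ c := by
  obtain ⟨c, rfl⟩ := Nat.exists_eq_add_of_le hc
  induction c with
  | zero =>
    have h1 : ρ % 2 = 1 := Nat.odd_iff.1 hρ
    have h2 : τ % 2 = 1 := Nat.odd_iff.1 hτ
    have key : ∀ r < 8, ∀ s < 8, r % 2 = 1 → s % 2 = 1 →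
        ∃ i < 2, ∃ j < 2, (3 ^ i * 7 ^ j * r) % 8 = s := by decide
    obtain ⟨i, _, j, _, h3⟩ := key (ρ % 8) (Nat.mod_lt _ (by norm_num)) (τ % 8)
      (Nat.mod_lt _ (by norm_num)) (by omega) (by omega)
    refine ⟨i, j, ?_⟩
    show (3 ^ i * 7 ^ j * ρ) % 8 = τ % 8
    rw [← h3, Nat.mul_mod, Nat.mul_mod (3 ^ i * 7 ^ j) (ρ % 8), Nat.mod_mod]
  | succ c ih =>
    obtain ⟨i, j, h⟩ := ih (by omega)
    set x := 3 ^ i * 7 ^ j * ρ with hx
    have hx2 : x % 2 = 1 := by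
      have : Odd x := by
        rw [hx]
        exact ((Odd.pow (by decide)).mul (Odd.pow (by decide))).mul hρ
      exact Nat.odd_iff.1 this
    obtain ⟨m, hm⟩ := three_pow_mod c
    -- either already equal or off by `2 ^ (c + 3)`
    have hmod : x ≡ τ [MOD 2 ^ (3 + c)] := h
    by_cases h1 : x ≡ τ [MOD 2 ^ (3 + (c + 1))]
    · exact ⟨i, j, h1⟩
    · refine ⟨i + 2 ^ (c + 1), j, ?_⟩
      have e1 : 3 ^ (i + 2 ^ (c + 1)) * 7 ^ j * ρ = x * 3 ^ 2 ^ (c + 1) := by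
        rw [hx, pow_add]; ring
      rw [e1, hm]
      show x * (1 + 2 ^ (c + 3) + 2 ^ (c + 4) * m) ≡ τ [MOD 2 ^ (3 + (c + 1))]
      have hN : 2 ^ (3 + (c + 1)) = 2 * 2 ^ (c + 3) := by ring
      have hN' : 2 ^ (c + 4) = 2 * 2 ^ (c + 3) := by ring
      have hN3 : 2 ^ (3 + c) = 2 ^ (c + 3) := by ring
      rw [hN] at h1 ⊢
      rw [hN3] at hmod
      rw [hN']
      set P := 2 ^ (c + 3) with hP
      -- work with integers
      rw [← Int.natCast_modEq_iff] at h1 hmod ⊢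
      obtain ⟨u, hu⟩ := Nat.odd_iff.2 hx2
      have hd := (Int.modEq_iff_dvd.1 hmod)
      obtain ⟨w, hw⟩ := hd
      have hwodd : Odd w := by
        rcases Int.even_or_odd w with ⟨v, hv⟩ | h3
        · exfalso
          apply h1
          rw [Int.modEq_iff_dvd]
          refine ⟨v, ?_⟩
          rw [hw, hv]
          push_cast
          ring
        · exact h3
      obtain ⟨v, hv⟩ := hwodd
      rw [Int.modEq_iff_dvd]
      have hτx : (τ : ℤ) = x + P * w := by linarith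
      refine ⟨v - u - x * m, ?_⟩
      push_cast
      rw [hτx, hv]
      have : (x : ℤ) = 2 * u + 1 := by exact_mod_cast hu
      rw [this]
      ring

end Pool.Agent.CC603
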