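import Pool.Agent.CC603.Basic

/-!
Coprime lifts: if `d` is coprime to `B < 4 ^ E`, then `x + d u` is coprime to `B` for some small `u`.
-/

set_option autoImplicit false

namespace Pool.Agent.CC603

open Finset

theorem card_factorial_le_prod (s : Finset ℕ) (h : ∀ a ∈ s, 1 ≤ a) : s.card.factorial ≤ ∏ a ∈ s, a := by
  induction s using Finset.induction_on_max with
  | empty => simp
  | insert a s hmax ih =>
    have ha : a ∉ s := fun hc => lt_irrefl a (hmax a hc)
    rw [card_insert_of_notMem ha, prod_insert ha, Nat.factorial_succ]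
    have h1 : s ⊆ Ico 1 a := fun x hx => mem_Ico.2 ⟨h x (mem_insert_of_mem hx), hmax x hx⟩
    have h2 : s.card ≤ a - 1 := by
      have := card_le_card h1
      rwa [Nat.card_Ico] at this
    have h3 : 1 ≤ a := h a (mem_insert_self a s)
    exact Nat.mul_le_mul (by omega) (ih fun x hx => h x (mem_insert_of_mem hx))

/-- a small `u` in terms of the number of prime factors -/
theorem lift_card (B d x : ℕ) (hB : 0 < B) (hd : Nat.Coprime d B) :
    ∃ u < 8 ^ (B.primeFactors.card + 1), Nat.Coprime (x + d * u) B := by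
  classical
  set w := B.primeFactors.card with hw
  set Y := w + 1 with hY
  set t := B.primeFactors.filter (fun p => p ≤ Y) with ht
  have htp : ∀ p ∈ t, p.Prime := fun p hp => Nat.prime_of_mem_primeFactors (mem_filter.1 hp).1
  have hdp : ∀ p ∈ B.primeFactors, ¬ p ∣ d := by
    intro p hp hpd
    have h1 := Nat.dvd_gcd hpd (Nat.dvd_of_mem_primeFactors hp)
    rw [hd] at h1
    exact (Nat.prime_of_mem_primeFactors hp).one_lt.ne' (Nat.dvd_one.1 h1)
  -- residues for the small primes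
  have hpp : Set.Pairwise (↑t : Set ℕ) (Function.onFun Nat.Coprime (fun p : ℕ => p)) := by
    intro p hp q hq hpq
    exact (Nat.coprime_primes (htp p hp) (htp q hq)).2 hpq
  obtain ⟨u0, hu0⟩ := Nat.chineseRemainderOfFinset (fun p => if p ∣ x then 1 else 0) (fun p => p) t
    (fun p hp => (htp p hp).ne_zero) hpp
  set Λ := ∏ p ∈ t, p with hΛ
  have hΛ0 : 0 < Λ := prod_pos fun p hp => (htp p hp).pos
  have hΛ4 : Λ ≤ 4 ^ Y := by
    refine le_trans ?_ (primorial_le_four_pow Y)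
    unfold primorial
    refine prod_le_prod_of_subset_of_one_le' (fun p hp => ?_) fun p hp _ => ?_
    · have h1 := mem_filter.1 hp
      exact mem_filter.2 ⟨mem_range.2 (by omega), htp p hp⟩
    · exact (mem_filter.1 hp).2.pos
  -- reduce u0
  set u1 := u0 % Λ with hu1
  have hsmall : ∀ p ∈ t, ∀ v, ¬ p ∣ x + d * (u1 + Λ * v) := by
    intro p hp v hdvd
    have hpΛ : p ∣ Λ := dvd_prod_of_mem _ hp
    have e1 : u1 + Λ * v ≡ u0 [MOD p] := by
      have h1 : u1 ≡ u0 [MOD p] := (Nat.mod_modEq u0 Λ).of_dvd hpΛ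
      have h2 : Λ * v ≡ 0 [MOD p] := (Nat.modEq_zero_iff_dvd.2 (hpΛ.mul_right v))
      exact (h1.add h2).trans (by rw [add_zero])
    have e2 : u1 + Λ * v ≡ (if p ∣ x then 1 else 0) [MOD p] := e1.trans (hu0 p hp)
    have e3 : x + d * (u1 + Λ * v) ≡ x + d * (if p ∣ x then 1 else 0) [MOD p] :=
      Nat.ModEq.add_left x (e2.mul_left d)
    have e4 : p ∣ x + d * (if p ∣ x then 1 else 0) :=
      (Nat.modEq_zero_iff_dvd.1 (e3.symm.trans (Nat.modEq_zero_iff_dvd.2 hdvd)))
    by_cases hx : p ∣ x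
    · rw [if_pos hx, mul_one] at e4
      exact hdp p (mem_filter.1 hp).1 ((Nat.dvd_add_right hx).1 e4)
    · rw [if_neg hx, mul_zero, add_zero] at e4
      exact hx e4
  -- the large primes
  set L := B.primeFactors.filter (fun p => ¬ p ≤ Y) with hL
  have hone : ∀ p ∈ L, ((range Y).filter (fun v => p ∣ x + d * (u1 + Λ * v))).card ≤ 1 := by
    intro p hp
    have hpB := (mem_filter.1 hp).1
    have hpY := (mem_filter.1 hp).2
    have hpr := Nat.prime_of_mem_primeFactors hpB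
    have key : ∀ v1 v2 : ℕ, v1 < v2 → v2 < Y → p ∣ x + d * (u1 + Λ * v1) →
        p ∣ x + d * (u1 + Λ * v2) → False := by
      intro v1 v2 h12 h2 hd1 hd2
      have e1 : x + d * (u1 + Λ * v2) = x + d * (u1 + Λ * v1) + d * (Λ * (v2 - v1)) := by
        obtain ⟨k, rfl⟩ := Nat.exists_eq_add_of_lt h12
        have : v1 + k + 1 - v1 = k + 1 := by omega
        rw [this]
        ring
      rw [e1] at hd2
      have h3 : p ∣ d * (Λ * (v2 - v1)) := (Nat.dvd_add_right hd1).1 hd2
      rcases hpr.dvd_mul.1 h3 with h4 | h4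
      · exact hdp p hpB h4
      · rcases hpr.dvd_mul.1 h4 with h5 | h5
        · rw [hΛ] at h5
          obtain ⟨q, hq, hpq⟩ := (Prime.dvd_finsetProd_iff hpr.prime _).1 h5
          have h6 := (Nat.prime_dvd_prime_iff_eq hpr (htp q hq)).1 hpq
          have h7 := (mem_filter.1 hq).2
          omega
        · have h6 := Nat.le_of_dvd (by omega) h5
          omega
    rw [card_le_one]
    intro v1 h1 v2 h2
    rw [mem_filter, mem_range] at h1 h2
    by_contra hne
    rcases lt_or_gt_of_ne hne with h | h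
    · exact key v1 v2 h h2.1 h1.2 h2.2
    · exact key v2 v1 h h1.1 h2.2 h1.2
  have hex : ∃ v < Y, ∀ p ∈ L, ¬ p ∣ x + d * (u1 + Λ * v) := by
    by_contra hc
    push Not at hc
    have h1 : range Y ⊆ L.biUnion (fun p => (range Y).filter (fun v => p ∣ x + d * (u1 + Λ * v))) := by
      intro v hv
      obtain ⟨p, hp, hpv⟩ := hc v (mem_range.1 hv)
      exact mem_biUnion.2 ⟨p, hp, mem_filter.2 ⟨hv, hpv⟩⟩
    have h2 := (card_le_card h1).trans card_biUnion_le
    have h3 : ∑ p ∈ L, ((range Y).filter (fun v => p ∣ x + d * (u1 + Λ * v))).card ≤ ∑ _p ∈ L, 1 :=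
      sum_le_sum hone
    rw [sum_const, smul_eq_mul, mul_one] at h3
    rw [card_range] at h2
    have h4 : L.card ≤ w := card_le_card (filter_subset _ _)
    omega
  obtain ⟨v, hv, hvL⟩ := hex
  refine ⟨u1 + Λ * v, ?_, ?_⟩
  · have h1 : u1 < Λ := Nat.mod_lt _ hΛ0
    calc u1 + Λ * v < Λ + Λ * v := by omega
      _ = Λ * (v + 1) := by ring
      _ ≤ 4 ^ Y * Y := Nat.mul_le_mul hΛ4 (by omega)
      _ ≤ 4 ^ Y * 2 ^ Y := Nat.mul_le_mul_left _ (Nat.lt_two_pow_self).le
      _ = 8 ^ Y := by rw [← mul_pow]; norm_num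
  · by_contra hc
    obtain ⟨p, hp, h1, h2⟩ := Nat.Prime.not_coprime_iff_dvd.1 hc
    have hpB : p ∈ B.primeFactors := Nat.mem_primeFactors.2 ⟨hp, h2, hB.ne'⟩
    by_cases h3 : p ≤ Y
    · exact hsmall p (mem_filter.2 ⟨hpB, h3⟩) v h1
    · exact hvL p (mem_filter.2 ⟨hpB, h3⟩) h1

theorem exists_pow_lt_factorial (A : ℕ) : ∃ w0 : ℕ, ∀ w ≥ w0, A ^ w < w.factorial := by
  have h := FloorSemiring.tendsto_pow_div_factorial_atTop (A : ℝ)
  have h1 := (h.eventually (gt_mem_nhds (zero_lt_one))).exists_forall_of_atTop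
  obtain ⟨w0, hw0⟩ := h1
  refine ⟨w0, fun w hw => ?_⟩
  have h2 := hw0 w hw
  rw [div_lt_one (by exact_mod_cast w.factorial_pos)] at h2
  exact_mod_cast h2

theorem coprime_lift (C : Nat) (hC : 0 < C) : ∃ E0 : Nat, ∀ E ≥ E0, ∀ B d x : Nat, 0 < B →
    B < 2 ^ (2 * E) → Nat.Coprime d B → ∃ u < 2 ^ (E / C), Nat.Coprime (x + d * u) B := by
  obtain ⟨w0, hw0⟩ := exists_pow_lt_factorial (4096 ^ C)
  refine ⟨3 * C * (w0 + 2), fun E hE B d x hB hBE hd => ?_⟩
  obtain ⟨u, hu, hu2⟩ := lift_card B d x hB hd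
  refine ⟨u, hu.trans_le ?_, hu2⟩
  set w := B.primeFactors.card with hw
  have h8 : (8 : ℕ) ^ (w + 1) = 2 ^ (3 * (w + 1)) := by
    rw [pow_mul]
    norm_num
  rw [h8]
  refine Nat.pow_le_pow_right (by norm_num) ?_
  by_contra hc
  push Not at hc
  have h1 : E < 3 * (w + 1) * C := (Nat.div_lt_iff_lt_mul hC).1 hc
  have h2 : w0 + 1 ≤ w := by
    by_contra h3
    push Not at h3
    have h4 : 3 * (w + 1) * C ≤ 3 * C * (w0 + 2) := by
      have : w + 1 ≤ w0 + 2 := by omega
      calc 3 * (w + 1) * C = 3 * C * (w + 1) := by ring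
        _ ≤ 3 * C * (w0 + 2) := Nat.mul_le_mul_left _ this
    omega
  have h3 := hw0 w (by omega)
  have h4 : w.factorial ≤ B := by
    refine (card_factorial_le_prod B.primeFactors fun p hp =>
      (Nat.prime_of_mem_primeFactors hp).pos).trans ?_
    exact Nat.le_of_dvd hB (Nat.prod_primeFactors_dvd B)
  have h5 : 2 ^ (2 * E) ≤ (4096 ^ C) ^ w := by
    have e1 : (4096 : ℕ) = 2 ^ 12 := by norm_num
    rw [e1, ← pow_mul, ← pow_mul]
    refine Nat.pow_le_pow_right (by norm_num) ?_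
    have : w + 1 ≤ 2 * w := by omega
    have h6 : 3 * (w + 1) * C ≤ 3 * (2 * w) * C :=
      Nat.mul_le_mul_right _ (Nat.mul_le_mul_left _ this)
    have h7 : 3 * (2 * w) * C = 6 * (C * w) := by ring
    have h9 : 12 * C * w = 12 * (C * w) := by ring
    omega
  omega

end Pool.Agent.CC603
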