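import Pool.Agent.CC603.Basic

/-!
Realisation of the profiles of `Prof` by finite posets covered by two chains.
-/

namespace Pool.Agent.CC603

namespace PosetsAux

/-- the chains inside `D` -/
def chs {α : Type} (r : α → α → Prop) (D : Set α) : Set (Set α) := {s | s ⊆ D ∧ IsChain r s}

/-- one new element and the old ones -/
inductive Ext (α : Type) : Type
  | new : Ext α
  | old (a : α) : Ext α

theorem Ext.old_injective {α : Type} : Function.Injective (Ext.old : α → Ext α) := by
  intro a b h
  cases h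
  rfl

instance {α : Type} [Finite α] : Finite (Ext α) := by
  apply Finite.of_surjective (fun o : Option α => match o with
    | none => Ext.new
    | some a => Ext.old a)
  rintro (_ | a)
  · exact ⟨none, rfl⟩
  · exact ⟨some a, rfl⟩

/-- the new element is above exactly the elements of `L` -/
def extLE {α : Type} [PartialOrder α] (L : Set α) : Ext α → Ext α → Prop
  | .old a, .old b => a ≤ b
  | .old a, .new => a ∈ L
  | .new, .new => True
  | .new, .old _ => False

/-- the order of the extension -/
@[reducible] def extOrder {α : Type} [PartialOrder α] (L : Set α) (hL : IsLowerSet L) :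
    PartialOrder (Ext α) where
  le := extLE L
  le_refl := by
    rintro (_ | a)
    · trivial
    · exact le_refl a
  le_trans := by
    rintro (_ | a) (_ | b) (_ | c) h1 h2
    · trivial
    · exact h2
    · trivial
    · exact h1.elim
    · exact h1
    · exact h2.elim
    · exact hL (show a ≤ b from h1) h2
    · exact le_trans (show a ≤ b from h1) (show b ≤ c from h2)
  le_antisymm := by
    rintro (_ | a) (_ | b) h1 h2
    · rfl
    · exact h1.elim
    · exact h2.elim
    · rw [le_antisymm (show a ≤ b from h1) (show b ≤ a from h2)]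

variable {α : Type} [PartialOrder α]

theorem chs_old (L D : Set α) :
    chs (extLE L) (Ext.old '' D) = (fun s : Set α => Ext.old '' s) '' chs (· ≤ ·) D := by
  ext s
  constructor
  · rintro ⟨h1, h2⟩
    refine ⟨Ext.old ⁻¹' s, ⟨?_, ?_⟩, ?_⟩
    · intro a ha
      obtain ⟨b, hb, hab⟩ := h1 ha
      rw [← Ext.old_injective hab]
      exact hb
    · intro a ha b hb hab
      exact h2 ha hb (fun h => hab (Ext.old_injective h))
    · show Ext.old '' (Ext.old ⁻¹' s) = s
      rw [Set.image_preimage_eq_iff]
      exact h1.trans (Set.image_subset_range _ _)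
  · rintro ⟨t, ⟨h1, h2⟩, rfl⟩
    refine ⟨Set.image_mono h1, ?_⟩
    rintro _ ⟨a, ha, rfl⟩ _ ⟨b, hb, rfl⟩ hab
    exact h2 ha hb (fun h => hab (by rw [h]))

omit [PartialOrder α] in
theorem image_old_injective : Function.Injective (fun s : Set α => Ext.old '' s) :=
  Set.image_injective.2 Ext.old_injective

omit [PartialOrder α] in
theorem new_notMem (s : Set α) : Ext.new ∉ Ext.old '' s := by
  rintro ⟨a, _, h⟩
  cases h

omit [PartialOrder α] in
theorem insert_old_injective :
    Function.Injective (fun s : Set α => insert Ext.new (Ext.old '' s)) := by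
  intro s t h
  apply image_old_injective
  have h1 : (insert Ext.new (Ext.old '' s)) \ {Ext.new} = (insert Ext.new (Ext.old '' t)) \ {Ext.new} := by
    rw [show insert Ext.new (Ext.old '' s) = insert Ext.new (Ext.old '' t) from h]
  rw [Set.insert_sdiff_self_of_notMem (new_notMem s),
    Set.insert_sdiff_self_of_notMem (new_notMem t)] at h1
  exact h1

theorem ncard_old (L D : Set α) :
    (chs (extLE L) (Ext.old '' D)).ncard = (chs (· ≤ ·) D).ncard := by
  rw [chs_old, Set.ncard_image_of_injective _ image_old_injective]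

theorem chs_new (L D : Set α) :
    chs (extLE L) (insert Ext.new (Ext.old '' D)) = chs (extLE L) (Ext.old '' D) ∪
      (fun s : Set α => insert Ext.new (Ext.old '' s)) '' chs (· ≤ ·) (D ∩ L) := by
  ext s
  constructor
  · rintro ⟨h1, h2⟩
    by_cases hs : Ext.new ∈ s
    · right
      refine ⟨Ext.old ⁻¹' s, ⟨?_, ?_⟩, ?_⟩
      · intro a ha
        refine ⟨?_, ?_⟩
        · rcases h1 ha with h3 | ⟨b, hb, hab⟩
          · cases h3
          · rw [← Ext.old_injective hab]
            exact hb
        · rcases h2 ha hs (by intro h; cases h) with h3 | h3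
          · exact h3
          · exact h3.elim
      · intro a ha b hb hab
        exact h2 ha hb (fun h => hab (Ext.old_injective h))
      · ext z
        rcases z with _ | a
        · simp [hs]
        · simp [Ext.old_injective.eq_iff]
    · left
      refine ⟨?_, h2⟩
      intro z hz
      rcases h1 hz with h3 | h3
      · exact absurd (h3 ▸ hz) hs
      · exact h3
  · rintro (⟨h1, h2⟩ | ⟨t, ⟨h1, h2⟩, rfl⟩)
    · exact ⟨h1.trans (Set.subset_insert _ _), h2⟩
    · refine ⟨Set.insert_subset_insert (Set.image_mono (h1.trans Set.inter_subset_left)), ?_⟩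
      rintro x (rfl | ⟨a, ha, rfl⟩) y (rfl | ⟨b, hb, rfl⟩) hxy
      · exact absurd rfl hxy
      · exact Or.inr (h1 hb).2
      · exact Or.inl (h1 ha).2
      · exact h2 ha hb (fun h => hxy (by rw [h]))

theorem ncard_new [Finite α] (L D : Set α) :
    (chs (extLE L) (insert Ext.new (Ext.old '' D))).ncard =
      (chs (· ≤ ·) D).ncard + (chs (· ≤ ·) (D ∩ L)).ncard := by
  rw [chs_new, Set.ncard_union_eq _ (Set.toFinite _) (Set.toFinite _), ncard_old,
    Set.ncard_image_of_injective _ insert_old_injective]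
  rw [Set.disjoint_left]
  rintro s ⟨h1, _⟩ ⟨t, _, rfl⟩
  exact new_notMem D (h1 (Set.mem_insert _ _))

theorem lower_old {L D : Set α} (hD : IsLowerSet D) :
    ∀ x y : Ext α, extLE L y x → x ∈ Ext.old '' D → y ∈ Ext.old '' D := by
  rintro x (_ | b) h ⟨a, ha, rfl⟩
  · exact h.elim
  · exact ⟨b, hD (show b ≤ a from h) ha, rfl⟩

theorem lower_new {L D : Set α} (hD : IsLowerSet D) (hL : L ⊆ D) :
    ∀ x y : Ext α, extLE L y x → x ∈ insert Ext.new (Ext.old '' D) →
      y ∈ insert Ext.new (Ext.old '' D) := by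
  rintro x (_ | b) h hx
  · exact Set.mem_insert _ _
  · right
    rcases hx with rfl | ⟨a, ha, rfl⟩
    · exact ⟨b, hL h, rfl⟩
    · exact ⟨b, hD (show b ≤ a from h) ha, rfl⟩

omit [PartialOrder α] in
theorem univ_new : (insert Ext.new (Ext.old '' (Set.univ : Set α))) = (Set.univ : Set (Ext α)) := by
  ext z
  rcases z with _ | a
  · simp
  · simp

/-- a list of numbers is realised by a poset covered by the chains `C`, `¬ C` and lower sets -/
def Good (l : List ℕ) : Prop :=
  ∃ (α : Type) (_ : Finite α) (_ : PartialOrder α) (C : α → Prop) (Ds : List (Set α)),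
    (∀ a b, (C a ↔ C b) → a ≤ b ∨ b ≤ a) ∧ Ds.head? = some Set.univ ∧
    Ds.Pairwise (fun A B => B ⊆ A) ∧
    (∀ D ∈ Ds, IsLowerSet D ∧ ∀ a, C a → a ∈ D) ∧
    Ds.map (fun D => (chs (· ≤ ·) D).ncard) = l

theorem good_one : Good [1] := by
  refine ⟨Fin 0, inferInstance, inferInstance, fun _ => True, [Set.univ], ?_, rfl, ?_, ?_, ?_⟩
  · intro a
    exact a.elim0
  · simp
  · intro D hD
    rw [List.mem_singleton] at hD
    subst hD
    exact ⟨isLowerSet_univ, fun a _ => Set.mem_univ a⟩
  · have : (chs (· ≤ ·) (Set.univ : Set (Fin 0))).ncard = 1 := by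
      rw [Set.ncard_eq_one]
      refine ⟨∅, ?_⟩
      ext s
      rw [Set.mem_singleton_iff]
      constructor
      · intro _
        exact Set.eq_empty_of_isEmpty s
      · rintro rfl
        exact ⟨Set.empty_subset _, Set.pairwise_empty _⟩
    rw [List.map_singleton, this]

theorem good_dup {x : ℕ} {l : List ℕ} (h : Good (x :: l)) : Good (x :: x :: l) := by
  obtain ⟨α, h1, h2, C, Ds, h3, h4, h5, h6, h7⟩ := h
  obtain ⟨T, rfl⟩ := List.head?_eq_some_iff.1 h4
  refine ⟨α, h1, h2, C, Set.univ :: Set.univ :: T, h3, rfl, ?_, ?_, ?_⟩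
  · rw [List.pairwise_cons]
    exact ⟨fun A _ => Set.subset_univ A, h5⟩
  · intro D hD
    rcases List.mem_cons.1 hD with rfl | hD
    · exact ⟨isLowerSet_univ, fun a _ => Set.mem_univ a⟩
    · exact h6 D hD
  · rw [List.map_cons, h7]
    rw [List.map_cons, List.cons.injEq] at h7
    rw [h7.1]

theorem good_del {x : ℕ} {l₁ : List ℕ} {y : ℕ} {l₂ : List ℕ}
    (h : Good (x :: (l₁ ++ y :: l₂))) : Good (x :: (l₁ ++ l₂)) := by
  obtain ⟨α, h1, h2, C, Ds, h3, h4, h5, h6, h7⟩ := h
  obtain ⟨T, rfl⟩ := List.head?_eq_some_iff.1 h4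
  rw [List.map_cons, List.cons.injEq] at h7
  obtain ⟨T1, T2, rfl, h8, h9⟩ := List.map_eq_append_iff.1 h7.2
  obtain ⟨D0, T3, rfl, h10, h11⟩ := List.map_eq_cons_iff.1 h9
  have hsub : List.Sublist (Set.univ :: (T1 ++ T3)) (Set.univ :: (T1 ++ D0 :: T3)) :=
    List.Sublist.cons_cons _ (List.Sublist.append (List.Sublist.refl _) (List.sublist_cons_self _ _))
  refine ⟨α, h1, h2, C, Set.univ :: (T1 ++ T3), h3, rfl, h5.sublist hsub,
    fun D hD => h6 D (hsub.subset hD), ?_⟩
  rw [List.map_cons, List.map_append, h8, h11, h7.1]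

theorem good_F {x : ℕ} {l : List ℕ} (h : Good (x :: l)) : Good (2 * x :: x :: l) := by
  obtain ⟨α, h1, h2, C, Ds, h3, h4, h5, h6, h7⟩ := h
  obtain ⟨T, rfl⟩ := List.head?_eq_some_iff.1 h4
  refine ⟨Ext α, inferInstance, extOrder Set.univ isLowerSet_univ,
    fun z => match z with
      | .new => False
      | .old a => C a, Set.univ :: (Set.univ :: T).map (fun D => Ext.old '' D), ?_, rfl, ?_, ?_, ?_⟩
  · rintro (_ | a) (_ | b) hab
    · exact Or.inl trivial
    · exact Or.inr trivial
    · exact Or.inl trivial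
    · exact h3 a b hab
  · rw [List.pairwise_cons]
    refine ⟨fun A _ => Set.subset_univ A, ?_⟩
    rw [List.pairwise_map]
    exact h5.imp (fun h => Set.image_mono h)
  · intro D hD
    rcases List.mem_cons.1 hD with rfl | hD
    · exact ⟨fun _ _ _ _ => Set.mem_univ _, fun a _ => Set.mem_univ a⟩
    · obtain ⟨D0, hD0, rfl⟩ := List.mem_map.1 hD
      refine ⟨fun u v huv hu => lower_old (h6 D0 hD0).1 u v huv hu, ?_⟩
      rintro (_ | a) ha
      · exact ha.elim
      · exact ⟨a, (h6 D0 hD0).2 a ha, rfl⟩
  · show (chs (extLE Set.univ) Set.univ).ncard ::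
      ((Set.univ :: T).map (fun D => Ext.old '' D)).map
        (fun D => (chs (extLE Set.univ) D).ncard) = 2 * x :: x :: l
    rw [List.map_map]
    have h8 : ((fun D => (chs (extLE Set.univ) D).ncard) ∘ fun D : Set α => Ext.old '' D) =
        fun D => (chs (· ≤ ·) D).ncard := by
      funext D
      exact ncard_old _ _
    rw [h8, h7, ← univ_new, ncard_new]
    rw [List.map_cons, List.cons.injEq] at h7
    rw [Set.inter_self, h7.1, two_mul]

theorem good_E {l : List ℕ} {y : ℕ} (h : Good (l ++ [y])) :
    Good (l.map (· + y) ++ [2 * y]) := by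
  obtain ⟨α, h1, h2, C, Ds, h3, h4, h5, h6, h7⟩ := h
  obtain ⟨T1, T2, rfl, h8, h9⟩ := List.map_eq_append_iff.1 h7
  obtain ⟨L, T3, rfl, h10, h11⟩ := List.map_eq_cons_iff.1 h9
  rw [List.map_eq_nil_iff] at h11
  subst h11
  have hL : ∀ D ∈ T1 ++ [L], L ⊆ D := by
    intro D hD
    rcases List.mem_append.1 hD with hD | hD
    · exact (List.pairwise_append.1 h5).2.2 D hD L (List.mem_singleton.2 rfl)
    · rw [List.mem_singleton.1 hD]
  have hLl : IsLowerSet L ∧ ∀ a, C a → a ∈ L := h6 L (by simp)
  refine ⟨Ext α, inferInstance, extOrder L hLl.1,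
    fun z => match z with
      | .new => True
      | .old a => C a, (T1 ++ [L]).map (fun D => insert Ext.new (Ext.old '' D)), ?_, ?_, ?_, ?_, ?_⟩
  · rintro (_ | a) (_ | b) hab
    · exact Or.inl trivial
    · exact Or.inr (hLl.2 b (hab.1 trivial))
    · exact Or.inl (hLl.2 a (hab.2 trivial))
    · exact h3 a b hab
  · rw [List.head?_map, h4, Option.map_some, univ_new]
  · rw [List.pairwise_map]
    exact h5.imp (fun h => Set.insert_subset_insert (Set.image_mono h))
  · intro D hD
    obtain ⟨D0, hD0, rfl⟩ := List.mem_map.1 hD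
    refine ⟨fun u v huv hu => lower_new (h6 D0 hD0).1 (hL D0 hD0) u v huv hu, ?_⟩
    rintro (_ | a) ha
    · exact Set.mem_insert _ _
    · exact Or.inr ⟨a, (h6 D0 hD0).2 a ha, rfl⟩
  · show ((T1 ++ [L]).map (fun D => insert Ext.new (Ext.old '' D))).map
        (fun D => (chs (extLE L) D).ncard) = _
    rw [List.map_map]
    have h12 : (T1 ++ [L]).map
        ((fun D => (chs (extLE L) D).ncard) ∘ fun D : Set α => insert Ext.new (Ext.old '' D)) =
        (T1 ++ [L]).map (fun D => (chs (· ≤ ·) D).ncard + y) := by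
      apply List.map_congr_left
      intro D hD
      show (chs (extLE L) (insert Ext.new (Ext.old '' D))).ncard = _
      rw [ncard_new, Set.inter_eq_self_of_subset_right (hL D hD), h10]
    rw [h12, List.map_append, List.map_singleton, h10, two_mul, ← h8, List.map_map]
    rfl

theorem good {l : List ℕ} (h : Prof l) : Good l := by
  induction h with
  | one => exact good_one
  | dup x l _ ih => exact good_dup ih
  | del x l₁ y l₂ _ ih => exact good_del ih
  | F x l _ ih => exact good_F ih
  | E l y _ ih => exact good_E ih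

end PosetsAux

open PosetsAux in
theorem Prof.isChainCount {x : ℕ} {l : List ℕ} (h : Prof (x :: l))
    (hx : ∀ k : ℕ, x ≠ 2 ^ k) : IsChainCount (x - 1) := by
  obtain ⟨α, h1, h2, C, Ds, h3, h4, h5, h6, h7⟩ := good h
  obtain ⟨T, rfl⟩ := List.head?_eq_some_iff.1 h4
  rw [List.map_cons, List.cons.injEq] at h7
  refine ⟨α, h1, h2, ?_, ?_, ?_⟩
  · by_contra hc
    push Not at hc
    apply hx (Nat.card α)
    rw [← h7.1]
    have h8 : chs (· ≤ ·) (Set.univ : Set α) = Set.univ := by
      ext s
      refine ⟨fun _ => Set.mem_univ _, fun _ => ⟨Set.subset_univ _, ?_⟩⟩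
      intro a _ b _ _
      by_cases hab : a ≤ b
      · exact Or.inl hab
      · exact Or.inr (hc a b hab)
    rw [h8, Set.ncard_univ]
    have := Fintype.ofFinite α
    classical
    rw [Nat.card_eq_fintype_card, Nat.card_eq_fintype_card, Fintype.card_set]
  · rintro a b c ⟨h8, h9, h10, h11, h12, h13⟩
    have hab : ¬ (C a ↔ C b) := fun h => by
      rcases h3 a b h with h | h
      · exact h8 h
      · exact h9 h
    have hac : ¬ (C a ↔ C c) := fun h => by
      rcases h3 a c h with h | h
      · exact h10 h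
      · exact h11 h
    have hbc : ¬ (C b ↔ C c) := fun h => by
      rcases h3 b c h with h | h
      · exact h12 h
      · exact h13 h
    tauto
  · rw [← h7.1]
    have h8 : ({s : Set α | s.Nonempty ∧ IsChain (· ≤ ·) s}) =
        chs (· ≤ ·) (Set.univ : Set α) \ {∅} := by
      ext s
      simp only [Set.mem_ofPred_eq, Set.mem_sdiff, Set.mem_singleton_iff, chs, Set.subset_univ,
        true_and, Set.nonempty_iff_ne_empty]
      tauto
    have h9 : Nat.card {s : Set α // s.Nonempty ∧ IsChain (· ≤ ·) s} =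
        ({s : Set α | s.Nonempty ∧ IsChain (· ≤ ·) s}).ncard := rfl
    rw [h9, h8, Set.ncard_sdiff_singleton_of_mem]
    exact ⟨Set.empty_subset _, Set.pairwise_empty _⟩

end Pool.Agent.CC603
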