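import Pool.Agent.CC603.Level2
import Pool.Agent.CC603.Lift
import Pool.Agent.CC603.Growth
import Pool.Agent.CC603.Density
import Pool.Agent.CC603.Posets

/-!
The starting pairs.
-/

namespace Pool.Agent.CC603

open Finset

lemma exists_exp_bound : ∃ k1 : ℕ, ∀ k ≥ k1, (2 ^ 24 * (k + 1)) ^ 2 * 4 ^ k ≤ 7 ^ k := by
  have h1 := tendsto_pow_const_div_const_pow_of_one_lt 2 (r := (7 / 4 : ℝ)) (by norm_num)
  have h2 : ∀ᶠ n : ℕ in Filter.atTop, (n : ℝ) ^ 2 / (7 / 4) ^ n < 1 / 2 ^ 60 :=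
    (tendsto_order.1 h1).2 _ (by positivity)
  obtain ⟨k1, hk1⟩ := Filter.eventually_atTop.1 h2
  refine ⟨k1 + 1, fun k hk => ?_⟩
  have h3 := hk1 k (by omega)
  rw [div_lt_iff₀ (by positivity)] at h3
  have hk0 : (1 : ℝ) ≤ k := by exact_mod_cast (by omega : 1 ≤ k)
  have h4 : ((k : ℝ) + 1) ^ 2 ≤ 4 * (k : ℝ) ^ 2 := by nlinarith
  have h5 : ((2 : ℝ) ^ 24 * (k + 1)) ^ 2 ≤ (7 / 4) ^ k := by
    have : ((2 : ℝ) ^ 24 * (k + 1)) ^ 2 = 2 ^ 48 * ((k : ℝ) + 1) ^ 2 := by ring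
    rw [this]
    have h6 : (k : ℝ) ^ 2 * 2 ^ 60 ≤ (7 / 4) ^ k := by
      have : (k : ℝ) ^ 2 * 2 ^ 60 < (1 / 2 ^ 60 * (7 / 4) ^ k) * 2 ^ 60 :=
        mul_lt_mul_of_pos_right h3 (by positivity)
      have e : ((1 : ℝ) / 2 ^ 60 * (7 / 4) ^ k) * 2 ^ 60 = (7 / 4) ^ k := by
        field_simp
      rw [e] at this
      exact this.le
    have hkk : (0 : ℝ) ≤ (k : ℝ) ^ 2 := by positivity
    nlinarith
  have h7 : ((2 : ℝ) ^ 24 * (k + 1)) ^ 2 * 4 ^ k ≤ 7 ^ k := by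
    calc ((2 : ℝ) ^ 24 * (k + 1)) ^ 2 * 4 ^ k ≤ (7 / 4) ^ k * 4 ^ k :=
          mul_le_mul_of_nonneg_right h5 (by positivity)
      _ = 7 ^ k := by rw [← mul_pow]; norm_num
  exact_mod_cast h7

/-- the starting pairs -/
theorem start_cand : ∃ h0, ∀ h ≥ h0, ∃ S : Finset ℕ,
    (∀ q ∈ S, GP (5 * h) q (2 * (2 ^ h + 1 + 2 ^ (3 * h - 1) * (2 ^ (2 * h) + 1))) ∧
      q % 2 ^ h = 1) ∧ 2 ^ (4 * h) ≤ S.card * 2 ^ (2 * kap (5 * h) + 14) := by
  obtain ⟨E0, hE0⟩ := coprime_lift (2 ^ 24) (by norm_num)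
  obtain ⟨k1, hk1⟩ := exists_exp_bound
  refine ⟨E0 + 200 + (k1 + 1) * 2 ^ 24, fun h hh => ?_⟩
  have hh1 : E0 ≤ 5 * h := by omega
  have hh2 : 200 ≤ h := by omega
  have hh3 : (k1 + 1) * 2 ^ 24 ≤ h := by omega
  obtain ⟨k, hk⟩ : ∃ k, k = kap (5 * h) := ⟨_, rfl⟩
  have hkE : 5 * h / 2 ^ 24 = k := by rw [hk, kap]
  have hkk1 : k1 ≤ k := by
    rw [← hkE, Nat.le_div_iff_mul_le (by norm_num)]
    nlinarith
  have hk5 : k * 2 ^ 24 ≤ 5 * h := by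
    rw [← hkE]; exact Nat.div_mul_le_self _ _
  have hk6 : 5 * h < 2 ^ 24 * (k + 1) := by
    have := Nat.lt_mul_div_succ (5 * h) (show 0 < 2 ^ 24 by norm_num)
    rw [hkE] at this
    exact this
  have hk7 : 100 * k ≤ h := by
    have : (2 : ℕ) ^ 24 = 16777216 := by norm_num
    rw [this] at hk5
    omega
  -- the odd half of the partner
  set B := 2 ^ h + 1 + 2 ^ (3 * h - 1) * (2 ^ (2 * h) + 1) with hB
  have hBodd : Odd B := by
    rw [hB]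
    have e1 : (2 : ℕ) ^ h = 2 * 2 ^ (h - 1) := by
      rw [← pow_succ']; congr 1; omega
    have e2 : (2 : ℕ) ^ (3 * h - 1) = 2 * 2 ^ (3 * h - 2) := by
      rw [← pow_succ']; congr 1; omega
    refine ⟨2 ^ (h - 1) + 2 ^ (3 * h - 2) * (2 ^ (2 * h) + 1), ?_⟩
    rw [e2]
    nth_rewrite 1 [e1]
    ring
  obtain ⟨P, hP⟩ : ∃ P : ℕ, P = 2 ^ h := ⟨_, rfl⟩
  have hPbig : 2 ^ 200 ≤ P := by rw [hP]; exact Nat.pow_le_pow_right (by norm_num) hh2
  have hP1 : 2 ^ 20 ≤ P := le_trans (by norm_num) hPbig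
  have e2h : (2 : ℕ) ^ (2 * h) = P ^ 2 := by rw [hP, ← pow_mul]; congr 1; ring
  have e3h : (2 : ℕ) ^ (3 * h) = P ^ 3 := by rw [hP, ← pow_mul]; congr 1; ring
  have e4h : (2 : ℕ) ^ (4 * h) = P ^ 4 := by rw [hP, ← pow_mul]; congr 1; ring
  have e5h : (2 : ℕ) ^ (5 * h) = P ^ 5 := by rw [hP, ← pow_mul]; congr 1; ring
  have e3h1 : 2 * (2 : ℕ) ^ (3 * h - 1) = P ^ 3 := by
    rw [← e3h, ← pow_succ']; congr 1; omega
  have e2h1 : 2 * (2 : ℕ) ^ (2 * h - 1) = P ^ 2 := by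
    rw [← e2h, ← pow_succ']; congr 1; omega
  have e2h7 : 128 * (2 : ℕ) ^ (2 * h - 7) = P ^ 2 := by
    rw [← e2h, show (128 : ℕ) = 2 ^ 7 by norm_num, ← pow_add]; congr 1; omega
  have e5h5 : 32 * (2 : ℕ) ^ (5 * h - 5) = P ^ 5 := by
    rw [← e5h, show (32 : ℕ) = 2 ^ 5 by norm_num, ← pow_add]; congr 1; omega
  have hσ : 2 * B = P ^ 5 + P ^ 3 + 2 * P + 2 := by
    have : 2 * B = 2 * (2 ^ h + 1) + (2 * 2 ^ (3 * h - 1)) * (2 ^ (2 * h) + 1) := by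
      rw [hB]; ring
    rw [this, e3h1, e2h, ← hP]; ring
  have hB0 : 0 < B := by rw [hB]; positivity
  have hBlt : B < 2 ^ (2 * (5 * h)) := by
    have e : (2 : ℕ) ^ (2 * (5 * h)) = P ^ 5 * P ^ 5 := by
      rw [← e5h, ← pow_add]; congr 1; ring
    rw [e]
    have h1 : P ^ 3 ≤ P ^ 5 := Nat.pow_le_pow_right (by omega) (by norm_num)
    have h2 : P ≤ P ^ 5 := Nat.le_self_pow (by norm_num) P
    have h3 : 8 * P ^ 5 ≤ P ^ 5 * P ^ 5 := Nat.mul_le_mul_right _ (by omega)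
    have h4 : 1 ≤ P ^ 5 := Nat.one_le_pow _ _ (by omega)
    omega
  have hcop : Nat.Coprime (2 ^ (3 * h)) B :=
    Nat.Coprime.pow_left _ (Nat.coprime_two_left.2 hBodd)
  -- the candidates
  set A1 := (range (2 ^ (2 * h - 7))).filter (fun x => pc x ≤ h - 1) with hA1
  set A2 := (range (2 ^ (2 * h - 7 - k))).filter (fun x => pc x ≤ h - 1 - k) with hA2
  have hlift : ∀ p : ℕ × ℕ, ∃ u < 2 ^ k, Nat.Coprime
      ((1 + 2 ^ (5 * h + 1) + 2 ^ (4 * h) + 2 ^ (3 * h) * (2 ^ (2 * h - 1) + 2 ^ k * p.1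
        + (2 ^ (2 * h - 1) + p.2)) + 2 ^ h * (2 ^ (2 * h - 1) + p.2)) + 2 ^ (3 * h) * u) B := by
    intro p
    have := hE0 (5 * h) hh1 B (2 ^ (3 * h)) (1 + 2 ^ (5 * h + 1) + 2 ^ (4 * h) + 2 ^ (3 * h) *
      (2 ^ (2 * h - 1) + 2 ^ k * p.1 + (2 ^ (2 * h - 1) + p.2)) + 2 ^ h * (2 ^ (2 * h - 1) + p.2))
      hB0 hBlt hcop
    rw [hkE] at this
    exact this
  choose u hu1 hu2 using hlift
  obtain ⟨gg, hgg⟩ : ∃ gg : ℕ × ℕ → ℕ, ∀ p, gg p = 2 ^ (2 * h - 1) + 2 ^ k * p.1 + u p :=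
    ⟨_, fun _ => rfl⟩
  obtain ⟨gp, hgp⟩ : ∃ gp : ℕ × ℕ → ℕ, ∀ p, gp p = 2 ^ (2 * h - 1) + p.2 := ⟨_, fun _ => rfl⟩
  obtain ⟨NN, hNN⟩ : ∃ NN : ℕ × ℕ → ℕ, ∀ p, NN p = 1 + P * (P ^ 2 * (2 * P ^ 2 + P
      + (gg p + gp p)) + gp p) := ⟨_, fun _ => rfl⟩
  have hNcop : ∀ p, Nat.Coprime (NN p) B := by
    intro p
    have := hu2 p
    have e : (1 + 2 ^ (5 * h + 1) + 2 ^ (4 * h) + 2 ^ (3 * h) * (2 ^ (2 * h - 1) + 2 ^ k * p.1
        + (2 ^ (2 * h - 1) + p.2)) + 2 ^ h * (2 ^ (2 * h - 1) + p.2)) + 2 ^ (3 * h) * u p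
        = NN p := by
      rw [hNN, hgg, hgp, pow_succ 2 (5 * h), e5h, e4h, e3h, ← hP]
      ring
    rwa [e] at this
  -- bounds
  have hr : ∀ p ∈ A2 ×ˢ A1, 2 ^ k * p.1 + u p < 2 ^ (2 * h - 7) ∧ p.2 < 2 ^ (2 * h - 7) ∧
      pc p.1 ≤ h - 1 - k ∧ pc p.2 ≤ h - 1 := by
    intro p hp
    rw [mem_product, hA1, hA2, mem_filter, mem_filter, mem_range, mem_range] at hp
    refine ⟨?_, hp.2.1, hp.1.2, hp.2.2⟩
    have h1 := hu1 p
    have h2 : p.1 + 1 ≤ 2 ^ (2 * h - 7 - k) := hp.1.1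
    calc 2 ^ k * p.1 + u p < 2 ^ k * p.1 + 2 ^ k := by omega
      _ = 2 ^ k * (p.1 + 1) := by ring
      _ ≤ 2 ^ k * 2 ^ (2 * h - 7 - k) := Nat.mul_le_mul_left _ h2
      _ = 2 ^ (2 * h - 7) := by rw [← pow_add]; congr 1; omega
  have hgplt : ∀ p ∈ A2 ×ˢ A1, gp p < P ^ 2 := by
    intro p hp
    have := (hr p hp).2.1
    rw [hgp]; omega
  have hgglt : ∀ p ∈ A2 ×ˢ A1, gg p < P ^ 2 := by
    intro p hp
    have := (hr p hp).1
    rw [hgg]; omega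
  have hgeh : h ≤ 2 ^ (2 * h - 1) := by
    have h1 : h ≤ 2 * h - 1 := by omega
    exact h1.trans (Nat.lt_two_pow_self).le
  -- representation
  have hprof : ∀ p ∈ A2 ×ˢ A1, Prof [NN p, 2 * B] := by
    intro p hp
    obtain ⟨r1, r2, r3, r4⟩ := hr p hp
    have hrep : Rep (2 ^ h + 1) (2 ^ h) h h (2 * h) (2 * h)
        (2 ^ h * 2 ^ h * gg p + ((2 ^ h + 1) + (2 ^ h - 1) * 2 ^ h) * gp p) := by
      refine ⟨gg p, gp p, rfl, ?_, ?_, ?_, ?_, ?_, ?_⟩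
      · rw [e2h]; exact hgglt p hp
      · have h1 : gg p = (u p + 2 ^ k * p.1) + 2 ^ (2 * h - 1) * 1 := by rw [hgg]; ring
        have h2 : u p + 2 ^ k * p.1 < 2 ^ (2 * h - 1) := by omega
        rw [h1, pc_add_mul _ _ _ h2, pc_add_mul _ _ _ (hu1 p)]
        have h3 := pc_lt_pow k (u p) (hu1 p)
        have h4 : pc 1 = 1 := by simp [pc]
        omega
      · rw [hgg]; omega
      · rw [e2h]; exact hgplt p hp
      · have h1 : gp p = p.2 + 2 ^ (2 * h - 1) * 1 := by rw [hgp]; ring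
        have h2 : p.2 < 2 ^ (2 * h - 1) := by omega
        rw [h1, pc_add_mul _ _ _ h2]
        have h4 : pc 1 = 1 := by simp [pc]
        omega
      · rw [hgp]; omega
    have h1 := Prof.step (i := 1) (Prof.start h) (by omega) (by omega) hrep
    have e1 : (2 ^ 1 - 1) * (2 ^ h + 1) + 2 ^ (h + 2 * h - 1) * (2 ^ h + 1 + (2 ^ h - 1) * 2 ^ h)
        = B := by
      rw [hB]
      have : h + 2 * h - 1 = 3 * h - 1 := by omega
      rw [this]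
      congr 1
      · ring
      · congr 1
        rw [e2h, ← hP]
        obtain ⟨Q, hQ⟩ : ∃ Q, P = Q + 1 := ⟨P - 1, by omega⟩
        rw [hQ]
        simp only [Nat.add_sub_cancel]
        ring
    have e2 : (2 ^ 1 - 1) * (2 ^ h + 1) + 2 ^ h * (2 ^ (1 + h + 2 * h - 1) * (2 ^ h + 1)
        + (2 ^ h + 1 + (2 ^ h - 1) * 2 ^ h) * (2 ^ (2 * h) - 1) +
        (2 ^ h * 2 ^ h * gg p + ((2 ^ h + 1) + (2 ^ h - 1) * 2 ^ h) * gp p)) = NN p := by
      have : 1 + h + 2 * h - 1 = 3 * h := by omega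
      rw [this, hNN, e3h, e2h, ← hP]
      obtain ⟨Q, hQ⟩ : ∃ Q, P = Q + 1 := ⟨P - 1, by omega⟩
      obtain ⟨R, hR⟩ : ∃ R, P ^ 2 = R + 1 := ⟨P ^ 2 - 1, by
        have : 1 ≤ P ^ 2 := Nat.one_le_pow _ _ (by omega)
        omega⟩
      have e3 : P + 1 + (P - 1) * P = R + 2 := by
        have : P + (P - 1) * P = P ^ 2 := by
          rw [hQ]; simp only [Nat.add_sub_cancel]; ring
        omega
      rw [e3, hR, Nat.add_sub_cancel]
      have e4 : P ^ 3 = P * (R + 1) := by rw [← hR]; ring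
      have e5 : P * P = R + 1 := by rw [← hR]; ring
      rw [e4, e5]
      have e6 : P * (R + 1) * (P + 1) = (R + 1) * (R + 1) + P * (R + 1) := by
        rw [← e5]; ring
      rw [e6]
      ring_nf
    rw [e1, e2] at h1
    exact h1
  refine ⟨(A2 ×ˢ A1).image NN, ?_, ?_⟩
  · intro q hq
    rw [mem_image] at hq
    obtain ⟨p, hp, rfl⟩ := hq
    obtain ⟨r1, r2, r3, r4⟩ := hr p hp
    have hlt2 := hgplt p hp
    have hmod : NN p % 2 ^ h = 1 := by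
      rw [hNN, ← hP, Nat.add_mul_mod_self_left]
      exact Nat.mod_eq_of_lt (by omega)
    have hsum : gg p + gp p = P ^ 2 + (2 ^ k * p.1 + u p + p.2) := by
      rw [hgg, hgp]; omega
    obtain ⟨r, hrr⟩ : ∃ r, r = 2 ^ k * p.1 + u p + p.2 := ⟨_, rfl⟩
    have hr64 : 64 * r < P ^ 2 := by omega
    have hNval : NN p = 3 * P ^ 5 + (1 + P ^ 4 + P ^ 3 * r + P * gp p) := by
      rw [hNN, hsum, ← hrr]; ring
    refine ⟨⟨hprof p hp, ?_, ⟨B, by ring⟩, ?_, ?_, ?_, ?_⟩, hmod⟩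
    · -- coprime
      refine Nat.Coprime.mul_right ?_ (hNcop p)
      rw [Nat.coprime_two_right]
      rw [hNN]
      have : Even P := by
        rw [hP, show h = (h - 1) + 1 by omega, pow_succ]
        exact ⟨2 ^ (h - 1), by ring⟩
      exact (this.mul_right _).one_add
    · rw [hσ, e5h]; omega
    · rw [hσ, e5h]
      have h1 : (2 : ℕ) ^ (5 * h - 5 * h / 4) ≤ P ^ 4 := by
        rw [← e4h]
        exact Nat.pow_le_pow_right (by norm_num) (by omega)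
      have h2 : 2 ^ 20 * P ^ 4 ≤ P ^ 5 := by
        calc 2 ^ 20 * P ^ 4 ≤ P * P ^ 4 := Nat.mul_le_mul_right _ hP1
          _ = P ^ 5 := by ring
      have h3 : P ^ 3 ≤ P ^ 4 := Nat.pow_le_pow_right (by omega) (by norm_num)
      have h4 : P ≤ P ^ 4 := Nat.le_self_pow (by norm_num) P
      have h5 : 1 ≤ P ^ 4 := Nat.one_le_pow _ _ (by omega)
      omega
    · rw [hNval, e5h]; omega
    · rw [hNval, e5h]
      have h1 : P ^ 3 * (64 * r) ≤ P ^ 3 * P ^ 2 := Nat.mul_le_mul_left _ hr64.le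
      have h1' : 64 * (P ^ 3 * r) ≤ P ^ 5 := by
        calc 64 * (P ^ 3 * r) = P ^ 3 * (64 * r) := by ring
          _ ≤ P ^ 3 * P ^ 2 := h1
          _ = P ^ 5 := by ring
      have h2 : P * gp p ≤ P ^ 3 := by
        calc P * gp p ≤ P * P ^ 2 := Nat.mul_le_mul_left _ hlt2.le
          _ = P ^ 3 := by ring
      have h3 : P ^ 3 ≤ P ^ 4 := Nat.pow_le_pow_right (by omega) (by norm_num)
      have h4 : 2 ^ 20 * P ^ 4 ≤ P ^ 5 := by
        calc 2 ^ 20 * P ^ 4 ≤ P * P ^ 4 := Nat.mul_le_mul_right _ hP1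
          _ = P ^ 5 := by ring
      have h5 : 1 ≤ P ^ 4 := Nat.one_le_pow _ _ (by omega)
      omega
  · -- the number of candidates
    have hinj : Set.InjOn NN ((A2 ×ˢ A1 : Finset (ℕ × ℕ)) : Set (ℕ × ℕ)) := by
      intro p hp p' hp' heq
      rw [Finset.mem_coe] at hp hp'
      rw [hNN, hNN] at heq
      have h1 : P * (P ^ 2 * (2 * P ^ 2 + P + (gg p + gp p)) + gp p)
          = P * (P ^ 2 * (2 * P ^ 2 + P + (gg p' + gp p')) + gp p') := by omega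
      have h2 := Nat.eq_of_mul_eq_mul_left (by omega : 0 < P) h1
      have h3 : gp p = gp p' := by
        have := congrArg (· % P ^ 2) h2
        simp only [Nat.mul_add_mod] at this
        rwa [Nat.mod_eq_of_lt (hgplt p hp), Nat.mod_eq_of_lt (hgplt p' hp')] at this
      rw [h3] at h2
      have h4 : P ^ 2 * (2 * P ^ 2 + P + (gg p + gp p'))
          = P ^ 2 * (2 * P ^ 2 + P + (gg p' + gp p')) := by omega
      have h5 := Nat.eq_of_mul_eq_mul_left (by positivity : 0 < P ^ 2) h4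
      have h6 : gg p = gg p' := by omega
      rw [hgg, hgg] at h6
      rw [hgp, hgp] at h3
      have h7 : 2 ^ k * p.1 + u p = 2 ^ k * p'.1 + u p' := by omega
      have h8 : p.1 = p'.1 := by
        have := congrArg (· / 2 ^ k) h7
        simp only [Nat.mul_add_div (by positivity : 0 < 2 ^ k)] at this
        rwa [Nat.div_eq_of_lt (hu1 p), Nat.div_eq_of_lt (hu1 p'), add_zero, add_zero] at this
      exact Prod.ext h8 (by omega)
    rw [card_image_of_injOn hinj, card_product]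
    have hc1 := low_count (2 * h - 7) 0 (by omega) (by omega)
    have hc2 := low_count (2 * h - 7 - k) k (by omega) (by omega)
    have hd1 : ((range (2 ^ (2 * h - 7))).filter (fun x => pc x ≤ (2 * h - 7) / 2 - 0)).card
        ≤ A1.card := by
      refine card_le_card fun x hx => ?_
      rw [mem_filter] at hx ⊢
      exact ⟨hx.1, by omega⟩
    have hd2 : ((range (2 ^ (2 * h - 7 - k))).filter
        (fun x => pc x ≤ (2 * h - 7 - k) / 2 - k)).card ≤ A2.card := by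
      refine card_le_card fun x hx => ?_
      rw [mem_filter] at hx ⊢
      exact ⟨hx.1, by omega⟩
    have h1 : 2 ^ (2 * h - 7) ≤ A1.card * (2 * h) := by
      calc 2 ^ (2 * h - 7) = 2 ^ (2 * h - 7) * 7 ^ 0 := by simp
        _ ≤ _ := hc1
        _ ≤ A1.card * ((2 * h - 7 + 1) * 8 ^ 0) := Nat.mul_le_mul_right _ hd1
        _ ≤ A1.card * (2 * h) := Nat.mul_le_mul_left _ (by rw [pow_zero]; omega)
    have h2 : 2 ^ (2 * h - 7 - k) * 7 ^ k ≤ A2.card * (2 * h * 8 ^ k) := by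
      calc 2 ^ (2 * h - 7 - k) * 7 ^ k ≤ _ := hc2
        _ ≤ A2.card * ((2 * h - 7 - k + 1) * 8 ^ k) := Nat.mul_le_mul_right _ hd2
        _ ≤ A2.card * (2 * h * 8 ^ k) := Nat.mul_le_mul_left _
          (Nat.mul_le_mul_right _ (by omega))
    have h3 : (2 * h) ^ 2 * 4 ^ k ≤ 7 ^ k := by
      refine le_trans (Nat.mul_le_mul_right _ (Nat.pow_le_pow_left ?_ 2)) (hk1 k hkk1)
      omega
    -- combine
    have e1 : (2 : ℕ) ^ (4 * h) = 2 ^ (2 * h - 7) * 2 ^ (2 * h - 7 - k) * 2 ^ (k + 14) := by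
      rw [← pow_add, ← pow_add]; congr 1; omega
    have h4 : 2 ^ (2 * h - 7) * (2 ^ (2 * h - 7 - k) * 7 ^ k)
        ≤ (A1.card * (2 * h)) * (A2.card * (2 * h * 8 ^ k)) := Nat.mul_le_mul h1 h2
    have hpos : 0 < (2 * h) ^ 2 * 8 ^ k := by positivity
    refine Nat.le_of_mul_le_mul_right ?_ hpos
    rw [← hk]
    calc 2 ^ (4 * h) * ((2 * h) ^ 2 * 8 ^ k)
        = 2 ^ (2 * h - 7) * 2 ^ (2 * h - 7 - k) * 2 ^ (k + 14) * 2 ^ k * ((2 * h) ^ 2 * 4 ^ k) := by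
          rw [e1, show (8 : ℕ) ^ k = 2 ^ k * 4 ^ k by rw [← mul_pow]; norm_num]; ring
      _ ≤ 2 ^ (2 * h - 7) * 2 ^ (2 * h - 7 - k) * 2 ^ (k + 14) * 2 ^ k * 7 ^ k :=
          Nat.mul_le_mul_left _ h3
      _ = (2 ^ (2 * h - 7) * (2 ^ (2 * h - 7 - k) * 7 ^ k)) * 2 ^ (2 * k + 14) := by
          rw [show 2 * k + 14 = (k + 14) + k by ring, pow_add 2 (k + 14) k]; ring
      _ ≤ ((A1.card * (2 * h)) * (A2.card * (2 * h * 8 ^ k))) * 2 ^ (2 * k + 14) :=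
          Nat.mul_le_mul_right _ h4
      _ = A2.card * A1.card * 2 ^ (2 * k + 14) * ((2 * h) ^ 2 * 8 ^ k) := by ring

end Pool.Agent.CC603
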