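import Pool.Agent.CC603.NewLevel
import Pool.Agent.CC603.Params
import Pool.Agent.CC603.Start

/-!
The base of the induction.
-/

namespace Pool.Agent.CC603

open Finset

/-- cutting a sum into windows -/
lemma sum_windows (S : Finset ℕ) (A b κ : ℕ) (f : ℕ → ℝ) (hf : ∀ q, 0 ≤ f q) (P : ℕ → Prop)
    [DecidablePred P] (hS : ∀ q ∈ S, A ≤ q ∧ q < A + 2 ^ b * 2 ^ κ ∧ P q) :
    ∑ q ∈ S, f q ≤ ∑ u ∈ range (2 ^ κ),
      ∑ q ∈ (Ico (A + 2 ^ b * u) (A + 2 ^ b * u + 2 ^ b)).filter P, f q := by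
  have hmaps : ∀ q ∈ S, (q - A) / 2 ^ b ∈ range (2 ^ κ) := by
    intro q hq
    obtain ⟨h1, h2, _⟩ := hS q hq
    rw [mem_range, Nat.div_lt_iff_lt_mul (by positivity), mul_comm (2 ^ κ) (2 ^ b)]
    omega
  rw [← sum_fiberwise_of_maps_to hmaps]
  apply sum_le_sum
  intro u _
  apply sum_le_sum_of_subset_of_nonneg
  · intro q hq
    rw [mem_filter] at hq
    obtain ⟨hq1, hq2⟩ := hq
    obtain ⟨h1, h2, h3⟩ := hS q hq1
    have y1 := Nat.div_add_mod (q - A) (2 ^ b)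
    have y2 := Nat.mod_lt (q - A) (show 0 < 2 ^ b by positivity)
    rw [hq2] at y1
    rw [mem_filter, mem_Ico]
    exact ⟨⟨by omega, by omega⟩, h3⟩
  · intro q _ _
    exact hf q

/-- the base: one class at one scale with small loss -/
theorem base : ∀ η : ℝ, 0 < η → ∀ E1 : ℕ, ∃ c0 ρ E, 3 ≤ c0 ∧ Odd ρ ∧ ρ < 2 ^ c0 ∧ E1 ≤ E ∧
    Lvl c0 ρ E η := by
  classical
  intro η hη Eb
  obtain ⟨h0, hst⟩ := start_cand
  obtain ⟨E1, h1⟩ := par_exists
  obtain ⟨E2, h2⟩ := loss_bound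
  obtain ⟨E3, h3⟩ := new_level
  obtain ⟨k, hk⟩ := exists_pow_lt_of_lt_one hη (show (1 / 2 : ℝ) < 1 by norm_num)
  obtain ⟨h, g1, g2, g3, g4, g5, g6, g7⟩ : ∃ h, h0 ≤ h ∧ E1 ≤ h ∧ E2 ≤ h ∧ E3 ≤ h ∧
      1000000000 ≤ h ∧ Eb ≤ h ∧ k * 2 ^ 20 ≤ h :=
    ⟨h0 + E1 + E2 + E3 + 1000000000 + Eb + k * 2 ^ 20, by omega, by omega, by omega,
      by omega, by omega, by omega, by omega⟩
  obtain ⟨S, hS, hcard⟩ := hst h g1
  set σ1 := 2 * (2 ^ h + 1 + 2 ^ (3 * h - 1) * (2 ^ (2 * h) + 1)) with hσ1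
  set E := 5 * h with hE
  obtain ⟨F, hEF, hFE⟩ : ∃ F, 4956 * E ≤ 1000 * F ∧ 1000 * F ≤ 4961 * E :=
    ⟨4957 * E / 1000, by omega, by omega⟩
  have hk1 : bb F + kap F + 5 = F := bb_add_kap (by omega)
  have hk2 : bb E + kap E + 5 = E := bb_add_kap (by omega)
  have hk3 : kap E ≤ E / 100000 := Nat.div_le_div_left (by norm_num) (by norm_num)
  have hk4 : kap F ≤ F / 100000 := Nat.div_le_div_left (by norm_num) (by norm_num)
  have hk5 : kap F ≤ 5 * kap E + 5 := by unfold kap; omega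
  obtain ⟨e, a, w2, hP, hF, ha, hw⟩ := h1 E (by omega) F hEF hFE h 1 (5 + kap F) (by omega)
    (by omega) le_rfl (by norm_num) (by omega) (by omega)
  have hN := h3 E (by omega) F hEF hFE
  have hloss := h2 E (by omega)
  clear h1 h2 h3 hst
  set b := bb E with hb
  set b' := bb F with hb'
  set l := 5 + kap F with hl
  have hbb : b ≤ b' := by omega
  have hh1 : 1 < 2 ^ h := Nat.one_lt_two_pow (by omega)
  have hSne : S.Nonempty := by
    rw [← card_pos]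
    rcases Nat.eq_zero_or_pos S.card with hz | hz
    · rw [hz, zero_mul] at hcard
      have := Nat.one_le_two_pow (n := 4 * h)
      omega
    · exact hz
  obtain ⟨q0, hq0⟩ := hSne
  have hGP0 := (hS q0 hq0).1
  have hL : 2 ^ b * 2 ^ (a + w2 + E - l) = 2 ^ b' := by
    rw [← pow_add]; congr 1; omega
  have hF5 : 2 ^ b' * 2 ^ kap F = 2 ^ (F - 5) := by rw [← pow_add]; congr 1; omega
  have hE5 : 2 ^ b * 2 ^ kap E = 2 ^ (E - 5) := by rw [← pow_add]; congr 1; omega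
  have hE32 : 32 * 2 ^ (E - 5) = 2 ^ E := by
    have : E = (E - 5) + 5 := by omega
    conv_rhs => rw [this, pow_add]
    ring
  -- failures
  set W : ℕ → ℕ → ℕ := fun q v => ((Ico (3 * 2 ^ F + 2 ^ b' * v)
      (3 * 2 ^ F + 2 ^ b' * v + 2 ^ b')).filter (fun N => N % 2 ^ b = q % 2 ^ b ∧
        ¬ RepN q σ1 a b (w2 - 1) w2 1 N)).card with hW
  have hone : ∀ u ∈ range (2 ^ kap E), ∀ v ∈ range (2 ^ kap F),
      ∑ q ∈ (Ico (3 * 2 ^ E + 2 ^ b * u) (3 * 2 ^ E + 2 ^ b * u + 2 ^ b)).filter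
        (fun q => q % 2 ^ h = 1 % 2 ^ h ∧ Nat.Coprime q σ1), (W q v : ℝ)
      ≤ 2 ^ (b - h) * 2 ^ (a + w2 + E - l) * (2 ^ (l + 3) * (999 / 1000) ^ (b / 768)) := by
    intro u hu v hv
    rw [mem_range] at hu hv
    have hu2 : 2 ^ b * u + 2 ^ b ≤ 2 ^ (E - 5) := by
      rw [← hE5]
      calc 2 ^ b * u + 2 ^ b = 2 ^ b * (u + 1) := by ring
        _ ≤ _ := Nat.mul_le_mul_left _ hu
    have hv2 : 2 ^ b' * v + 2 ^ b' ≤ 2 ^ (F - 5) := by
      rw [← hF5]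
      calc 2 ^ b' * v + 2 ^ b' = 2 ^ b' * (v + 1) := by ring
        _ ≤ _ := Nat.mul_le_mul_left _ hv
    have hs2 : 1024 * σ1 ≤ 1025 * 2 ^ E := le_trans (Nat.le_add_right _ _) hGP0.s2
    have hr := fun q (y1 : 3 * 2 ^ E + 2 ^ b * u ≤ q) (y2 : q < 3 * 2 ^ E + 2 ^ b * u + 2 ^ b) =>
      step_range (q := q) (i := 1) (l := l) (Y := 3 * 2 ^ F + 2 ^ b' * v) hF
          (by omega) hw le_rfl (by norm_num) (by omega) (by omega) (by omega) (by omega)
          hGP0.s1 hs2 (by omega) (by rw [hL]; omega)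
    have hfc := fail_count hP (σ := σ1) (X0 := 3 * 2 ^ E + 2 ^ b * u) (ξ := 1) (θ := 28) (i := 1)
      (Y := 3 * 2 ^ F + 2 ^ b' * v) hGP0.s1 hs2 hGP0.ev odd_one (by omega) (by omega)
      (by norm_num) (by norm_num) (fun q y1 y2 => (hr q y1 y2).1) (fun q y1 y2 => (hr q y1 y2).2)
    refine le_trans (le_of_eq ?_) hfc
    apply sum_congr rfl
    intro q _
    rw [hW, hL]
    norm_num
  have htot : ∑ q ∈ S, ∑ v ∈ range (2 ^ kap F), (W q v : ℝ)
      ≤ 2 ^ kap E * (2 ^ kap F * (2 ^ (b - h) * 2 ^ (a + w2 + E - l)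
        * (2 ^ (l + 3) * (999 / 1000) ^ (b / 768)))) := by
    refine le_trans (sum_windows S (3 * 2 ^ E) b (kap E)
      (fun q => ∑ v ∈ range (2 ^ kap F), (W q v : ℝ))
      (fun q => sum_nonneg (fun v _ => Nat.cast_nonneg _))
      (fun q => q % 2 ^ h = 1 % 2 ^ h ∧ Nat.Coprime q σ1) ?_) ?_
    · intro q hq
      have hg := (hS q hq).1
      rw [hE5]
      refine ⟨hg.q1, hg.q2, ?_, hg.cop⟩
      rw [(hS q hq).2, Nat.mod_eq_of_lt hh1]
    · have hu : ∀ u ∈ range (2 ^ kap E), ∑ q ∈ (Ico (3 * 2 ^ E + 2 ^ b * u)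
          (3 * 2 ^ E + 2 ^ b * u + 2 ^ b)).filter
            (fun q => q % 2 ^ h = 1 % 2 ^ h ∧ Nat.Coprime q σ1),
            ∑ v ∈ range (2 ^ kap F), (W q v : ℝ) ≤ (2 ^ kap F : ℕ) • (2 ^ (b - h) *
              2 ^ (a + w2 + E - l) * (2 ^ (l + 3) * (999 / 1000 : ℝ) ^ (b / 768))) := by
        intro u hu
        rw [sum_comm]
        have := sum_le_card_nsmul (range (2 ^ kap F)) _ _ (fun v hv => hone u hu v hv)
        rwa [card_range] at this
      have := sum_le_card_nsmul (range (2 ^ kap E)) _ _ hu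
      rw [card_range] at this
      refine le_trans this (le_of_eq ?_)
      rw [nsmul_eq_mul, nsmul_eq_mul]
      push_cast
      ring
  -- the average
  obtain ⟨q1, hq1, hq1f⟩ : ∃ q1 ∈ S, ∑ v ∈ range (2 ^ kap F), (W q1 v : ℝ)
      ≤ (1 / 2) ^ (E / 2 ^ 20) * 2 ^ (b' - b) := by
    apply exists_le_of_sum_le ⟨q0, hq0⟩
    refine le_trans htot ?_
    rw [sum_const, nsmul_eq_mul]
    have hcr : (2:ℝ) ^ (4 * h) ≤ (S.card : ℝ) * 2 ^ (2 * kap E + 14) := by exact_mod_cast hcard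
    have hpos : (0:ℝ) < 2 ^ (2 * kap E + 14) := by positivity
    rw [← mul_le_mul_iff_left₀ hpos]
    calc 2 ^ kap E * (2 ^ kap F * (2 ^ (b - h) * 2 ^ (a + w2 + E - l)
        * (2 ^ (l + 3) * (999 / 1000) ^ (b / 768)))) * (2:ℝ) ^ (2 * kap E + 14)
        = (2 ^ kap E * 2 ^ kap F * 2 ^ (b - h) * 2 ^ (a + w2 + E - l) * 2 ^ (l + 3)
          * 2 ^ (2 * kap E + 14)) * (999 / 1000) ^ (b / 768) := by ring
      _ = (2 ^ (4 * h) * 2 ^ (b' - b) * 2 ^ (2 * kap F + 2 * kap E + 17))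
          * (999 / 1000) ^ (b / 768) := by
          congr 1
          rw [← pow_add, ← pow_add, ← pow_add, ← pow_add, ← pow_add, ← pow_add, ← pow_add]
          congr 1
          omega
      _ ≤ (2 ^ (4 * h) * 2 ^ (b' - b) * 2 ^ (12 * kap E + 40))
          * (999 / 1000) ^ (b / 768) := by
          apply mul_le_mul_of_nonneg_right _ (by positivity)
          apply mul_le_mul_of_nonneg_left _ (by positivity)
          exact pow_le_pow_right₀ (by norm_num) (by omega)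
      _ = 2 ^ (4 * h) * 2 ^ (b' - b) * (2 ^ (12 * kap E + 40) * (999 / 1000) ^ (b / 768)) := by
          ring
      _ ≤ 2 ^ (4 * h) * 2 ^ (b' - b) * (1 / 2) ^ (E / 2 ^ 20) :=
          mul_le_mul_of_nonneg_left hloss (by positivity)
      _ = 2 ^ (4 * h) * ((1 / 2) ^ (E / 2 ^ 20) * 2 ^ (b' - b)) := by ring
      _ ≤ ((S.card : ℝ) * 2 ^ (2 * kap E + 14)) * ((1 / 2) ^ (E / 2 ^ 20) * 2 ^ (b' - b)) :=
          mul_le_mul_of_nonneg_right hcr (by positivity)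
      _ = (S.card : ℝ) * ((1 / 2) ^ (E / 2 ^ 20) * 2 ^ (b' - b)) * 2 ^ (2 * kap E + 14) := by
          ring
  have hGP1 := (hS q1 hq1).1
  have hlvl := hN b (q1 % 2 ^ b) a (w2 - 1) w2 1 (fun _ => q1) (fun _ => σ1) {q1 % 2 ^ b} 0 η
    le_rfl hF ha (by omega) (by omega) le_rfl (by norm_num) (fun y _ => hGP1) (by
      have : (range (2 ^ b')).filter (fun x => x % 2 ^ b = q1 % 2 ^ b ∧
          x % 2 ^ b ∉ ({q1 % 2 ^ b} : Finset ℕ)) = ∅ := by
        rw [filter_eq_empty_iff]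
        intro x _ hx
        apply hx.2
        rw [mem_singleton]; exact hx.1
      rw [this]; simp) (by
      have e1 : ∀ v, ((Ico (3 * 2 ^ F + 2 ^ b' * v)
          (3 * 2 ^ F + 2 ^ b' * v + 2 ^ b')).filter (fun N => N % 2 ^ b ∈
            ({q1 % 2 ^ b} : Finset ℕ) ∧ ¬ RepN q1 σ1 a b (w2 - 1) w2 1 N)).card = W q1 v := by
        intro v
        rw [hW]
        simp only [mem_singleton]
      push_cast
      calc ∑ v ∈ range (2 ^ kap F), (((Ico (3 * 2 ^ F + 2 ^ b' * v)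
          (3 * 2 ^ F + 2 ^ b' * v + 2 ^ b')).filter (fun N => N % 2 ^ b ∈
            ({q1 % 2 ^ b} : Finset ℕ) ∧ ¬ RepN q1 σ1 a b (w2 - 1) w2 1 N)).card : ℝ)
          = ∑ v ∈ range (2 ^ kap F), (W q1 v : ℝ) :=
            sum_congr rfl (fun v _ => by rw [e1])
        _ ≤ (1 / 2) ^ (E / 2 ^ 20) * 2 ^ (b' - b) := hq1f
        _ ≤ (1 / 2) ^ k * 2 ^ (b' - b) := by
            apply mul_le_mul_of_nonneg_right _ (by positivity)
            apply pow_le_pow_of_le_one (by norm_num) (by norm_num)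
            rw [Nat.le_div_iff_mul_le (by positivity)]
            omega
        _ ≤ η * 2 ^ (b' - b) := mul_le_mul_of_nonneg_right hk.le (by positivity))
  rw [zero_add] at hlvl
  refine ⟨b, q1 % 2 ^ b, F, by omega, ?_, Nat.mod_lt _ (by positivity), by omega, hlvl⟩
  have hodd := hGP1.odd
  rw [Nat.odd_iff] at hodd ⊢
  rw [Nat.mod_mod_of_dvd _ (dvd_pow_self 2 (by omega))]
  exact hodd

end Pool.Agent.CC603
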