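import Pool.Agent.CC603.Params

/-!
The last step: windows of length `2 ^ (F - 6)` below `15 * 2 ^ (F - 2)`.
-/

namespace Pool.Agent.CC603

open Finset

/-- the two range conditions of `level_fail` with `i = 1`, `w1 = w2 - j1`, `l = 6` -/
theorem piece_range {E F a w2 b j1 q σ Y θ : ℕ} (hF : a + E + w2 + b = F) (ha : 20 ≤ a)
    (hw2 : 20 ≤ w2 - j1) (hb : b + 5 ≤ E)
    (hj : (j1 = 1 ∧ 11 * 2 ^ F ≤ 4 * Y ∧ 4 * Y < 15 * 2 ^ F ∧ θ = min 62 (64 * Y / 2 ^ F - 164)) ∨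
      (j1 = 2 ∧ 15 * 2 ^ F ≤ 8 * Y ∧ 4 * Y < 11 * 2 ^ F ∧ θ = 64 * Y / 2 ^ F - 115))
    (hq1 : 3 * 2 ^ E ≤ q) (hq2 : q < 3 * 2 ^ E + 2 ^ (E - 5)) (hσ1 : 2 ^ E ≤ σ)
    (hσ2 : 1024 * σ ≤ 1025 * 2 ^ E) :
    (θ + 2) * 2 ^ (a + E + w2 + b) + 64 * ((2 ^ 1 - 1) * q + 2 ^ b *
      (2 ^ (1 + a + (w2 - j1) - 1) * q + (q + (2 ^ a - 1) * σ) * (2 ^ w2 - 1))) ≤ 64 * Y ∧
    2 ^ j1 * (64 * (Y + 2 ^ b * 2 ^ (a + w2 + E - 6) + 2 ^ b))
        ≤ (2 ^ j1 * θ + 64) * 2 ^ (a + E + w2 + b)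
          + 2 ^ j1 * (64 * ((2 ^ 1 - 1) * q + 2 ^ b *
        (2 ^ (1 + a + (w2 - j1) - 1) * q + (q + (2 ^ a - 1) * σ) * (2 ^ w2 - 1)))) := by
  have hj2 : j1 ≤ 2 := by
    rcases hj with ⟨h, _⟩ | ⟨h, _⟩ <;> omega
  have hp : (1 + a + (w2 - j1) - 1) + j1 = a + w2 := by omega
  obtain ⟨m1, m2⟩ := main_term (s := j1) (p := 1 + a + (w2 - j1) - 1) (i := 1) hF ha (by omega) hj2
    hp (by norm_num) hb hq1 hq2 hσ1 hσ2
  have hwin : 2 ^ b * 2 ^ (a + w2 + E - 6) = 2 ^ (F - 6) := by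
    rw [← pow_add]; congr 1; omega
  rw [hF, hwin]
  have hF6 : 64 * 2 ^ (F - 6) = 2 ^ F := by
    obtain ⟨F', rfl⟩ : ∃ F', F = F' + 6 := ⟨F - 6, by omega⟩
    rw [Nat.add_sub_cancel, pow_add]; ring
  have hbF : 1024 * 2 ^ b ≤ 2 ^ F := by
    obtain ⟨F', rfl⟩ : ∃ F', F = b + 10 + F' := ⟨F - b - 10, by omega⟩
    rw [pow_add, pow_add]
    have : 1 ≤ 2 ^ F' := Nat.one_le_two_pow
    nlinarith [Nat.zero_le (2 ^ b)]
  have hT : 0 < 2 ^ F := by positivity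
  have hR1 := Nat.div_mul_le_self (64 * Y) (2 ^ F)
  have hR2 := Nat.lt_mul_div_succ (64 * Y) hT
  generalize (2 ^ 1 - 1) * q + 2 ^ b * (2 ^ (1 + a + (w2 - j1) - 1) * q +
    (q + (2 ^ a - 1) * σ) * (2 ^ w2 - 1)) = X at *
  clear hwin hp
  generalize 64 * Y / 2 ^ F = R at *
  generalize 2 ^ (F - 6) = F6 at *
  generalize 2 ^ F = T at *
  generalize 2 ^ b = B at *
  rcases hj with ⟨rfl, h1, h2, h3⟩ | ⟨rfl, h1, h2, h3⟩
  · have g1 : 176 ≤ R := by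
      by_contra hc
      have : (R + 1) ≤ 176 := by omega
      have := Nat.mul_le_mul_left T this
      omega
    have g2 : R ≤ 239 := by
      by_contra hc
      have : 240 ≤ R := by omega
      have := Nat.mul_le_mul_right T this
      omega
    have g3 : θ + 164 ≤ R := by omega
    have g4 : R ≤ θ + 177 := by omega
    norm_num at m1 m2 ⊢
    have k1 := Nat.mul_le_mul_right T g3
    have k2 := Nat.mul_le_mul_right T g4
    constructor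
    · nlinarith
    · nlinarith
  · have g1 : 120 ≤ R := by
      by_contra hc
      have : (R + 1) ≤ 120 := by omega
      have := Nat.mul_le_mul_left T this
      omega
    have g3 : θ + 115 = R := by omega
    norm_num at m1 m2 ⊢
    subst g3
    constructor
    · nlinarith
    · nlinarith

open Classical in
theorem piece : ∃ E0, ∀ E ≥ E0, ∀ F, 4956 * E ≤ 1000 * F → 1000 * F ≤ 4961 * E →
    ∀ (c0 ρ : ℕ) (η : ℝ), 1 ≤ c0 → Odd ρ → ρ < 2 ^ c0 → Lvl c0 ρ E η →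
    ∀ Y, 15 * 2 ^ F ≤ 8 * Y → 4 * Y < 15 * 2 ^ F →
      (((Ico Y (Y + 2 ^ (F - 6))).filter (fun N => N % 2 ^ c0 = ρ ∧ ¬ TV N)).card : ℝ)
        ≤ (η + (1 / 2) ^ (E / 2 ^ 20)) * 2 ^ (F - 6 - c0) := by
  obtain ⟨E1, h1⟩ := par_exists
  obtain ⟨E2, h2⟩ := loss_bound
  refine ⟨max (max E1 E2) (2 ^ 30), fun E hE F hEF hFE c0 ρ η hc0 hρ hρ2 hL Y hY1 hY2 => ?_⟩
  obtain ⟨hE12, hE4⟩ := max_le_iff.mp hE
  obtain ⟨hE1, hE2⟩ := max_le_iff.mp hE12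
  clear hE hE12
  obtain ⟨bp, qh, sh, Ex, hbp, hbp4, hEx, hExc, hgood⟩ := hL
  have hE5 : 1000000000 ≤ E := le_trans (by norm_num) hE4
  have hk2 : bb E + kap E + 5 = E := bb_add_kap (by omega)
  have hk3 : kap E ≤ E / 100000 := Nat.div_le_div_left (by norm_num) (by norm_num)
  -- the choice of the shift and of the position
  obtain ⟨j1, θ, hj, hθ1, hθ2⟩ : ∃ j1 θ, ((j1 = 1 ∧ 11 * 2 ^ F ≤ 4 * Y ∧ 4 * Y < 15 * 2 ^ F ∧
      θ = min 62 (64 * Y / 2 ^ F - 164)) ∨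
      (j1 = 2 ∧ 15 * 2 ^ F ≤ 8 * Y ∧ 4 * Y < 11 * 2 ^ F ∧ θ = 64 * Y / 2 ^ F - 115)) ∧
      1 ≤ θ ∧ θ ≤ 62 := by
    have hT : 0 < 2 ^ F := by positivity
    rcases le_or_gt (11 * 2 ^ F) (4 * Y) with h | h
    · refine ⟨1, _, Or.inl ⟨rfl, h, hY2, rfl⟩, ?_, min_le_left _ _⟩
      have : 176 ≤ 64 * Y / 2 ^ F := by
        rw [Nat.le_div_iff_mul_le hT]; omega
      omega
    · refine ⟨2, _, Or.inr ⟨rfl, hY1, h, rfl⟩, ?_, ?_⟩
      · have : 120 ≤ 64 * Y / 2 ^ F := by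
          rw [Nat.le_div_iff_mul_le hT]; omega
        omega
      · have : 64 * Y / 2 ^ F < 176 := by
          rw [Nat.div_lt_iff_lt_mul hT]; omega
        omega
  have hj1 : 1 ≤ j1 ∧ j1 ≤ 3 := by
    rcases hj with ⟨h, _⟩ | ⟨h, _⟩ <;> omega
  obtain ⟨e, a, w2, hP, hF, ha, hw⟩ := h1 E hE1 F hEF hFE bp j1 6 (by omega) hbp4
    hj1.1 hj1.2 (by omega) (by omega)
  have hloss := h2 E hE2
  have hr : ∀ q σ, 3 * 2 ^ E ≤ q → q < 3 * 2 ^ E + 2 ^ (E - 5) → 2 ^ E ≤ σ →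
      1024 * σ ≤ 1025 * 2 ^ E → _ :=
    fun q σ g1 g2 g3 g4 => piece_range (Y := Y) (θ := θ) hF
      (by omega) hw (by omega) hj g1 g2 g3 g4
  have hlf := level_fail hc0 hρ hbp hgood hP (θ := θ) (i := 1) (Y := Y) hθ1 hθ2
    (fun q σ g1 g2 g3 g4 => (hr q σ g1 g2 g3 g4).1)
    (fun q σ g1 g2 g3 g4 => (hr q σ g1 g2 g3 g4).2)
  clear h1 h2 hr
  set b := bb E with hb
  have hwin : 2 ^ b * 2 ^ (a + w2 + E - 6) = 2 ^ (F - 6) := by
    rw [← pow_add]; congr 1; omega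
  -- the exceptional residues
  have hw1 := card_window b Y (2 ^ (a + w2 + E - 6)) Ex (fun N => N % 2 ^ b ∈ Ex)
    (fun N _ _ h => h)
  have hcov : (Ico Y (Y + 2 ^ (F - 6))).filter (fun N => N % 2 ^ c0 = ρ ∧ ¬ TV N) ⊆
      (Ico Y (Y + 2 ^ b * 2 ^ (a + w2 + E - 6))).filter (fun N => N % 2 ^ b ∈ Ex) ∪
      (Ico Y (Y + 2 ^ b * 2 ^ (a + w2 + E - 6))).filter (fun N => ∃ x < 2 ^ b,
        x % 2 ^ c0 = ρ ∧ x ∉ Ex ∧ N % 2 ^ b = ((2 ^ 1 - 1) * x) % 2 ^ b ∧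
        ¬ RepN (qh x) (sh (x % 2 ^ bp)) a b (w2 - j1) w2 1 N) := by
    intro N hN
    rw [mem_filter] at hN
    obtain ⟨g1, g2, g3⟩ := hN
    rw [mem_union, mem_filter, mem_filter, hwin]
    by_cases hx : N % 2 ^ b ∈ Ex
    · exact Or.inl ⟨g1, hx⟩
    · refine Or.inr ⟨g1, N % 2 ^ b, Nat.mod_lt _ (by positivity), ?_, hx, ?_, ?_⟩
      · rw [Nat.mod_mod_of_dvd _ (pow_dvd_pow 2 (show c0 ≤ b by omega))]
        exact g2
      · norm_num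
      · intro hrep
        apply g3
        have hg := hgood (N % 2 ^ b) (Nat.mod_lt _ (by positivity)) (by
          rw [Nat.mod_mod_of_dvd _ (pow_dvd_pow 2 (show c0 ≤ b by omega))]
          exact g2) hx
        exact ⟨_, hrep.prof hg.1.prof (by omega) (by omega)⟩
  have hcard := (card_le_card hcov).trans (card_union_le _ _)
  calc (((Ico Y (Y + 2 ^ (F - 6))).filter (fun N => N % 2 ^ c0 = ρ ∧ ¬ TV N)).card : ℝ)
      ≤ (((Ico Y (Y + 2 ^ b * 2 ^ (a + w2 + E - 6))).filter (fun N => N % 2 ^ b ∈ Ex)).card : ℝ) +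
      (((Ico Y (Y + 2 ^ b * 2 ^ (a + w2 + E - 6))).filter (fun N => ∃ x < 2 ^ b,
        x % 2 ^ c0 = ρ ∧ x ∉ Ex ∧ N % 2 ^ b = ((2 ^ 1 - 1) * x) % 2 ^ b ∧
        ¬ RepN (qh x) (sh (x % 2 ^ bp)) a b (w2 - j1) w2 1 N)).card : ℝ) := by
        exact_mod_cast hcard
    _ ≤ ((Ex.card * 2 ^ (a + w2 + E - 6) : ℕ) : ℝ) +
        2 ^ kap E * 2 ^ (b - c0) * 2 ^ (a + w2 + E - 6)
        * (2 ^ (6 + 3) * (999 / 1000) ^ (b / 768)) :=
        add_le_add (by exact_mod_cast hw1) hlf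
    _ ≤ η * 2 ^ (F - 6 - c0) + (1 / 2) ^ (E / 2 ^ 20) * 2 ^ (F - 6 - c0) := by
        have e0 : (2:ℝ) ^ (b - c0) * 2 ^ (a + w2 + E - 6) = 2 ^ (F - 6 - c0) := by
          rw [← pow_add]; congr 1; omega
        refine add_le_add ?_ ?_
        · calc ((Ex.card * 2 ^ (a + w2 + E - 6) : ℕ) : ℝ)
              = (Ex.card : ℝ) * 2 ^ (a + w2 + E - 6) := by push_cast; ring
            _ ≤ η * 2 ^ (b - c0) * 2 ^ (a + w2 + E - 6) :=
              mul_le_mul_of_nonneg_right hExc (by positivity)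
            _ = η * 2 ^ (F - 6 - c0) := by rw [mul_assoc, e0]
        · calc (2:ℝ) ^ kap E * 2 ^ (b - c0) * 2 ^ (a + w2 + E - 6)
                * (2 ^ (6 + 3) * (999 / 1000) ^ (b / 768))
              = (2 ^ (b - c0) * 2 ^ (a + w2 + E - 6)) *
                (2 ^ kap E * 2 ^ (6 + 3) * (999 / 1000) ^ (b / 768)) := by ring
            _ = 2 ^ (F - 6 - c0) * (2 ^ (kap E + 9) * (999 / 1000) ^ (b / 768)) := by
                rw [e0, pow_add 2 (kap E) 9]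
            _ ≤ 2 ^ (F - 6 - c0) * (2 ^ (12 * kap E + 40) * (999 / 1000) ^ (b / 768)) := by
                apply mul_le_mul_of_nonneg_left _ (by positivity)
                apply mul_le_mul_of_nonneg_right _ (by positivity)
                exact pow_le_pow_right₀ (by norm_num) (by omega)
            _ ≤ 2 ^ (F - 6 - c0) * (1 / 2) ^ (E / 2 ^ 20) :=
                mul_le_mul_of_nonneg_left hloss (by positivity)
            _ = _ := by ring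
    _ = (η + (1 / 2) ^ (E / 2 ^ 20)) * 2 ^ (F - 6 - c0) := by ring

end Pool.Agent.CC603
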