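import Pool.Agent.CC603.Step
import Pool.Agent.CC603.Base
import Pool.Agent.CC603.Growth
import Pool.Agent.CC603.Piece

/-!
All classes at all large scales, and the count of exceptions in a window.
-/

namespace Pool.Agent.CC603

open Finset

lemma Lvl.mono {c0 ρ E : ℕ} {η η' : ℝ} (h : Lvl c0 ρ E η) (hη : η ≤ η') : Lvl c0 ρ E η' := by
  obtain ⟨bp, qh, sh, Ex, h1, h2, h3, h4, h5⟩ := h
  exact ⟨bp, qh, sh, Ex, h1, h2, h3, le_trans h4 (mul_le_mul_of_nonneg_right hη (by positivity)),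
    h5⟩

/-- growth with an explicit threshold -/
theorem growth' (S : Nat → Prop) (E0 : Nat) (h : ∀ E ≥ E0, S E → ∀ E', 4956 * E ≤ 1000 * E' →
    1000 * E' ≤ 4961 * E → S E') (E2 : Nat) (hE0 : E0 ≤ E2) (hE : 2000 ≤ E2) (hS : S E2) :
    ∃ E3, ∀ E' ≥ E3, S E' := by
  obtain ⟨k, hk⟩ := exists_pow_ratio
  obtain ⟨a, b, h1, h2, h3, h4, h5⟩ := growth_iter S E0 h E2 hE0 hE hS k
  have h6 : 5 * (a + 1) ≤ b - 1 := by
    have e1 : 10 * 4956 ^ k * (E2 - 1) * (a + 1) ≤ 4956 ^ k * (E2 + 1) * (b - 1) :=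
      (Nat.mul_le_mul_right _ (Nat.mul_le_mul_right _ hk)).trans h5
    have e2 : 4956 ^ k * (10 * (E2 - 1) * (a + 1)) ≤ 4956 ^ k * ((E2 + 1) * (b - 1)) := by
      calc _ = 10 * 4956 ^ k * (E2 - 1) * (a + 1) := by ring
        _ ≤ _ := e1
        _ = _ := by ring
    have e3 := Nat.le_of_mul_le_mul_left e2 (by positivity)
    have e4 : (E2 + 1) * (5 * (a + 1)) ≤ (E2 + 1) * (b - 1) := by
      calc (E2 + 1) * (5 * (a + 1)) = 5 * (E2 + 1) * (a + 1) := by ring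
        _ ≤ 10 * (E2 - 1) * (a + 1) := Nat.mul_le_mul_right _ (by omega)
        _ ≤ _ := e3
    exact Nat.le_of_mul_le_mul_left e4 (by omega)
  refine ⟨a, fun E' => ?_⟩
  induction E' using Nat.strong_induction_on with
  | _ E' ih =>
    intro hE'
    rcases Nat.lt_or_ge b E' with h7 | h7
    · refine h (1000 * E' / 4956) ?_ (ih _ ?_ ?_) E' ?_ ?_ <;> omega
    · exact h4 E' hE' h7

/-- the class `τ` is good at all large scales, with loss `A` -/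
def Good (c0 τ : ℕ) (A : ℝ) : Prop := ∃ E3, ∀ E ≥ E3, Lvl c0 τ E A

lemma good_start (ε : ℝ) (hε : 0 < ε) : ∃ c0 ρ, 3 ≤ c0 ∧ Odd ρ ∧ ρ < 2 ^ c0 ∧ Good c0 ρ ε := by
  obtain ⟨E0, hstep⟩ := lvl_step
  obtain ⟨k, hk⟩ := exists_pow_lt_of_lt_one (show 0 < ε / 8 by positivity)
    (show (1 / 2 : ℝ) < 1 by norm_num)
  obtain ⟨c0, ρ, E2, hc0, hρ, hρ2, hE2, hL⟩ := base (ε / 2) (by positivity)
    (E0 + 2 ^ 21 + k * 2 ^ 20)
  refine ⟨c0, ρ, hc0, hρ, hρ2, ?_⟩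
  have hmod : ((2 ^ 1 - 1) * ρ) % 2 ^ c0 = ρ := by
    norm_num
    exact Nat.mod_eq_of_lt hρ2
  obtain ⟨E3, hE3⟩ := growth' (fun E => Lvl c0 ρ E (ε - 4 * (1 / 2) ^ (E / 2 ^ 20)))
    (E0 + 2 ^ 21) (by
      intro E hE hS F h1 h2
      have h3 := hstep E (by omega) F h1 h2 c0 ρ 1 _ (by omega) hρ hρ2 le_rfl (by norm_num) hS
      rw [hmod] at h3
      apply h3.mono
      have h4 : ((1:ℝ) / 2) ^ (F / 2 ^ 20) ≤ (1 / 2) ^ (E / 2 ^ 20 + 1) := by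
        apply pow_le_pow_of_le_one (by norm_num) (by norm_num)
        omega
      rw [pow_succ (1 / 2 : ℝ) (E / 2 ^ 20)] at h4
      have h5 : (0:ℝ) ≤ (1 / 2) ^ (E / 2 ^ 20) := by positivity
      linarith) E2 (by omega) (by omega) (by
      apply hL.mono
      have h5 : ((1:ℝ) / 2) ^ (E2 / 2 ^ 20) ≤ (1 / 2) ^ k := by
        apply pow_le_pow_of_le_one (by norm_num) (by norm_num)
        rw [Nat.le_div_iff_mul_le (by positivity)]
        omega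
      linarith)
  refine ⟨E3, fun E hE => (hE3 E hE).mono ?_⟩
  have : (0:ℝ) ≤ (1 / 2) ^ (E / 2 ^ 20) := by positivity
  linarith

lemma good_mul {c0 τ i : ℕ} {A δ : ℝ} (hc0 : 1 ≤ c0) (hτ : Odd τ) (hτ2 : τ < 2 ^ c0)
    (hi : 1 ≤ i) (hi3 : i ≤ 3) (hδ : 0 < δ) (h : Good c0 τ A) :
    Good c0 (((2 ^ i - 1) * τ) % 2 ^ c0) (A + δ) := by
  obtain ⟨E0, hstep⟩ := lvl_step
  obtain ⟨E3, h3⟩ := h
  obtain ⟨k, hk⟩ := exists_pow_lt_of_lt_one hδ (show (1 / 2 : ℝ) < 1 by norm_num)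
  refine ⟨5 * (E0 + E3 + 1000 + k * 2 ^ 20), fun F hF => ?_⟩
  obtain ⟨E, hE1, hE2⟩ : ∃ E, 4956 * E ≤ 1000 * F ∧ 1000 * F ≤ 4961 * E :=
    ⟨1000 * F / 4956, by omega, by omega⟩
  have h4 := hstep E (by omega) F hE1 hE2 c0 τ i A hc0 hτ hτ2 hi hi3 (h3 E (by omega))
  apply h4.mono
  have h5 : ((1:ℝ) / 2) ^ (E / 2 ^ 20) ≤ (1 / 2) ^ k := by
    apply pow_le_pow_of_le_one (by norm_num) (by norm_num)
    rw [Nat.le_div_iff_mul_le (by positivity)]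
    omega
  linarith

lemma good_pow {c0 ρ d n : ℕ} {A δ : ℝ} (hc0 : 1 ≤ c0) (hρ : Odd ρ) (hρ2 : ρ < 2 ^ c0)
    (hd : d = 3 ∨ d = 7) (hδ : 0 < δ) (h : Good c0 ρ A) :
    Good c0 ((d ^ n * ρ) % 2 ^ c0) (A + n * δ) := by
  induction n with
  | zero =>
    simp only [pow_zero, one_mul, Nat.cast_zero, zero_mul, add_zero]
    rwa [Nat.mod_eq_of_lt hρ2]
  | succ n ih =>
    have hdodd : Odd d := by rcases hd with rfl | rfl <;> decide
    have ho : Odd ((d ^ n * ρ) % 2 ^ c0) := by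
      have h1 : Odd (d ^ n * ρ) := (hdodd.pow).mul hρ
      rw [Nat.odd_iff] at h1 ⊢
      rw [Nat.mod_mod_of_dvd _ (dvd_pow_self 2 (by omega))]
      exact h1
    obtain ⟨i, hi1, hi3, hi⟩ : ∃ i, 1 ≤ i ∧ i ≤ 3 ∧ 2 ^ i - 1 = d := by
      rcases hd with rfl | rfl
      · exact ⟨2, by norm_num, by norm_num, by norm_num⟩
      · exact ⟨3, by norm_num, by norm_num, by norm_num⟩
    have h2 := good_mul hc0 ho (Nat.mod_lt _ (by positivity)) hi1 hi3 hδ ih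
    rw [hi, Nat.mul_mod_mod] at h2
    have e1 : d * (d ^ n * ρ) = d ^ (n + 1) * ρ := by ring
    have e2 : A + n * δ + δ = A + ((n + 1 : ℕ) : ℝ) * δ := by push_cast; ring
    rwa [e1, e2] at h2

lemma good_all (ε : ℝ) (hε : 0 < ε) : ∃ c0, 3 ≤ c0 ∧ ∃ E3, ∀ τ, Odd τ → τ < 2 ^ c0 →
    ∀ E ≥ E3, Lvl c0 τ E ε := by
  obtain ⟨c0, ρ, hc0, hρ, hρ2, hG⟩ := good_start (ε / 2) (by positivity)
  refine ⟨c0, hc0, ?_⟩
  have key : ∀ τ, Odd τ → τ < 2 ^ c0 → Good c0 τ ε := by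
    intro τ hτ hτ2
    obtain ⟨i, j, hij⟩ := units_gen c0 ρ τ hc0 hρ hτ
    have h1 := good_pow (n := j) (δ := ε / (4 * (j + 1))) (by omega) hρ hρ2
      (Or.inr rfl : (7:ℕ) = 3 ∨ (7:ℕ) = 7) (by positivity) hG
    have ho : Odd ((7 ^ j * ρ) % 2 ^ c0) := by
      have h1 : Odd (7 ^ j * ρ) := (Odd.pow (by decide)).mul hρ
      rw [Nat.odd_iff] at h1 ⊢
      rw [Nat.mod_mod_of_dvd _ (dvd_pow_self 2 (by omega))]
      exact h1
    have h2 := good_pow (n := i) (δ := ε / (4 * (i + 1))) (by omega) ho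
      (Nat.mod_lt _ (by positivity)) (Or.inl rfl : (3:ℕ) = 3 ∨ (3:ℕ) = 7) (by positivity) h1
    rw [Nat.mul_mod_mod, ← mul_assoc, hij, Nat.mod_eq_of_lt hτ2] at h2
    obtain ⟨E3, h3⟩ := h2
    refine ⟨E3, fun E hE => (h3 E hE).mono ?_⟩
    have b1 : ∀ n : ℕ, (n : ℝ) * (ε / (4 * (n + 1))) ≤ ε / 4 := by
      intro n
      rw [mul_div_assoc', div_le_div_iff₀ (by positivity) (by norm_num)]
      have : (0:ℝ) ≤ n := Nat.cast_nonneg n
      nlinarith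
    have := b1 i
    have := b1 j
    linarith
  choose! T hT using key
  refine ⟨(range (2 ^ c0)).sup T, fun τ hτ hτ2 E hE => hT τ hτ hτ2 E ?_⟩
  exact le_trans (le_sup (f := T) (mem_range.mpr hτ2)) hE

open Classical in
theorem assembly : ∀ ε : ℝ, 0 < ε → ∃ F0, ∀ F ≥ F0, ∀ Y, 15 * 2 ^ F ≤ 8 * Y →
    4 * Y < 15 * 2 ^ F →
      (((Finset.Ico Y (Y + 2 ^ (F - 6))).filter (fun N => Odd N ∧ ¬ TV N)).card : ℝ)
        ≤ ε * 2 ^ (F - 6) := by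
  intro ε hε
  obtain ⟨c0, hc0, E3, hE3⟩ := good_all (ε / 2) (by positivity)
  obtain ⟨E0, hp⟩ := piece
  obtain ⟨k, hk⟩ := exists_pow_lt_of_lt_one (show 0 < ε / 2 by positivity)
    (show (1 / 2 : ℝ) < 1 by norm_num)
  refine ⟨5 * (E0 + E3 + c0 + 1000 + k * 2 ^ 20), fun F hF Y hY1 hY2 => ?_⟩
  obtain ⟨E, hE1, hE2⟩ : ∃ E, 4956 * E ≤ 1000 * F ∧ 1000 * F ≤ 4961 * E :=
    ⟨1000 * F / 4956, by omega, by omega⟩
  have h5 : ((1:ℝ) / 2) ^ (E / 2 ^ 20) ≤ (1 / 2) ^ k := by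
    apply pow_le_pow_of_le_one (by norm_num) (by norm_num)
    rw [Nat.le_div_iff_mul_le (by positivity)]
    omega
  have hone : ∀ ρ ∈ (range (2 ^ c0)).filter (fun ρ => Odd ρ),
      (((Ico Y (Y + 2 ^ (F - 6))).filter (fun N => N % 2 ^ c0 = ρ ∧ ¬ TV N)).card : ℝ)
        ≤ ε * 2 ^ (F - 6 - c0) := by
    intro ρ hρ
    rw [mem_filter, mem_range] at hρ
    refine le_trans (hp E (by omega) F hE1 hE2 c0 ρ (ε / 2) (by omega) hρ.2 hρ.1
      (hE3 ρ hρ.2 hρ.1 E (by omega)) Y hY1 hY2) ?_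
    apply mul_le_mul_of_nonneg_right _ (by positivity)
    linarith
  have hsub : (Ico Y (Y + 2 ^ (F - 6))).filter (fun N => Odd N ∧ ¬ TV N) ⊆
      ((range (2 ^ c0)).filter (fun ρ => Odd ρ)).biUnion (fun ρ =>
        (Ico Y (Y + 2 ^ (F - 6))).filter (fun N => N % 2 ^ c0 = ρ ∧ ¬ TV N)) := by
    intro N hN
    rw [mem_filter] at hN
    rw [mem_biUnion]
    refine ⟨N % 2 ^ c0, ?_, ?_⟩
    · rw [mem_filter, mem_range]
      refine ⟨Nat.mod_lt _ (by positivity), ?_⟩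
      have h1 := hN.2.1
      rw [Nat.odd_iff] at h1 ⊢
      rw [Nat.mod_mod_of_dvd _ (dvd_pow_self 2 (by omega))]
      exact h1
    · rw [mem_filter]
      exact ⟨hN.1, rfl, hN.2.2⟩
  calc (((Finset.Ico Y (Y + 2 ^ (F - 6))).filter (fun N => Odd N ∧ ¬ TV N)).card : ℝ)
      ≤ ((∑ ρ ∈ (range (2 ^ c0)).filter (fun ρ => Odd ρ),
        ((Ico Y (Y + 2 ^ (F - 6))).filter (fun N => N % 2 ^ c0 = ρ ∧ ¬ TV N)).card : ℕ) : ℝ) := by
        exact_mod_cast le_trans (card_le_card hsub) card_biUnion_le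
    _ = ∑ ρ ∈ (range (2 ^ c0)).filter (fun ρ => Odd ρ),
        (((Ico Y (Y + 2 ^ (F - 6))).filter (fun N => N % 2 ^ c0 = ρ ∧ ¬ TV N)).card : ℝ) := by
        push_cast; rfl
    _ ≤ ((range (2 ^ c0)).filter (fun ρ => Odd ρ)).card • (ε * 2 ^ (F - 6 - c0)) :=
        sum_le_card_nsmul _ _ _ hone
    _ ≤ (2 ^ c0 : ℕ) • (ε * 2 ^ (F - 6 - c0)) := by
        apply nsmul_le_nsmul_left (by positivity)
        exact le_trans (card_filter_le _ _) (card_range _).le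
    _ = ε * 2 ^ (F - 6) := by
        rw [nsmul_eq_mul]
        push_cast
        have e1 : (2:ℝ) ^ (F - 6) = 2 ^ c0 * 2 ^ (F - 6 - c0) := by
          rw [← pow_add]; congr 1; omega
        rw [e1]; ring

end Pool.Agent.CC603
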