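import Mathlib

/-!
Basic definitions for MP_603bb3_co (chain counts of posets of width two).
-/

namespace Pool.Agent.CC603

/-- the number of ones in the binary expansion -/
def pc (n : ℕ) : ℕ := (Nat.digits 2 n).sum

/-- `n` is the number of nonempty chains of a finite poset of width exactly two -/
def IsChainCount (n : ℕ) : Prop :=
  ∃ (α : Type) (_ : Finite α) (_ : PartialOrder α),
    (∃ a b : α, ¬ a ≤ b ∧ ¬ b ≤ a) ∧
    (∀ a b c : α, ¬ (¬ a ≤ b ∧ ¬ b ≤ a ∧ ¬ a ≤ c ∧ ¬ c ≤ a ∧ ¬ b ≤ c ∧ ¬ c ≤ b)) ∧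
    Nat.card {s : Set α // s.Nonempty ∧ IsChain (· ≤ ·) s} = n

/-- `Prof [t₀, t₁, …, tₖ]`: the numbers of chains (the empty one included) of a finite poset
covered by two chains `C₁, C₂` and of lower sets `D₀ ⊇ D₁ ⊇ …` of it, `D₀` the whole poset,
each containing `C₁`. The rules describe how such data arise. -/
inductive Prof : List ℕ → Prop
  | one : Prof [1]
  | dup (x : ℕ) (l : List ℕ) : Prof (x :: l) → Prof (x :: x :: l)
  | del (x : ℕ) (l₁ : List ℕ) (y : ℕ) (l₂ : List ℕ) :
      Prof (x :: (l₁ ++ y :: l₂)) → Prof (x :: (l₁ ++ l₂))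
  | F (x : ℕ) (l : List ℕ) : Prof (x :: l) → Prof (2 * x :: x :: l)
  | E (l : List ℕ) (y : ℕ) : Prof (l ++ [y]) → Prof (l.map (· + y) ++ [2 * y])

/-- `x` is the number of all chains of some poset in our class -/
def TV (x : ℕ) : Prop := ∃ l, Prof (x :: l)

/-- `M` has a digit representation with respect to `(q, σ)` -/
def Rep (q σ a b w1 w2 M : ℕ) : Prop :=
  ∃ g g' : ℕ, 2 ^ a * σ * g + (q + (2 ^ a - 1) * σ) * g' = M ∧
    g < 2 ^ w1 ∧ pc g ≤ a ∧ a ≤ g ∧ g' < 2 ^ w2 ∧ pc g' ≤ b ∧ b ≤ g'

lemma pc_zero : pc 0 = 0 := by simp [pc]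

lemma pc_two_mul (n : ℕ) : pc (2 * n) = pc n := by
  rcases Nat.eq_zero_or_pos n with h | h
  · simp [h]
  · unfold pc
    rw [Nat.digits_def' (by norm_num) (by omega)]
    simp [Nat.mul_mod_right]

lemma pc_two_mul_add_one (n : ℕ) : pc (2 * n + 1) = pc n + 1 := by
  unfold pc
  rw [Nat.digits_def' (by norm_num) (by omega)]
  have h1 : (2 * n + 1) % 2 = 1 := by omega
  have h2 : (2 * n + 1) / 2 = n := by omega
  rw [h1, h2]
  simp [add_comm]

/-- splitting off the low bits -/
lemma pc_add_mul (k : ℕ) : ∀ (x y : ℕ), x < 2 ^ k → pc (x + 2 ^ k * y) = pc x + pc y := by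
  induction k with
  | zero => intro x y hx; have : x = 0 := by simpa using hx
            subst this; simp [pc_zero]
  | succ k ih =>
    intro x y hx
    rcases Nat.even_or_odd' x with ⟨z, rfl | rfl⟩
    · have hz : z < 2 ^ k := by rw [pow_succ] at hx; omega
      have : 2 * z + 2 ^ (k + 1) * y = 2 * (z + 2 ^ k * y) := by ring
      rw [this, pc_two_mul, pc_two_mul, ih z y hz]
    · have hz : z < 2 ^ k := by rw [pow_succ] at hx; omega
      have : 2 * z + 1 + 2 ^ (k + 1) * y = 2 * (z + 2 ^ k * y) + 1 := by ring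
      rw [this, pc_two_mul_add_one, pc_two_mul_add_one, ih z y hz]
      ring

lemma pc_lt_pow (k : ℕ) : ∀ x, x < 2 ^ k → pc x ≤ k := by
  induction k with
  | zero => intro x hx; have : x = 0 := by simpa using hx
            subst this; simp [pc_zero]
  | succ k ih =>
    intro x hx
    rcases Nat.even_or_odd' x with ⟨z, rfl | rfl⟩
    · have hz : z < 2 ^ k := by rw [pow_succ] at hx; omega
      rw [pc_two_mul]; have := ih z hz; omega
    · have hz : z < 2 ^ k := by rw [pow_succ] at hx; omega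
      rw [pc_two_mul_add_one]; have := ih z hz; omega

lemma pc_le_self (x : ℕ) : pc x ≤ x := by
  induction x using Nat.strong_induction_on with
  | _ x ih =>
    rcases Nat.even_or_odd' x with ⟨z, rfl | rfl⟩
    · rcases Nat.eq_zero_or_pos z with h | h
      · subst h; simp [pc_zero]
      · rw [pc_two_mul]; have := ih z (by omega); omega
    · rw [pc_two_mul_add_one]
      rcases Nat.eq_zero_or_pos z with h | h
      · subst h; simp [pc_zero]
      · have := ih z (by omega); omega

end Pool.Agent.CC603
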