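import Pool.Agent.CC603.Basic

/-!
Counting integers below a power of two by the number of their binary digits one.
-/

namespace Pool.Agent.CC603

namespace CountAux

lemma sum_range_two_mul {M : Type*} [AddCommMonoid M] (g : ℕ → M) (n : ℕ) :
    ∑ x ∈ Finset.range (2 * n), g x = ∑ x ∈ Finset.range n, (g (2 * x) + g (2 * x + 1)) := by
  induction n with
  | zero => simp
  | succ n ih =>
    rw [Finset.sum_range_succ, ← ih, show 2 * (n + 1) = 2 * n + 1 + 1 by ring,
      Finset.sum_range_succ, Finset.sum_range_succ, add_assoc]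

lemma sum_pow_pc (z : ℝ) (k : ℕ) :
    ∑ x ∈ Finset.range (2 ^ k), z ^ pc x = (1 + z) ^ k := by
  induction k with
  | zero => simp [pc_zero]
  | succ k ih =>
    rw [pow_succ, mul_comm (2 ^ k) 2, sum_range_two_mul, pow_succ, ← ih, Finset.sum_mul]
    refine Finset.sum_congr rfl fun x _ => ?_
    rw [pc_two_mul, pc_two_mul_add_one, pow_succ]
    ring

lemma card_pc_eq (n : ℕ) : ∀ j, ∑ x ∈ Finset.range (2 ^ n), (if pc x = j then 1 else 0) = n.choose j := by
  induction n with
  | zero =>
    intro j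
    rw [pow_zero, Finset.sum_range_one, pc_zero]
    cases j with
    | zero => simp
    | succ j => simp
  | succ n ih =>
    intro j
    rw [pow_succ, mul_comm (2 ^ n) 2, sum_range_two_mul, Finset.sum_add_distrib]
    simp only [pc_two_mul, pc_two_mul_add_one]
    cases j with
    | zero =>
      rw [ih 0]
      simp
    | succ j =>
      simp only [Nat.add_right_cancel_iff]
      rw [ih (j + 1), ih j, Nat.choose_succ_succ, add_comm]

lemma choose_step (n j : ℕ) (hj : j < n) (h : 7 * n ≤ 15 * j + 8) :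
    7 * n.choose (j + 1) ≤ 8 * n.choose j := by
  have h1 := Nat.choose_succ_right_eq n j
  -- n.choose (j+1) * (j+1) = n.choose j * (n - j)
  have h2 : 7 * (n - j) ≤ 8 * (j + 1) := by omega
  have h3 : (7 * n.choose (j + 1)) * (j + 1) ≤ (8 * n.choose j) * (j + 1) := by
    calc (7 * n.choose (j + 1)) * (j + 1) = 7 * (n.choose (j + 1) * (j + 1)) := by ring
      _ = 7 * (n.choose j * (n - j)) := by rw [h1]
      _ = n.choose j * (7 * (n - j)) := by ring
      _ ≤ n.choose j * (8 * (j + 1)) := Nat.mul_le_mul_left _ h2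
      _ = (8 * n.choose j) * (j + 1) := by ring
  exact Nat.le_of_mul_le_mul_right h3 (Nat.succ_pos j)

lemma choose_down (n a : ℕ) (ha : 7 * (n + 1) ≤ 15 * a) : ∀ D, a + D ≤ n / 2 →
    7 ^ D * n.choose (a + D) ≤ 8 ^ D * n.choose a := by
  intro D
  induction D with
  | zero => intro _; simp
  | succ D ih =>
    intro hD
    have h1 := ih (by omega)
    have h2 := choose_step n (a + D) (by omega) (by omega)
    calc 7 ^ (D + 1) * n.choose (a + (D + 1)) = 7 ^ D * (7 * n.choose (a + D + 1)) := by
          rw [pow_succ, show a + (D + 1) = a + D + 1 by ring]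
          ring
      _ ≤ 7 ^ D * (8 * n.choose (a + D)) := Nat.mul_le_mul_left _ h2
      _ = 8 * (7 ^ D * n.choose (a + D)) := by ring
      _ ≤ 8 * (8 ^ D * n.choose a) := Nat.mul_le_mul_left _ h1
      _ = 8 ^ (D + 1) * n.choose a := by rw [pow_succ]; ring

lemma middle (n : ℕ) : 2 ^ n ≤ (n + 1) * n.choose (n / 2) := by
  rw [← Nat.sum_range_choose]
  refine (Finset.sum_le_card_nsmul _ _ (n.choose (n / 2)) fun m _ => Nat.choose_le_middle m n).trans ?_
  rw [Finset.card_range, smul_eq_mul]

end CountAux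

open CountAux

/-- few integers have many binary digits one -/
theorem chernoff (m k : ℕ) (hk : k ≤ 1536 * m) :
    (((Finset.range (2 ^ k)).filter (fun x => k + 2 * m ≤ 2 * pc x)).card : ℝ) ≤
      2 ^ k * (999 / 1000) ^ m := by
  set y : ℝ := 769 / 768 with hy
  have hy1 : 1 ≤ y := by rw [hy]; norm_num
  have hy0 : 0 < y := by linarith
  have h1 : (((Finset.range (2 ^ k)).filter (fun x => k + 2 * m ≤ 2 * pc x)).card : ℝ) *
      y ^ (k + 2 * m) ≤ (1 + y ^ 2) ^ k := by
    rw [← sum_pow_pc (y ^ 2) k, ← nsmul_eq_mul, ← Finset.sum_const]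
    refine (Finset.sum_le_sum fun x hx => ?_).trans
      (Finset.sum_le_sum_of_subset_of_nonneg (Finset.filter_subset _ _) fun x _ _ => by positivity)
    rw [← pow_mul]
    exact pow_le_pow_right₀ hy1 (Finset.mem_filter.1 hx).2
  have h2 : (1 + y ^ 2) ^ k ≤ 2 ^ k * y ^ k * y ^ m := by
    have e1 : 1 + y ^ 2 = 2 * y * (1 + 1 / 1181184) := by rw [hy]; norm_num
    have e2 : (1 + 1 / 1181184 : ℝ) ^ k ≤ y ^ m := by
      have e3 : (1 + 1 / 1181184 : ℝ) ≤ Real.exp (1 / 1181184) := by
        have := Real.add_one_le_exp (1 / 1181184 : ℝ)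
        linarith
      calc (1 + 1 / 1181184 : ℝ) ^ k ≤ (1 + 1 / 1181184 : ℝ) ^ (1536 * m) :=
            pow_le_pow_right₀ (by norm_num) hk
        _ = ((1 + 1 / 1181184 : ℝ) ^ 1536) ^ m := by rw [pow_mul]
        _ ≤ y ^ m := by
          refine pow_le_pow_left₀ (by positivity) ?_ m
          calc (1 + 1 / 1181184 : ℝ) ^ 1536 ≤ Real.exp (1 / 1181184) ^ 1536 :=
                pow_le_pow_left₀ (by positivity) e3 _
            _ = Real.exp (1 / 769) := by
              rw [← Real.exp_nat_mul]
              congr 1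
              norm_num
            _ ≤ y := by
              have e4 := Real.one_sub_le_exp_neg (1 / 769 : ℝ)
              rw [Real.exp_neg] at e4
              have e5 : (768 / 769 : ℝ) ≤ (Real.exp (1 / 769))⁻¹ := by
                refine le_trans ?_ e4
                norm_num
              rw [le_inv_comm₀ (by norm_num) (Real.exp_pos _)] at e5
              refine e5.trans (le_of_eq ?_)
              rw [hy]
              norm_num
    rw [e1, mul_pow, mul_pow]
    exact mul_le_mul_of_nonneg_left e2 (by positivity)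
  have h3 : (((Finset.range (2 ^ k)).filter (fun x => k + 2 * m ≤ 2 * pc x)).card : ℝ) * y ^ m ≤
      2 ^ k := by
    have h4 := h1.trans h2
    have e1 : y ^ (k + 2 * m) = y ^ k * (y ^ m * y ^ m) := by
      rw [pow_add, two_mul, pow_add]
    rw [e1] at h4
    have h5 : 0 < y ^ k * y ^ m := by positivity
    refine le_of_mul_le_mul_right ?_ h5
    calc _ = (((Finset.range (2 ^ k)).filter (fun x => k + 2 * m ≤ 2 * pc x)).card : ℝ) *
          (y ^ k * (y ^ m * y ^ m)) := by ring
      _ ≤ 2 ^ k * y ^ k * y ^ m := h4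
      _ = _ := by ring
  have h4 : (1 : ℝ) ≤ (999 / 1000) ^ m * y ^ m := by
    rw [← mul_pow]
    exact one_le_pow₀ (by rw [hy]; norm_num)
  have h5 : 0 < y ^ m := by positivity
  refine le_of_mul_le_mul_right ?_ h5
  calc _ ≤ (2 : ℝ) ^ k := h3
    _ ≤ 2 ^ k * ((999 / 1000) ^ m * y ^ m) := le_mul_of_one_le_right (by positivity) h4
    _ = _ := by ring

/-- many integers have slightly less than half of their binary digits one -/
theorem low_count (n D : ℕ) (hD : D ≤ n / 2) (h : 7 * (n + 1) ≤ 15 * (n / 2 - D)) :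
    2 ^ n * 7 ^ D ≤
      ((Finset.range (2 ^ n)).filter (fun x => pc x ≤ n / 2 - D)).card * ((n + 1) * 8 ^ D) := by
  have h1 : n.choose (n / 2 - D) ≤
      ((Finset.range (2 ^ n)).filter (fun x => pc x ≤ n / 2 - D)).card := by
    rw [← card_pc_eq n (n / 2 - D), ← Finset.card_filter]
    refine Finset.card_le_card fun x hx => ?_
    rw [Finset.mem_filter] at hx ⊢
    exact ⟨hx.1, hx.2.le⟩
  have h2 := choose_down n (n / 2 - D) h D (by omega)
  rw [Nat.sub_add_cancel hD] at h2
  calc 2 ^ n * 7 ^ D ≤ ((n + 1) * n.choose (n / 2)) * 7 ^ D := Nat.mul_le_mul_right _ (middle n)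
    _ = (n + 1) * (7 ^ D * n.choose (n / 2)) := by ring
    _ ≤ (n + 1) * (8 ^ D * n.choose (n / 2 - D)) := Nat.mul_le_mul_left _ h2
    _ = n.choose (n / 2 - D) * ((n + 1) * 8 ^ D) := by ring
    _ ≤ _ := Nat.mul_le_mul_right _ h1

end Pool.Agent.CC603
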