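import Pool.Agent.CC603.Basic

namespace Pool.Agent.CC603

lemma pc_pos {x : ℕ} (hx : 0 < x) : 0 < pc x := by
  induction x using Nat.strong_induction_on with
  | _ x ih =>
    rcases Nat.even_or_odd' x with ⟨z, rfl | rfl⟩
    · rw [pc_two_mul]; exact ih z (by omega) (by omega)
    · rw [pc_two_mul_add_one]; omega

/-- words in two letters and the number they carry -/
inductive Dig : ℕ → ℕ → ℕ → Prop
  | zero : Dig 0 0 0
  | F (a D g : ℕ) : Dig a D g → Dig a (D + 1) g
  | E (a D g : ℕ) : Dig a (D + 1) g → Dig (a + 1) D (g + 2 ^ D)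

lemma dig_of_cond (n : ℕ) : ∀ a D g : ℕ, 2 * a + D = n →
    g / 2 ^ D + pc (g % 2 ^ D) ≤ a → a ≤ g → Dig a D g := by
  induction n using Nat.strong_induction_on with
  | _ n ih =>
    intro a D g hn hc hg
    -- the step with a smaller D
    have key : ∀ D', D = D' + 1 → 2 * (g / 2 ^ D) + pc (g % 2 ^ D) ≤ a → Dig a D g := by
      intro D' hD hle
      subst hD
      apply Dig.F
      apply ih (2 * a + D') (by omega) a D' g rfl _ hg
      have h1 : g / 2 ^ (D' + 1) = g / 2 ^ D' / 2 := by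
        rw [pow_succ, Nat.div_div_eq_div_mul]
      have h2 : g % 2 ^ (D' + 1) = g % 2 ^ D' + 2 ^ D' * (g / 2 ^ D' % 2) := by
        rw [pow_succ, Nat.mod_mul]
      have h3 : pc (g % 2 ^ (D' + 1)) = pc (g % 2 ^ D') + pc (g / 2 ^ D' % 2) := by
        rw [h2]
        exact pc_add_mul D' _ _ (Nat.mod_lt _ (by positivity))
      rcases Nat.mod_two_eq_zero_or_one (g / 2 ^ D') with h4 | h4
      · rw [h4, pc_zero] at h3
        omega
      · have : pc 1 = 1 := by
          have := pc_two_mul_add_one 0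
          simpa [pc_zero] using this
        rw [h4, this] at h3
        omega
    rcases Nat.eq_zero_or_pos a with ha | ha
    · subst ha
      obtain ⟨h1, h2⟩ := Nat.add_eq_zero_iff.mp (Nat.le_zero.mp hc)
      have h3 : g % 2 ^ D = 0 := by
        by_contra h
        have := pc_pos (Nat.pos_of_ne_zero h)
        omega
      have h4 : g = 0 := by
        have := Nat.div_add_mod g (2 ^ D)
        rw [h1, h3] at this
        simpa using this.symm
      subst h4
      rcases D with _ | D'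
      · exact Dig.zero
      · apply key D' rfl
        simp [pc_zero]
    · obtain ⟨a', rfl⟩ : ∃ a', a = a' + 1 := ⟨a - 1, by omega⟩
      have hdm := Nat.div_add_mod g (2 ^ D)
      set h := g / 2 ^ D with hh
      set r := g % 2 ^ D with hr
      have hr' : r < 2 ^ D := Nat.mod_lt _ (by positivity)
      by_cases hE : 1 ≤ h ∧ a' ≤ g - 2 ^ D
      · obtain ⟨hE1, hE2⟩ := hE
        obtain ⟨h', hh'⟩ : ∃ h', h = h' + 1 := ⟨h - 1, by omega⟩
        have hg1 : g = (r + 2 ^ D * h') + 2 ^ D := by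
          rw [← hdm, hh']; ring
        rw [hg1]
        apply Dig.E
        apply ih (2 * a' + (D + 1)) (by omega) a' (D + 1) _ rfl
        · have h1 : (r + 2 ^ D * h') / 2 ^ (D + 1) = h' / 2 := by
            rw [pow_succ, ← Nat.div_div_eq_div_mul, Nat.add_mul_div_left _ _ (by positivity),
              Nat.div_eq_of_lt hr', zero_add]
          have h2 : (r + 2 ^ D * h') % 2 ^ (D + 1) = r + 2 ^ D * (h' % 2) := by
            rw [pow_succ, Nat.mod_mul, Nat.add_mul_mod_self_left, Nat.mod_eq_of_lt hr',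
              Nat.add_mul_div_left _ _ (by positivity), Nat.div_eq_of_lt hr', zero_add]
          rw [h1, h2, pc_add_mul D _ _ hr']
          rcases Nat.mod_two_eq_zero_or_one h' with h4 | h4
          · rw [h4, pc_zero]; omega
          · have : pc 1 = 1 := by
              have := pc_two_mul_add_one 0
              simpa [pc_zero] using this
            rw [h4, this]; omega
        · omega
      · -- the other letter
        rcases D with _ | D'
        · exfalso
          apply hE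
          simp only [pow_zero, one_mul] at *
          constructor
          · omega
          · omega
        · apply key D' rfl
          rcases Nat.eq_zero_or_pos h with h0 | h0
          · omega
          · have h5 : g - 2 ^ (D' + 1) < a' := by
              by_contra hcon
              exact hE ⟨h0, by omega⟩
            obtain ⟨h', hh'⟩ : ∃ h', h = h' + 1 := ⟨h - 1, by omega⟩
            have h6 : 2 * h' ≤ 2 ^ (D' + 1) * h' := by
              apply Nat.mul_le_mul_right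
              rw [pow_succ]
              have : 1 ≤ 2 ^ D' := Nat.one_le_two_pow
              omega
            have h7 := pc_le_self r
            have h8 : g = 2 ^ (D' + 1) * h' + 2 ^ (D' + 1) + r := by
              rw [← hdm, hh']; ring
            omega

lemma dig_of_lt {a w g : ℕ} (hw : 1 ≤ w) (hg : g < 2 ^ w) (h1 : pc g ≤ a) (h2 : a ≤ g) :
    Dig a (w - 1) g := by
  obtain ⟨D, rfl⟩ : ∃ D, w = D + 1 := ⟨w - 1, by omega⟩
  apply dig_of_cond _ a _ g rfl _ h2
  have h3 : D + 1 - 1 = D := by omega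
  rw [h3]
  have h4 : pc g = pc (g % 2 ^ D) + pc (g / 2 ^ D) := by
    have := pc_add_mul D (g % 2 ^ D) (g / 2 ^ D) (Nat.mod_lt _ (by positivity))
    rw [Nat.mod_add_div] at this
    exact this
  have h5 : g / 2 ^ D < 2 := by
    rw [Nat.div_lt_iff_lt_mul (by positivity)]
    rw [pow_succ] at hg
    omega
  generalize g / 2 ^ D = hh at *
  have : pc 1 = 1 := by
    have := pc_two_mul_add_one 0
    simpa [pc_zero] using this
  rcases (by omega : hh = 0 ∨ hh = 1) with h6 | h6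
  · rw [h6, pc_zero] at h4
    omega
  · rw [h6, this] at h4
    omega

lemma Prof.F4 {T T' B A : ℕ} (h : Prof [T, T', B, A]) : Prof [2 * T, T', B, A] :=
  Prof.del (2 * T) [] T [T', B, A] (Prof.F T [T', B, A] h)

lemma Prof.F3 {T B A : ℕ} (h : Prof [T, B, A]) : Prof [2 * T, B, A] :=
  Prof.del (2 * T) [] T [B, A] (Prof.F T [B, A] h)

lemma Prof.E4 {T T' B A : ℕ} (h : Prof [T, T', B, A]) :
    Prof [T + A, T' + A, B + A, 2 * A] := by
  have := Prof.E [T, T', B] A (by simpa using h)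
  simpa using this

lemma Prof.E3 {T B A : ℕ} (h : Prof [T, B, A]) : Prof [T + A, B + A, 2 * A] := by
  have := Prof.E [T, B] A (by simpa using h)
  simpa using this

lemma Prof.E2 {T A : ℕ} (h : Prof [T, A]) : Prof [T + A, 2 * A] := by
  have := Prof.E [T] A (by simpa using h)
  simpa using this

lemma Prof.band1 {a D g : ℕ} (hd : Dig a D g) : ∀ T T' B A : ℕ, Prof [T, T', B, A] →
    Prof [2 ^ (a + D) * T + 2 ^ a * g * A, T' + (2 ^ a - 1) * A, B + (2 ^ a - 1) * A,
      2 ^ a * A] := by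
  induction hd with
  | zero => intro T T' B A h; simpa using h
  | F a D g _ ih =>
    intro T T' B A h
    have := ih _ _ _ _ h.F4
    have e : 2 ^ (a + D) * (2 * T) = 2 ^ (a + (D + 1)) * T := by ring
    rwa [e] at this
  | E a D g _ ih =>
    intro T T' B A h
    have := ih _ _ _ _ h.E4
    have e1 : 2 ^ (a + (D + 1)) * (T + A) + 2 ^ a * g * (2 * A)
        = 2 ^ (a + 1 + D) * T + 2 ^ (a + 1) * (g + 2 ^ D) * A := by ring
    have hp : 1 ≤ 2 ^ a := Nat.one_le_two_pow
    have e2 : A + (2 ^ a - 1) * (2 * A) = (2 ^ (a + 1) - 1) * A := by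
      obtain ⟨c, hc⟩ : ∃ c, 2 ^ a = c + 1 := ⟨2 ^ a - 1, by omega⟩
      have : 2 ^ (a + 1) = 2 * c + 1 + 1 := by rw [pow_succ, hc]; ring
      rw [this, hc]
      simp only [Nat.add_sub_cancel]
      ring
    have e3 : 2 ^ a * (2 * A) = 2 ^ (a + 1) * A := by ring
    rw [e1, add_assoc T', add_assoc B, e2, e3] at this
    exact this

lemma Prof.band2 {b D g : ℕ} (hd : Dig b D g) : ∀ T B A : ℕ, Prof [T, B, A] →
    Prof [2 ^ b * T + A * (2 ^ b * (2 ^ D - 1 + g)), B + (2 ^ (b + D) - 1) * A,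
      2 ^ (b + D) * A] := by
  induction hd with
  | zero => intro T B A h; simpa using h
  | F b D g _ ih =>
    intro T B A h
    have := (ih _ _ _ h).E3
    have hp : 1 ≤ 2 ^ D := Nat.one_le_two_pow
    have hq : 1 ≤ 2 ^ (b + D) := Nat.one_le_two_pow
    have e1 : 2 ^ b * T + A * (2 ^ b * (2 ^ D - 1 + g)) + 2 ^ (b + D) * A
        = 2 ^ b * T + A * (2 ^ b * (2 ^ (D + 1) - 1 + g)) := by
      obtain ⟨c, hc⟩ : ∃ c, 2 ^ D = c + 1 := ⟨2 ^ D - 1, by omega⟩
      have : 2 ^ (D + 1) = 2 * c + 1 + 1 := by rw [pow_succ, hc]; ring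
      rw [this, pow_add, hc]
      simp only [Nat.add_sub_cancel]
      ring
    have e2 : B + (2 ^ (b + D) - 1) * A + 2 ^ (b + D) * A = B + (2 ^ (b + (D + 1)) - 1) * A := by
      obtain ⟨c, hc⟩ : ∃ c, 2 ^ (b + D) = c + 1 := ⟨2 ^ (b + D) - 1, by omega⟩
      have : 2 ^ (b + (D + 1)) = 2 * c + 1 + 1 := by
        rw [← add_assoc, pow_succ, hc]; ring
      rw [this, hc]
      simp only [Nat.add_sub_cancel]
      ring
    have e3 : 2 * (2 ^ (b + D) * A) = 2 ^ (b + (D + 1)) * A := by ring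
    rw [e1, e2, e3] at this
    exact this
  | E b D g _ ih =>
    intro T B A h
    have := (ih _ _ _ h).F3
    have hp : 1 ≤ 2 ^ D := Nat.one_le_two_pow
    have e1 : 2 * (2 ^ b * T + A * (2 ^ b * (2 ^ (D + 1) - 1 + g)))
        = 2 ^ (b + 1) * T + A * (2 ^ (b + 1) * (2 ^ D - 1 + (g + 2 ^ D))) := by
      obtain ⟨c, hc⟩ : ∃ c, 2 ^ D = c + 1 := ⟨2 ^ D - 1, by omega⟩
      have : 2 ^ (D + 1) = 2 * c + 1 + 1 := by rw [pow_succ, hc]; ring
      rw [this, hc]
      simp only [Nat.add_sub_cancel]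
      ring
    have e2 : b + (D + 1) = b + 1 + D := by ring
    rw [e1, e2] at this
    exact this

theorem Prof.start (h : ℕ) : Prof [2 ^ h + 1, 2 ^ h] := by
  have h0 : Prof [2, 1] := Prof.F 1 [] Prof.one
  have : ∀ n, Prof [2 ^ n + 1, 2 ^ n] := by
    intro n
    induction n with
    | zero => simpa using h0
    | succ n ih =>
      have := ih.E2
      have e1 : 2 ^ n + 1 + 2 ^ n = 2 ^ (n + 1) + 1 := by ring
      have e2 : 2 * 2 ^ n = 2 ^ (n + 1) := by ring
      rwa [e1, e2] at this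
  exact this h

theorem Prof.step {q σ a b w1 w2 i M : ℕ} (h : Prof [q, σ]) (hw1 : 1 ≤ w1) (hw2 : 1 ≤ w2)
    (hM : Rep q σ a b w1 w2 M) :
    Prof [(2 ^ i - 1) * q + 2 ^ b * (2 ^ (i + a + w1 - 1) * q
        + (q + (2 ^ a - 1) * σ) * (2 ^ w2 - 1) + M),
      2 * ((2 ^ i - 1) * q + 2 ^ (b + w2 - 1) * (q + (2 ^ a - 1) * σ))] := by
  obtain ⟨g, g', hgM, hg, hpg, hag, hg', hpg', hbg'⟩ := hM
  have hd1 := dig_of_lt hw1 hg hpg hag
  have hd2 := dig_of_lt hw2 hg' hpg' hbg'
  obtain ⟨D1, rfl⟩ : ∃ D, w1 = D + 1 := ⟨w1 - 1, by omega⟩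
  obtain ⟨D2, rfl⟩ : ∃ D, w2 = D + 1 := ⟨w2 - 1, by omega⟩
  simp only [Nat.add_sub_cancel] at hd1 hd2
  have h1 : Prof [q, q, σ] := Prof.dup q [σ] h
  have h2 : Prof [2 ^ i * q, q, σ] := by
    clear hd1 hd2 hgM hg hpg hag hg' hpg' hbg'
    induction i with
    | zero => simpa using h1
    | succ n ih =>
      have := ih.F3
      have e : 2 * (2 ^ n * q) = 2 ^ (n + 1) * q := by ring
      rwa [e] at this
  have h3 : Prof [2 ^ i * q, 2 ^ i * q, q, σ] := Prof.dup _ _ h2
  have h4 := Prof.band1 hd1 _ _ _ _ h3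
  -- forget the last entry
  have h5 : Prof [2 ^ (a + D1) * (2 ^ i * q) + 2 ^ a * g * σ,
      2 ^ i * q + (2 ^ a - 1) * σ, q + (2 ^ a - 1) * σ] := by
    have := Prof.del _ [2 ^ i * q + (2 ^ a - 1) * σ, q + (2 ^ a - 1) * σ] (2 ^ a * σ) []
      (by simpa using h4)
    simpa using this
  set s := q + (2 ^ a - 1) * σ with hs
  have h6 := Prof.band2 hd2 _ _ _ h5
  -- forget the last entry again
  have h7 : Prof [2 ^ b * (2 ^ (a + D1) * (2 ^ i * q) + 2 ^ a * g * σ)
      + s * (2 ^ b * (2 ^ D2 - 1 + g')),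
      2 ^ i * q + (2 ^ a - 1) * σ + (2 ^ (b + D2) - 1) * s] := by
    have := Prof.del _ [2 ^ i * q + (2 ^ a - 1) * σ + (2 ^ (b + D2) - 1) * s]
      (2 ^ (b + D2) * s) [] (by simpa using h6)
    simpa using this
  have h8 := h7.E2
  have hi : 1 ≤ 2 ^ i := Nat.one_le_two_pow
  have hD : 1 ≤ 2 ^ D2 := Nat.one_le_two_pow
  have hbD : 1 ≤ 2 ^ (b + D2) := Nat.one_le_two_pow
  obtain ⟨c, hc⟩ : ∃ c, 2 ^ i = c + 1 := ⟨2 ^ i - 1, by omega⟩
  obtain ⟨d, hd⟩ : ∃ d, 2 ^ D2 = d + 1 := ⟨2 ^ D2 - 1, by omega⟩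
  obtain ⟨f, hf⟩ : ∃ f, 2 ^ (b + D2) = f + 1 := ⟨2 ^ (b + D2) - 1, by omega⟩
  have e2 : 2 ^ i * q + (2 ^ a - 1) * σ + (2 ^ (b + D2) - 1) * s
      = (2 ^ i - 1) * q + 2 ^ (b + (D2 + 1) - 1) * s := by
    have e3 : b + (D2 + 1) - 1 = b + D2 := by omega
    rw [e3, hc, hf]
    simp only [Nat.add_sub_cancel]
    have : (c + 1) * q + (2 ^ a - 1) * σ + f * s = c * q + s + f * s := by rw [hs]; ring
    rw [this]; ring
  have e1 : 2 ^ b * (2 ^ (a + D1) * (2 ^ i * q) + 2 ^ a * g * σ)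
      + s * (2 ^ b * (2 ^ D2 - 1 + g'))
      + (2 ^ i * q + (2 ^ a - 1) * σ + (2 ^ (b + D2) - 1) * s)
      = (2 ^ i - 1) * q + 2 ^ b * (2 ^ (i + a + (D1 + 1) - 1) * q
        + s * (2 ^ (D2 + 1) - 1) + M) := by
    rw [e2, ← hgM]
    have e3 : b + (D2 + 1) - 1 = b + D2 := by omega
    have e4 : i + a + (D1 + 1) - 1 = i + a + D1 := by omega
    have e5 : 2 ^ (D2 + 1) = 2 * d + 1 + 1 := by rw [pow_succ, hd]; ring
    rw [e3, e4, e5, pow_add 2 b D2, hd]
    simp only [Nat.add_sub_cancel]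
    ring
  rw [e1, e2] at h8
  exact h8

theorem TV.two_mul {x : ℕ} (h : TV x) : TV (2 * x) := by
  obtain ⟨l, hl⟩ := h
  exact ⟨_, Prof.F x l hl⟩

end Pool.Agent.CC603
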