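import Pool.Agent.CC603.Basic

/-!
MP_603bb3_co, module C2: pairwise independence of the top digits and Chebyshev.
-/

namespace Pool.Agent.CC603

open Finset

section second

variable {b q n : ℕ}

/-- indicator of the top digits lying in `A` -/
noncomputable def phi (b q : ℕ) (A : Finset ℕ) (w : ZMod (2 ^ b)) : ℝ :=
  if w.val / 2 ^ q ∈ A then 1 else 0

lemma top_shift (h : b = q + n) (w : ZMod (2 ^ b)) (k : ℕ) :
    (w + (2 : ZMod (2 ^ b)) ^ q * (k : ZMod (2 ^ b))).val / 2 ^ q = (w.val / 2 ^ q + k) % 2 ^ n := by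
  have h1 : (2 : ZMod (2 ^ b)) ^ q * (k : ZMod (2 ^ b)) = ((2 ^ q * k : ℕ) : ZMod (2 ^ b)) := by
    push_cast; ring
  have h2 : 2 ^ b = 2 ^ q * 2 ^ n := by rw [h, pow_add]
  have : NeZero (2 ^ b) := ⟨by positivity⟩
  rw [h1, ZMod.val_add, ZMod.val_natCast, Nat.add_mod_mod]
  generalize w.val = u
  rw [h2, Nat.mod_mul_right_div_self, Nat.add_mul_div_left _ _ (by positivity)]

lemma card_rot (N u : ℕ) (A : Finset ℕ) (hA : A ⊆ range N) :
    ((range N).filter (fun k => (u + k) % N ∈ A)).card = A.card := by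
  rcases Nat.eq_zero_or_pos N with h0 | hN
  · subst h0
    have : A = ∅ := by simpa using hA
    simp [this]
  have hinj : Set.InjOn (fun k => (u + k) % N) (range N : Set ℕ) := by
    intro k hk k' hk' h
    simp only [coe_range, Set.mem_Iio] at hk hk'
    have h1 : k ≡ k' [MOD N] := Nat.ModEq.add_left_cancel' u h
    unfold Nat.ModEq at h1
    rwa [Nat.mod_eq_of_lt hk, Nat.mod_eq_of_lt hk'] at h1
  have himg : (range N).image (fun k => (u + k) % N) = range N := by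
    apply eq_of_subset_of_card_le
    · intro x hx
      rw [mem_image] at hx
      obtain ⟨k, _, rfl⟩ := hx
      exact mem_range.2 (Nat.mod_lt _ hN)
    · rw [card_image_of_injOn hinj]
  have h2 : ((range N).filter (fun k => (u + k) % N ∈ A)).image (fun k => (u + k) % N) = A := by
    ext x
    constructor
    · intro hx
      rw [mem_image] at hx
      obtain ⟨k, hk, rfl⟩ := hx
      exact (mem_filter.1 hk).2
    · intro hx
      have h3 : x ∈ (range N).image (fun k => (u + k) % N) := by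
        rw [himg]; exact hA hx
      rw [mem_image] at h3
      obtain ⟨k, hk, rfl⟩ := h3
      exact mem_image.2 ⟨k, mem_filter.2 ⟨hk, hx⟩, rfl⟩
  conv_rhs => rw [← h2]
  rw [card_image_of_injOn]
  exact hinj.mono (by
    intro x hx
    exact (mem_filter.1 hx).1)

lemma sum_rot (h : b = q + n) (A : Finset ℕ) (hA : A ⊆ range (2 ^ n)) (w : ZMod (2 ^ b)) :
    ∑ k ∈ range (2 ^ n), phi b q A (w + (2 : ZMod (2 ^ b)) ^ q * (k : ZMod (2 ^ b))) = A.card := by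
  have h1 : ∀ k ∈ range (2 ^ n), phi b q A (w + (2 : ZMod (2 ^ b)) ^ q * (k : ZMod (2 ^ b))) =
      if (w.val / 2 ^ q + k) % 2 ^ n ∈ A then (1 : ℝ) else 0 := by
    intro k _
    unfold phi
    rw [top_shift h]
  rw [sum_congr rfl h1, sum_boole, card_rot _ _ _ hA]

lemma avg_phi [NeZero (2 ^ b)] (h : b = q + n) (A : Finset ℕ) (hA : A ⊆ range (2 ^ n))
    (c0 g c : ZMod (2 ^ b)) (hg : (2 : ZMod (2 ^ b)) ^ q = g * c) :
    (2 : ℝ) ^ n * ∑ x : ZMod (2 ^ b), phi b q A (c0 + g * x) = 2 ^ b * A.card := by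
  have h1 : ∀ k : ℕ, ∑ x : ZMod (2 ^ b), phi b q A (c0 + g * x) =
      ∑ x : ZMod (2 ^ b), phi b q A (c0 + g * x + (2 : ZMod (2 ^ b)) ^ q * (k : ZMod (2 ^ b))) := by
    intro k
    rw [← Equiv.sum_comp (Equiv.addRight (c * (k : ZMod (2 ^ b))))]
    refine sum_congr rfl fun x _ => ?_
    congr 1
    simp only [Equiv.coe_addRight]
    rw [hg]; ring
  have h2 : (2 : ℝ) ^ n * ∑ x : ZMod (2 ^ b), phi b q A (c0 + g * x) =
      ∑ k ∈ range (2 ^ n), ∑ x : ZMod (2 ^ b),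
        phi b q A (c0 + g * x + (2 : ZMod (2 ^ b)) ^ q * (k : ZMod (2 ^ b))) := by
    rw [← sum_congr rfl (fun k _ => h1 k), sum_const, card_range, nsmul_eq_mul]
    push_cast; ring
  rw [h2, sum_comm, sum_congr rfl (fun x _ => sum_rot h A hA _), sum_const, card_univ, ZMod.card,
    nsmul_eq_mul]
  push_cast; ring

/-- `2 ^ e` is a multiple of `d` modulo `2 ^ b` if `0 < |d| < 2 ^ e` -/
lemma exists_mul (b e : ℕ) (d : ℤ) (hd : d ≠ 0) (hd' : d.natAbs < 2 ^ e) :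
    ∃ c : ZMod (2 ^ b), (2 : ZMod (2 ^ b)) ^ e = (d : ZMod (2 ^ b)) * c := by
  obtain ⟨v, hv, hD⟩ := (Nat.dvd_prime_pow Nat.prime_two).1
    (show Int.gcd d ((2 ^ b : ℕ) : ℤ) ∣ 2 ^ b by
      have := Int.gcd_dvd_right (a := d) (b := ((2 ^ b : ℕ) : ℤ))
      exact_mod_cast this)
  have h1 : 2 ^ v ≤ d.natAbs := by
    rw [← hD]
    exact Nat.le_of_dvd (Int.natAbs_pos.2 hd) (by
      have := Int.gcd_dvd_left (a := d) (b := ((2 ^ b : ℕ) : ℤ))
      exact Int.natCast_dvd.1 this)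
  have h2 : v < e := by
    have : 2 ^ v < 2 ^ e := lt_of_le_of_lt h1 hd'
    exact (Nat.pow_lt_pow_iff_right (by norm_num)).1 this
  have h3 := Int.gcd_eq_gcd_ab d ((2 ^ b : ℕ) : ℤ)
  rw [hD] at h3
  have h4 := congrArg (fun z : ℤ => (z : ZMod (2 ^ b))) h3
  simp only [Int.cast_natCast, Int.cast_add, Int.cast_mul, ZMod.natCast_self, zero_mul,
    add_zero] at h4
  refine ⟨(Int.gcdA d ((2 ^ b : ℕ) : ℤ) : ZMod (2 ^ b)) * 2 ^ (e - v), ?_⟩
  rw [← mul_assoc, ← h4]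
  push_cast
  rw [← pow_add]
  congr 1
  omega

lemma sum_swap {α : Type} [Fintype α] (T : Finset ℕ) (g : α → α → ℕ → ℝ) :
    ∑ x : α, ∑ y : α, ∑ t ∈ T, g x y t = ∑ t ∈ T, ∑ x : α, ∑ y : α, g x y t := by
  have h : ∀ x : α, ∑ y : α, ∑ t ∈ T, g x y t = ∑ t ∈ T, ∑ y : α, g x y t := fun x => sum_comm
  rw [sum_congr rfl (fun x _ => h x), sum_comm]

/-- the number of points of `T` whose top digits lie in `A` -/
noncomputable def VV (b q : ℕ) (T A : Finset ℕ) (s y : ZMod (2 ^ b)) : ℝ :=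
  ∑ t ∈ T, phi b q A (y - s * (t : ZMod (2 ^ b)))

lemma first_moment [NeZero (2 ^ b)] (h : b = q + n) (A : Finset ℕ) (hA : A ⊆ range (2 ^ n))
    (c0 : ZMod (2 ^ b)) :
    (2 : ℝ) ^ n * ∑ y : ZMod (2 ^ b), phi b q A (y - c0) = 2 ^ b * A.card := by
  rw [← avg_phi h A hA (-c0) 1 (2 ^ q) (by ring)]
  congr 1
  refine sum_congr rfl fun y _ => ?_
  congr 1
  ring

lemma pair_moment [NeZero (2 ^ b)] {bp e : ℕ} (hq : q = bp + e) (h : b = q + n) (A : Finset ℕ)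
    (hA : A ⊆ range (2 ^ n)) (s0 : ZMod (2 ^ b)) (t t' : ℕ) (ht : t ≠ t') (h1 : t < t' + 2 ^ e)
    (h2 : t' < t + 2 ^ e) :
    (2 : ℝ) ^ n * (2 ^ n * ∑ x : ZMod (2 ^ b), ∑ y : ZMod (2 ^ b),
      phi b q A (y - (s0 + 2 ^ bp * x) * (t : ZMod (2 ^ b))) *
        phi b q A (y - (s0 + 2 ^ bp * x) * (t' : ZMod (2 ^ b)))) =
      (2 ^ b * A.card) * (2 ^ b * A.card) := by
  have hs : ∀ x : ZMod (2 ^ b), ∑ y : ZMod (2 ^ b),
      phi b q A (y - (s0 + 2 ^ bp * x) * (t : ZMod (2 ^ b))) *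
        phi b q A (y - (s0 + 2 ^ bp * x) * (t' : ZMod (2 ^ b))) =
      ∑ z : ZMod (2 ^ b), phi b q A z *
        phi b q A ((z - s0 * ((t' : ZMod (2 ^ b)) - t)) + (-(2 ^ bp * ((t' : ZMod (2 ^ b)) - t))) * x) := by
    intro x
    rw [← Equiv.sum_comp (Equiv.addRight ((s0 + 2 ^ bp * x) * (t : ZMod (2 ^ b))))]
    refine sum_congr rfl fun z _ => ?_
    simp only [Equiv.coe_addRight]
    congr 1
    · congr 1; ring
    · congr 1; ring
  rw [sum_congr rfl (fun x _ => hs x), sum_comm]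
  have hz : ∀ z : ZMod (2 ^ b), ∑ x : ZMod (2 ^ b), phi b q A z *
        phi b q A ((z - s0 * ((t' : ZMod (2 ^ b)) - t)) + (-(2 ^ bp * ((t' : ZMod (2 ^ b)) - t))) * x) =
      phi b q A z * ∑ x : ZMod (2 ^ b),
        phi b q A ((z - s0 * ((t' : ZMod (2 ^ b)) - t)) + (-(2 ^ bp * ((t' : ZMod (2 ^ b)) - t))) * x) := by
    intro z
    rw [mul_sum]
  rw [sum_congr rfl (fun z _ => hz z)]
  obtain ⟨c, hc⟩ := exists_mul b e ((t' : ℤ) - t) (by omega) (by omega)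
  push_cast at hc
  have hg : (2 : ZMod (2 ^ b)) ^ q = (-(2 ^ bp * ((t' : ZMod (2 ^ b)) - t))) * (-c) := by
    rw [hq, pow_add, hc]; ring
  have h3 : (2 : ℝ) ^ n * ∑ z : ZMod (2 ^ b), (phi b q A z * ∑ x : ZMod (2 ^ b),
        phi b q A ((z - s0 * ((t' : ZMod (2 ^ b)) - t)) + (-(2 ^ bp * ((t' : ZMod (2 ^ b)) - t))) * x)) =
      (∑ z : ZMod (2 ^ b), phi b q A z) * (2 ^ b * A.card) := by
    rw [mul_sum, sum_mul]
    refine sum_congr rfl fun z _ => ?_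
    rw [← avg_phi h A hA (z - s0 * ((t' : ZMod (2 ^ b)) - t))
      (-(2 ^ bp * ((t' : ZMod (2 ^ b)) - t))) (-c) hg]
    ring
  rw [h3, ← mul_assoc]
  have h4 := first_moment h A hA 0
  simp only [sub_zero] at h4
  rw [h4]

lemma phi_sq (b q : ℕ) (A : Finset ℕ) (w : ZMod (2 ^ b)) :
    phi b q A w * phi b q A w = phi b q A w := by
  unfold phi; split_ifs <;> norm_num

lemma phi_nonneg (b q : ℕ) (A : Finset ℕ) (w : ZMod (2 ^ b)) : 0 ≤ phi b q A w := by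
  unfold phi; split_ifs <;> norm_num

lemma variance [NeZero (2 ^ b)] {bp e : ℕ} (hq : q = bp + e) (h : b = q + n) (T A : Finset ℕ)
    (hA : A ⊆ range (2 ^ n)) (s0 : ZMod (2 ^ b)) (hT : ∀ t ∈ T, ∀ t' ∈ T, t < t' + 2 ^ e) :
    ∑ x : ZMod (2 ^ b), ∑ y : ZMod (2 ^ b),
      ((2 : ℝ) ^ n * VV b q T A (s0 + 2 ^ bp * x) y - T.card * A.card) ^ 2 ≤
      2 ^ n * (2 ^ b * 2 ^ b) * (T.card * A.card) := by
  have hN : (0 : ℝ) < 2 ^ n := by positivity
  -- one point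
  have e1 : ∀ t : ℕ, (2 : ℝ) ^ n * ∑ x : ZMod (2 ^ b), ∑ y : ZMod (2 ^ b),
      phi b q A (y - (s0 + 2 ^ bp * x) * (t : ZMod (2 ^ b))) = 2 ^ b * (2 ^ b * A.card) := by
    intro t
    rw [mul_sum, sum_congr rfl (fun x _ => first_moment h A hA _), sum_const, card_univ, ZMod.card,
      nsmul_eq_mul]
    push_cast; ring
  have e2 : (2 : ℝ) ^ n * ∑ x : ZMod (2 ^ b), ∑ y : ZMod (2 ^ b),
      VV b q T A (s0 + 2 ^ bp * x) y = T.card * (2 ^ b * (2 ^ b * A.card)) := by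
    have : ∑ x : ZMod (2 ^ b), ∑ y : ZMod (2 ^ b), VV b q T A (s0 + 2 ^ bp * x) y =
        ∑ t ∈ T, ∑ x : ZMod (2 ^ b), ∑ y : ZMod (2 ^ b),
          phi b q A (y - (s0 + 2 ^ bp * x) * (t : ZMod (2 ^ b))) := by
      unfold VV
      rw [sum_swap]
    rw [this, mul_sum, sum_congr rfl (fun t _ => e1 t), sum_const, nsmul_eq_mul]
  -- two points
  have e3 : (2 : ℝ) ^ n * (2 ^ n * ∑ x : ZMod (2 ^ b), ∑ y : ZMod (2 ^ b),
      VV b q T A (s0 + 2 ^ bp * x) y ^ 2) ≤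
      2 ^ n * (T.card * (2 ^ b * (2 ^ b * A.card))) +
        T.card * T.card * ((2 ^ b * A.card) * (2 ^ b * A.card)) := by
    have hV : ∑ x : ZMod (2 ^ b), ∑ y : ZMod (2 ^ b), VV b q T A (s0 + 2 ^ bp * x) y ^ 2 =
        ∑ t ∈ T, ∑ t' ∈ T, ∑ x : ZMod (2 ^ b), ∑ y : ZMod (2 ^ b),
          phi b q A (y - (s0 + 2 ^ bp * x) * (t : ZMod (2 ^ b))) *
            phi b q A (y - (s0 + 2 ^ bp * x) * (t' : ZMod (2 ^ b))) := by
      have h1 : ∀ x y : ZMod (2 ^ b), VV b q T A (s0 + 2 ^ bp * x) y ^ 2 =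
          ∑ t ∈ T, ∑ t' ∈ T, phi b q A (y - (s0 + 2 ^ bp * x) * (t : ZMod (2 ^ b))) *
            phi b q A (y - (s0 + 2 ^ bp * x) * (t' : ZMod (2 ^ b))) := by
        intro x y
        unfold VV
        rw [sq, sum_mul_sum]
      rw [sum_congr rfl (fun x _ => sum_congr rfl (fun y _ => h1 x y))]
      rw [sum_swap]
      refine sum_congr rfl fun t _ => ?_
      rw [sum_swap]
    rw [hV, mul_sum, mul_sum]
    have h2 : ∀ t ∈ T, (2 : ℝ) ^ n * ((2 : ℝ) ^ n * ∑ t' ∈ T, ∑ x : ZMod (2 ^ b), ∑ y : ZMod (2 ^ b),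
          phi b q A (y - (s0 + 2 ^ bp * x) * (t : ZMod (2 ^ b))) *
            phi b q A (y - (s0 + 2 ^ bp * x) * (t' : ZMod (2 ^ b)))) ≤
        2 ^ n * (2 ^ b * (2 ^ b * A.card)) + T.card * ((2 ^ b * A.card) * (2 ^ b * A.card)) := by
      intro t ht
      rw [← add_sum_erase T _ ht, mul_add, mul_add]
      refine add_le_add ?_ ?_
      · refine mul_le_mul_of_nonneg_left (le_of_eq ?_) hN.le
        rw [← e1 t]
        congr 1
        refine sum_congr rfl fun x _ => sum_congr rfl fun y _ => ?_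
        rw [phi_sq]
      · rw [mul_sum, mul_sum]
        have h3 : ∀ t' ∈ T.erase t, (2 : ℝ) ^ n * ((2 : ℝ) ^ n * ∑ x : ZMod (2 ^ b), ∑ y : ZMod (2 ^ b),
          phi b q A (y - (s0 + 2 ^ bp * x) * (t : ZMod (2 ^ b))) *
            phi b q A (y - (s0 + 2 ^ bp * x) * (t' : ZMod (2 ^ b)))) =
          (2 ^ b * A.card) * (2 ^ b * A.card) := by
          intro t' ht'
          rw [mem_erase] at ht'
          exact pair_moment hq h A hA s0 t t' (Ne.symm ht'.1) (hT t ht t' ht'.2)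
            (hT t' ht'.2 t ht)
        rw [sum_congr rfl h3, sum_const, nsmul_eq_mul]
        refine mul_le_mul_of_nonneg_right ?_ (by positivity)
        exact_mod_cast card_le_card (erase_subset t T)
    have h4 : ∀ t ∈ T, (2 : ℝ) ^ n * (2 : ℝ) ^ n * ∑ t' ∈ T, ∑ x : ZMod (2 ^ b), ∑ y : ZMod (2 ^ b),
          phi b q A (y - (s0 + 2 ^ bp * x) * (t : ZMod (2 ^ b))) *
            phi b q A (y - (s0 + 2 ^ bp * x) * (t' : ZMod (2 ^ b))) ≤
        2 ^ n * (2 ^ b * (2 ^ b * A.card)) + T.card * ((2 ^ b * A.card) * (2 ^ b * A.card)) := by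
      intro t ht
      rw [mul_assoc]
      exact h2 t ht
    refine (sum_le_sum (fun t ht => h2 t ht)).trans (le_of_eq ?_)
    rw [sum_const, nsmul_eq_mul]
    ring
  have e4 : ∑ x : ZMod (2 ^ b), ∑ y : ZMod (2 ^ b),
      ((2 : ℝ) ^ n * VV b q T A (s0 + 2 ^ bp * x) y - T.card * A.card) ^ 2 =
      (2 : ℝ) ^ n * (2 ^ n * ∑ x : ZMod (2 ^ b), ∑ y : ZMod (2 ^ b),
        VV b q T A (s0 + 2 ^ bp * x) y ^ 2) -
      2 * (T.card * A.card) * ((2 : ℝ) ^ n * ∑ x : ZMod (2 ^ b), ∑ y : ZMod (2 ^ b),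
        VV b q T A (s0 + 2 ^ bp * x) y) + (2 ^ b * 2 ^ b) * (T.card * A.card) ^ 2 := by
    have h1 : (2 ^ b * 2 ^ b : ℝ) * (T.card * A.card) ^ 2 =
        ∑ x : ZMod (2 ^ b), ∑ y : ZMod (2 ^ b), ((T.card : ℝ) * A.card) ^ 2 := by
      rw [sum_const, sum_const, card_univ, ZMod.card, nsmul_eq_mul, nsmul_eq_mul]
      push_cast; ring
    rw [h1]
    simp only [mul_sum]
    rw [← sum_sub_distrib, ← sum_add_distrib]
    refine sum_congr rfl fun x _ => ?_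
    rw [← sum_sub_distrib, ← sum_add_distrib]
    refine sum_congr rfl fun y _ => ?_
    ring
  rw [e4, e2]
  have := e3
  nlinarith [this]

/-- the number of bad `y` for the slope `s` -/
noncomputable def hbad (b q n : ℕ) [NeZero (2 ^ b)] (T A : Finset ℕ) (s : ZMod (2 ^ b)) : ℕ :=
  ((univ : Finset (ZMod (2 ^ b))).filter (fun y =>
    2 * 2 ^ n * (T.filter (fun t : ℕ => (y - s * (t : ZMod (2 ^ b))).val / 2 ^ q ∈ A)).card <
      T.card * A.card)).card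

lemma VV_eq (b q : ℕ) (T A : Finset ℕ) (s y : ZMod (2 ^ b)) :
    VV b q T A s y = (T.filter (fun t : ℕ => (y - s * (t : ZMod (2 ^ b))).val / 2 ^ q ∈ A)).card := by
  unfold VV phi
  rw [sum_boole]

lemma chebyshev [NeZero (2 ^ b)] {bp e : ℕ} (hq : q = bp + e) (h : b = q + n) (T A : Finset ℕ)
    (hA : A ⊆ range (2 ^ n)) (s0 : ZMod (2 ^ b)) (hT : ∀ t ∈ T, ∀ t' ∈ T, t < t' + 2 ^ e) :
    ((∑ x : ZMod (2 ^ b), hbad b q n T A (s0 + 2 ^ bp * x) : ℕ) : ℝ) * (T.card * A.card) ≤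
      4 * 2 ^ n * (2 ^ b * 2 ^ b) := by
  rcases Nat.eq_zero_or_pos (T.card * A.card) with h0 | hpos
  · have h1 : (T.card : ℝ) * A.card = 0 := by exact_mod_cast h0
    rw [h1, mul_zero]; positivity
  have hμ : (0 : ℝ) < T.card * A.card := by exact_mod_cast hpos
  have hv := variance hq h T A hA s0 hT
  have h1 : ∀ x : ZMod (2 ^ b), (hbad b q n T A (s0 + 2 ^ bp * x) : ℝ) * (T.card * A.card) ^ 2 ≤
      4 * ∑ y : ZMod (2 ^ b), ((2 : ℝ) ^ n * VV b q T A (s0 + 2 ^ bp * x) y - T.card * A.card) ^ 2 := by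
    intro x
    unfold hbad
    rw [mul_sum, ← nsmul_eq_mul, ← sum_const]
    refine (sum_le_sum (fun y hy => ?_)).trans
      (sum_le_univ_sum_of_nonneg (fun y => by positivity))
    rw [mem_filter] at hy
    have h2 : 2 * 2 ^ n * VV b q T A (s0 + 2 ^ bp * x) y < T.card * A.card := by
      rw [VV_eq]
      exact_mod_cast hy.2
    have h3 : (0 : ℝ) ≤ VV b q T A (s0 + 2 ^ bp * x) y := by rw [VV_eq]; positivity
    have h4 : (0 : ℝ) ≤ 2 ^ n * VV b q T A (s0 + 2 ^ bp * x) y := by positivity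
    nlinarith
  have h2 : ((∑ x : ZMod (2 ^ b), hbad b q n T A (s0 + 2 ^ bp * x) : ℕ) : ℝ) * (T.card * A.card) ^ 2 ≤
      4 * (2 ^ n * (2 ^ b * 2 ^ b) * (T.card * A.card)) := by
    push_cast
    rw [sum_mul]
    refine (sum_le_sum (fun x _ => h1 x)).trans ?_
    rw [← mul_sum]
    linarith
  nlinarith [mul_pos hμ hμ]

lemma lift_sum [NeZero (2 ^ b)] (P Q : ℕ) (hPQ : 2 ^ b = P * Q) (f : ZMod (2 ^ b) → ℕ)
    (hf : ∀ x, f (x + (P : ZMod (2 ^ b))) = f x) :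
    ∑ x : ZMod (2 ^ b), f x = Q * ∑ x ∈ range P, f (x : ZMod (2 ^ b)) := by
  have h1 : ∑ x : ZMod (2 ^ b), f x = ∑ x ∈ range (2 ^ b), f (x : ZMod (2 ^ b)) := by
    symm
    refine sum_nbij' (fun x : ℕ => (x : ZMod (2 ^ b))) (fun z => z.val) ?_ ?_ ?_ ?_ ?_
    · intro x _; exact mem_univ _
    · intro z _; exact mem_range.2 (ZMod.val_lt z)
    · intro x hx; exact ZMod.val_cast_of_lt (mem_range.1 hx)
    · intro z _; exact ZMod.natCast_zmod_val z
    · intro x _; rfl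
  have h2 : ∀ (j : ℕ) (x : ZMod (2 ^ b)), f (x + (P : ZMod (2 ^ b)) * (j : ZMod (2 ^ b))) = f x := by
    intro j
    induction j with
    | zero => intro x; simp
    | succ j ih =>
      intro x
      have : x + (P : ZMod (2 ^ b)) * ((j + 1 : ℕ) : ZMod (2 ^ b)) =
          (x + (P : ZMod (2 ^ b)) * (j : ZMod (2 ^ b))) + (P : ZMod (2 ^ b)) := by
        push_cast; ring
      rw [this, hf, ih]
  have h3 : ∀ Q : ℕ, ∑ x ∈ range (P * Q), f (x : ZMod (2 ^ b)) =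
      Q * ∑ x ∈ range P, f (x : ZMod (2 ^ b)) := by
    intro Q
    induction Q with
    | zero => simp
    | succ Q ih =>
      rw [Nat.mul_succ, sum_range_add, ih, Nat.add_mul, one_mul]
      congr 1
      refine sum_congr rfl fun x _ => ?_
      rw [← h2 Q (x : ZMod (2 ^ b))]
      congr 1
      push_cast; ring
  have h4 : range (2 ^ b) = range (P * Q) := by rw [hPQ]
  rw [h1, h4, h3 Q]

lemma toNat_emod (b : ℕ) [NeZero (2 ^ b)] (z : ℤ) :
    (z % 2 ^ b).toNat = ((z : ℤ) : ZMod (2 ^ b)).val := by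
  have h := ZMod.val_intCast (n := 2 ^ b) z
  push_cast at h
  rw [← h, Int.toNat_natCast]

theorem second_moment (b bp e s0 : ℕ) (hbe : bp + e ≤ b) (T A : Finset ℕ)
    (hT : ∀ t ∈ T, ∀ t' ∈ T, t < t' + 2 ^ e) (hA : A ⊆ Finset.range (2 ^ (b - bp - e))) :
    (((Finset.range (2 ^ (b - bp)) ×ˢ Finset.range (2 ^ b)).filter (fun p : ℕ × ℕ =>
      2 * 2 ^ (b - bp - e) * (T.filter (fun t : ℕ => (((p.2 : ℤ) - ((s0 : ℤ) + 2 ^ bp * p.1) * t) %
        2 ^ b).toNat / 2 ^ (bp + e) ∈ A)).card < T.card * A.card)).card) * (T.card * A.card) ≤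
      4 * 2 ^ (b - bp - e) * 2 ^ (b - bp) * 2 ^ b := by
  have : NeZero (2 ^ b) := ⟨by positivity⟩
  set n := b - bp - e with hn
  have hb : b = (bp + e) + n := by omega
  have h1 : ((Finset.range (2 ^ (b - bp)) ×ˢ Finset.range (2 ^ b)).filter (fun p : ℕ × ℕ =>
      2 * 2 ^ n * (T.filter (fun t : ℕ => (((p.2 : ℤ) - ((s0 : ℤ) + 2 ^ bp * p.1) * t) %
        2 ^ b).toNat / 2 ^ (bp + e) ∈ A)).card < T.card * A.card)).card =
      ∑ x ∈ range (2 ^ (b - bp)), hbad b (bp + e) n T A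
        ((s0 : ZMod (2 ^ b)) + 2 ^ bp * (x : ZMod (2 ^ b))) := by
    rw [card_filter, sum_product]
    refine sum_congr rfl fun x _ => ?_
    rw [← card_filter]
    unfold hbad
    refine card_nbij' (fun y : ℕ => (y : ZMod (2 ^ b))) (fun z => z.val) ?_ ?_ ?_ ?_
    · intro y hy
      rw [mem_coe, mem_filter] at hy ⊢
      refine ⟨mem_univ _, ?_⟩
      have h2 := hy.2
      simp only [toNat_emod] at h2
      push_cast at h2
      exact h2
    · intro z hz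
      rw [mem_coe, mem_filter] at hz ⊢
      refine ⟨mem_range.2 (ZMod.val_lt z), ?_⟩
      simp only [toNat_emod]
      push_cast
      rw [ZMod.natCast_zmod_val]
      exact hz.2
    · intro y hy
      rw [mem_coe, mem_filter] at hy
      exact ZMod.val_cast_of_lt (mem_range.1 hy.1)
    · intro z _; exact ZMod.natCast_zmod_val z
  rw [h1]
  have hPQ : 2 ^ b = 2 ^ (b - bp) * 2 ^ bp := by rw [← pow_add]; congr 1; omega
  have h2 := lift_sum (b := b) (2 ^ (b - bp)) (2 ^ bp) hPQ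
    (fun x => hbad b (bp + e) n T A ((s0 : ZMod (2 ^ b)) + 2 ^ bp * x)) (by
      intro x
      have h3 : (2 : ZMod (2 ^ b)) ^ bp * ((2 ^ (b - bp) : ℕ) : ZMod (2 ^ b)) = 0 := by
        have h4 : ((2 ^ b : ℕ) : ZMod (2 ^ b)) = 0 := ZMod.natCast_self _
        have h5 : ((2 ^ (b - bp) * 2 ^ bp : ℕ) : ZMod (2 ^ b)) = 0 :=
          (congrArg (Nat.cast : ℕ → ZMod (2 ^ b)) hPQ).symm.trans h4
        push_cast at h5 ⊢
        rw [mul_comm]
        exact h5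
      rw [mul_add, h3, add_zero])
  have h5 := chebyshev (b := b) (q := bp + e) (n := n) rfl hb T A hA (s0 : ZMod (2 ^ b)) hT
  rw [h2] at h5
  have h6 : (2 ^ bp * ∑ x ∈ range (2 ^ (b - bp)), hbad b (bp + e) n T A
      ((s0 : ZMod (2 ^ b)) + 2 ^ bp * (x : ZMod (2 ^ b)))) * (T.card * A.card) ≤
      4 * 2 ^ n * (2 ^ b * 2 ^ b) := by
    exact_mod_cast h5
  have h7 : 2 ^ bp * ((∑ x ∈ range (2 ^ (b - bp)), hbad b (bp + e) n T A
      ((s0 : ZMod (2 ^ b)) + 2 ^ bp * (x : ZMod (2 ^ b)))) * (T.card * A.card)) ≤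
      2 ^ bp * (4 * 2 ^ n * 2 ^ (b - bp) * 2 ^ b) := by
    calc _ = (2 ^ bp * ∑ x ∈ range (2 ^ (b - bp)), hbad b (bp + e) n T A
      ((s0 : ZMod (2 ^ b)) + 2 ^ bp * (x : ZMod (2 ^ b)))) * (T.card * A.card) := by ring
      _ ≤ _ := h6
      _ = 4 * 2 ^ n * ((2 ^ (b - bp) * 2 ^ bp) * 2 ^ b) := by rw [← hPQ]
      _ = _ := by ring
  exact Nat.le_of_mul_le_mul_left h7 (by positivity)

end second

end Pool.Agent.CC603
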