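import Pool.Agent.CC603.Search3
import Pool.Agent.CC603.Digits
import Pool.Agent.CC603.Count
import Pool.Agent.CC603.Second

/-!
Levels, and the count of failures for one class and one window.
-/

namespace Pool.Agent.CC603

open Finset

/-- the exponent for the number of lifts at scale `E` -/
def kap (E : ℕ) : ℕ := E / 2 ^ 24

/-- the exponent of the modulus at scale `E` -/
def bb (E : ℕ) : ℕ := E - 5 - kap E

/-- a good pair at scale `E` -/
structure GP (E q σ : ℕ) : Prop where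
  prof : Prof [q, σ]
  cop : Nat.Coprime q σ
  ev : Even σ
  s1 : 2 ^ E ≤ σ
  s2 : 1024 * σ + 2 ^ (E - E / 4) ≤ 1025 * 2 ^ E
  q1 : 3 * 2 ^ E ≤ q
  q2 : q < 3 * 2 ^ E + 2 ^ (E - 5)

/-- level statement at scale `E` for the class `ρ` modulo `2^c0`, with relative loss `η` -/
def Lvl (c0 ρ E : ℕ) (η : ℝ) : Prop :=
  ∃ (bp : ℕ) (qh sh : ℕ → ℕ) (Ex : Finset ℕ),
    c0 ≤ bp ∧ 4 * bp ≤ bb E ∧ Ex ⊆ range (2 ^ bb E) ∧
    (Ex.card : ℝ) ≤ η * 2 ^ (bb E - c0) ∧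
    ∀ x < 2 ^ bb E, x % 2 ^ c0 = ρ → x ∉ Ex →
      GP E (qh x) (sh (x % 2 ^ bp)) ∧ qh x % 2 ^ bb E = x

/-- `N` is obtained from `(q, σ)` by one step with the given parameters -/
def RepN (q σ a b w1 w2 i N : ℕ) : Prop :=
  ∃ M, Rep q σ a b w1 w2 M ∧ N = (2 ^ i - 1) * q + 2 ^ b *
    (2 ^ (i + a + w1 - 1) * q + (q + (2 ^ a - 1) * σ) * (2 ^ w2 - 1) + M)

/-- half of the partner of the new number -/
def BB (q σ a b w2 i : ℕ) : ℕ := (2 ^ i - 1) * q + 2 ^ (b + w2 - 1) * (q + (2 ^ a - 1) * σ)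

lemma RepN.prof {q σ a b w1 w2 i N : ℕ} (h : RepN q σ a b w1 w2 i N) (hp : Prof [q, σ])
    (hw1 : 1 ≤ w1) (hw2 : 1 ≤ w2) : Prof [N, 2 * BB q σ a b w2 i] := by
  obtain ⟨M, hM, rfl⟩ := h
  exact Prof.step hp hw1 hw2 hM

lemma chernoffStmt : ChernoffStmt := fun m k h => by
  have := chernoff m k h
  convert this

lemma lowStmt : LowStmt := fun n D h1 h2 => by
  have := low_count n D h1 h2
  convert this

lemma secondStmt : SecondStmt := fun b bp e s0 h T A hT hA => by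
  have := second_moment b bp e s0 h T A hT hA
  convert this

open Classical in
/-- failures for one class of `q` and one window of `N` -/
theorem fail_count {m b bp e a E w1 w2 j1 l : ℕ} (h : Par m b bp e a E w1 w2 j1 l)
    {σ X0 ξ θ i Y : ℕ} (hσ1 : 2 ^ E ≤ σ) (hσ2 : 1024 * σ ≤ 1025 * 2 ^ E)
    (hσe : Even σ) (hξ : Odd ξ)
    (hX1 : 3 * 2 ^ E ≤ X0) (hX2 : X0 + 2 ^ b ≤ 4 * 2 ^ E) (hθ1 : 1 ≤ θ) (hθ2 : θ ≤ 62)
    (hR1 : ∀ q, X0 ≤ q → q < X0 + 2 ^ b →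
      (θ + 2) * 2 ^ (a + E + w2 + b) + 64 * ((2 ^ i - 1) * q + 2 ^ b *
        (2 ^ (i + a + w1 - 1) * q + (q + (2 ^ a - 1) * σ) * (2 ^ w2 - 1))) ≤ 64 * Y)
    (hR2 : ∀ q, X0 ≤ q → q < X0 + 2 ^ b →
      2 ^ j1 * (64 * (Y + 2 ^ b * 2 ^ (a + w2 + E - l) + 2 ^ b))
        ≤ (2 ^ j1 * θ + 64) * 2 ^ (a + E + w2 + b) + 2 ^ j1 * (64 * ((2 ^ i - 1) * q + 2 ^ b *
        (2 ^ (i + a + w1 - 1) * q + (q + (2 ^ a - 1) * σ) * (2 ^ w2 - 1))))) :
    ∑ q ∈ (Ico X0 (X0 + 2 ^ b)).filter (fun q => q % 2 ^ bp = ξ % 2 ^ bp ∧ Nat.Coprime q σ),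
      (((Ico Y (Y + 2 ^ b * 2 ^ (a + w2 + E - l))).filter
        (fun N => N % 2 ^ b = ((2 ^ i - 1) * q) % 2 ^ b ∧ ¬ RepN q σ a b w1 w2 i N)).card : ℝ)
      ≤ 2 ^ (b - bp) * 2 ^ (a + w2 + E - l) * (2 ^ (l + 3) * (999 / 1000) ^ m) := by
  set L := 2 ^ (a + w2 + E - l) with hL
  set C : ℕ → ℕ := fun q => (2 ^ i - 1) * q with hC
  set K : ℕ → ℕ := fun q => 2 ^ (i + a + w1 - 1) * q + (q + (2 ^ a - 1) * σ) * (2 ^ w2 - 1)
    with hK
  set zq : ℕ → ℕ := fun q => (Y - C q + (2 ^ b - 1)) / 2 ^ b with hzq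
  have hb0 : 1 ≤ 2 ^ b := Nat.one_le_two_pow
  -- the main facts on the start of the interval
  have hz : ∀ q, X0 ≤ q → q < X0 + 2 ^ b → C q + 2 ^ b * K q ≤ Y ∧
      Y ≤ C q + 2 ^ b * zq q ∧ C q + 2 ^ b * zq q < Y + 2 ^ b ∧ K q ≤ zq q := by
    intro q h1 h2
    have h3 := hR1 q h1 h2
    have h4 : C q + 2 ^ b * K q ≤ Y := by
      have : 64 * (C q + 2 ^ b * K q) ≤ 64 * Y := le_trans (Nat.le_add_left _ _) h3
      omega
    have h5 : 2 ^ b * zq q ≤ Y - C q + (2 ^ b - 1) := Nat.mul_div_le _ _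
    have h6 : Y - C q + (2 ^ b - 1) < 2 ^ b * (zq q + 1) := by
      rw [hzq]; exact Nat.lt_mul_div_succ _ (by positivity)
    have h7 : 2 ^ b * (zq q + 1) = 2 ^ b * zq q + 2 ^ b := by ring
    have h8 : 2 ^ b * K q ≤ 2 ^ b * zq q := by omega
    exact ⟨h4, by omega, by omega, Nat.le_of_mul_le_mul_left h8 (by positivity)⟩
  have hmain := search chernoffStmt lowStmt secondStmt h (σ := σ) (X0 := X0) (ξ := ξ) (θ := θ)
    (fun q => zq q - K q) hσ1 hσ2 hσe hξ hX1 hX2 hθ1 hθ2 (by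
      intro q h1 h2 _
      obtain ⟨h4, h5, h6, h7⟩ := hz q h1 h2
      have h3 := hR1 q h1 h2
      have h8 : 2 ^ b * ((θ + 2) * 2 ^ (a + E + w2)) ≤ 2 ^ b * (64 * (zq q - K q)) := by
        have e1 : 2 ^ b * ((θ + 2) * 2 ^ (a + E + w2)) = (θ + 2) * 2 ^ (a + E + w2 + b) := by
          rw [pow_add 2 (a + E + w2) b]; ring
        have e2 : 2 ^ b * (64 * (zq q - K q)) + 64 * (2 ^ b * K q) = 64 * (2 ^ b * zq q) := by
          obtain ⟨d, hd⟩ : ∃ d, zq q = K q + d := ⟨zq q - K q, by omega⟩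
          rw [hd]; simp only [Nat.add_sub_cancel_left]; ring
        have e3 : 64 * ((2 ^ i - 1) * q + 2 ^ b * (2 ^ (i + a + w1 - 1) * q
          + (q + (2 ^ a - 1) * σ) * (2 ^ w2 - 1))) = 64 * C q + 64 * (2 ^ b * K q) := by
          rw [hC, hK]; ring
        rw [e3] at h3
        rw [e1]
        omega
      exact Nat.le_of_mul_le_mul_left h8 (by positivity)) (by
      intro q h1 h2 _
      obtain ⟨h4, h5, h6, h7⟩ := hz q h1 h2
      have h3 := hR2 q h1 h2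
      have h8 : 2 ^ b * (2 ^ j1 * (64 * (zq q - K q + L)))
          ≤ 2 ^ b * ((2 ^ j1 * θ + 64) * 2 ^ (a + E + w2)) := by
        have e1 : 2 ^ b * ((2 ^ j1 * θ + 64) * 2 ^ (a + E + w2))
            = (2 ^ j1 * θ + 64) * 2 ^ (a + E + w2 + b) := by
          rw [pow_add 2 (a + E + w2) b]; ring
        have e2 : 2 ^ b * (2 ^ j1 * (64 * (zq q - K q + L))) + 2 ^ j1 * (64 * (2 ^ b * K q))
            = 2 ^ j1 * (64 * (2 ^ b * zq q + 2 ^ b * L)) := by
          obtain ⟨d, hd⟩ : ∃ d, zq q = K q + d := ⟨zq q - K q, by omega⟩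
          rw [hd]; simp only [Nat.add_sub_cancel_left]; ring
        have e3 : 2 ^ j1 * (64 * ((2 ^ i - 1) * q + 2 ^ b * (2 ^ (i + a + w1 - 1) * q
          + (q + (2 ^ a - 1) * σ) * (2 ^ w2 - 1)))) = 2 ^ j1 * (64 * C q)
          + 2 ^ j1 * (64 * (2 ^ b * K q)) := by
          rw [hC, hK]; ring
        have e4 : 2 ^ j1 * (64 * (2 ^ b * zq q + 2 ^ b * L)) + 2 ^ j1 * (64 * C q)
            ≤ 2 ^ j1 * (64 * (Y + 2 ^ b * L + 2 ^ b)) := by
          rw [← Nat.mul_add, ← Nat.mul_add]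
          apply Nat.mul_le_mul_left
          apply Nat.mul_le_mul_left
          omega
        rw [e3] at h3
        rw [e1]
        omega
      exact Nat.le_of_mul_le_mul_left h8 (by positivity))
  refine le_trans (sum_le_sum ?_) hmain
  intro q hq
  rw [mem_filter, mem_Ico] at hq
  obtain ⟨⟨hq1, hq2⟩, hq3, hq4⟩ := hq
  obtain ⟨h4, h5, h6, h7⟩ := hz q hq1 hq2
  have : ((Ico Y (Y + 2 ^ b * L)).filter
        (fun N => N % 2 ^ b = ((2 ^ i - 1) * q) % 2 ^ b ∧ ¬ RepN q σ a b w1 w2 i N)).card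
      ≤ ((Ico (zq q - K q) (zq q - K q + L)).filter (fun M => ¬ Rep q σ a b w1 w2 M)).card := by
    have hrep : ∀ N, Y ≤ N → N % 2 ^ b = ((2 ^ i - 1) * q) % 2 ^ b →
        ∃ z, N = C q + 2 ^ b * z ∧ (N - C q) / 2 ^ b = z := by
      intro N hN1 hN2
      have h8 : C q ≤ N := by omega
      have h9 : C q ≡ N [MOD 2 ^ b] := by
        unfold Nat.ModEq; rw [hN2]
      obtain ⟨z, hz⟩ := (Nat.modEq_iff_dvd' h8).mp h9
      refine ⟨z, by omega, ?_⟩
      rw [hz, Nat.mul_div_cancel_left _ (by positivity)]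
    apply card_le_card_of_injOn (fun N => (N - C q) / 2 ^ b - K q)
    · intro N hN
      rw [mem_coe, mem_filter, mem_Ico] at hN
      obtain ⟨⟨hN1, hN2⟩, hN3, hN4⟩ := hN
      obtain ⟨z, hz1, hz2⟩ := hrep N hN1 hN3
      rw [mem_coe, mem_filter, mem_Ico]
      simp only
      rw [hz2]
      have h10 : zq q ≤ z := by
        by_contra hlt
        push Not at hlt
        have : 2 ^ b * (z + 1) ≤ 2 ^ b * zq q := Nat.mul_le_mul_left _ hlt
        have : 2 ^ b * (z + 1) = 2 ^ b * z + 2 ^ b := by ring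
        omega
      have h11 : z < zq q + L := by
        by_contra hge
        push Not at hge
        have : 2 ^ b * (zq q + L) ≤ 2 ^ b * z := Nat.mul_le_mul_left _ hge
        have : 2 ^ b * (zq q + L) = 2 ^ b * zq q + 2 ^ b * L := by ring
        omega
      refine ⟨⟨by omega, by omega⟩, ?_⟩
      intro hr
      apply hN4
      refine ⟨z - K q, hr, ?_⟩
      rw [hz1]
      have h12 : K q + (z - K q) = z := by omega
      calc C q + 2 ^ b * z = C q + 2 ^ b * (K q + (z - K q)) := by rw [h12]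
        _ = _ := by rw [hC, hK]
    · intro N hN N' hN' hNN
      rw [mem_coe, mem_filter, mem_Ico] at hN hN'
      obtain ⟨⟨hN1, hN2⟩, hN3, hN4⟩ := hN
      obtain ⟨⟨hN1', hN2'⟩, hN3', hN4'⟩ := hN'
      obtain ⟨z, hz1, hz2⟩ := hrep N hN1 hN3
      obtain ⟨z', hz1', hz2'⟩ := hrep N' hN1' hN3'
      simp only at hNN
      rw [hz2, hz2'] at hNN
      have h10 : K q ≤ z := by
        by_contra hlt
        push Not at hlt
        have : 2 ^ b * (z + 1) ≤ 2 ^ b * K q := Nat.mul_le_mul_left _ hlt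
        have : 2 ^ b * (z + 1) = 2 ^ b * z + 2 ^ b := by ring
        omega
      have h10' : K q ≤ z' := by
        by_contra hlt
        push Not at hlt
        have : 2 ^ b * (z' + 1) ≤ 2 ^ b * K q := Nat.mul_le_mul_left _ hlt
        have : 2 ^ b * (z' + 1) = 2 ^ b * z' + 2 ^ b := by ring
        omega
      have : z = z' := by omega
      rw [hz1, hz1', this]
  exact_mod_cast this

end Pool.Agent.CC603
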