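import Pool.Agent.CC603.Level

/-!
Failures for a whole level and one window.
-/

namespace Pool.Agent.CC603

open Finset

lemma bb_add_kap {E : ℕ} (hE : 6 ≤ E) : bb E + kap E + 5 = E := by
  unfold bb kap
  have : E / 2 ^ 24 ≤ E - 5 := by
    have h1 : E / 2 ^ 24 ≤ E / 6 := Nat.div_le_div_left (by norm_num) (by norm_num)
    omega
  omega

/-- the number of residues modulo `2^bp` above a residue modulo `2^c0` -/
lemma card_class (c0 bp ρ : ℕ) (h : c0 ≤ bp) :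
    ((range (2 ^ bp)).filter (fun ξ => ξ % 2 ^ c0 = ρ)).card ≤ 2 ^ (bp - c0) := by
  have hp : 2 ^ bp = 2 ^ c0 * 2 ^ (bp - c0) := by rw [← pow_add]; congr 1; omega
  have : ((range (2 ^ bp)).filter (fun ξ => ξ % 2 ^ c0 = ρ)).card
      ≤ (range (2 ^ (bp - c0))).card := by
    apply card_le_card_of_injOn (fun ξ => ξ / 2 ^ c0)
    · intro ξ hξ
      rw [mem_coe, mem_filter, mem_range] at hξ
      rw [mem_coe, mem_range]
      rw [Nat.div_lt_iff_lt_mul (by positivity), mul_comm, ← hp]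
      exact hξ.1
    · intro ξ hξ ξ' hξ' hh
      rw [mem_coe, mem_filter, mem_range] at hξ hξ'
      simp only at hh
      have e1 := Nat.div_add_mod ξ (2 ^ c0)
      have e2 := Nat.div_add_mod ξ' (2 ^ c0)
      rw [hh, hξ.2] at e1
      rw [hξ'.2] at e2
      omega
  rwa [card_range] at this

/-- the number of `N` in a window whose residue modulo `2^b` is in a given set -/
lemma card_window (b Y L : ℕ) (S : Finset ℕ) (Q : ℕ → Prop) [DecidablePred Q]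
    (hQ : ∀ N, Y ≤ N → N < Y + 2 ^ b * L → Q N → N % 2 ^ b ∈ S) :
    ((Ico Y (Y + 2 ^ b * L)).filter Q).card ≤ S.card * L := by
  classical
  have hc : ∀ c, ((Ico Y (Y + 2 ^ b * L)).filter (fun N => N % 2 ^ b = c)).card ≤ L := by
    intro c
    have : ((Ico Y (Y + 2 ^ b * L)).filter (fun N => N % 2 ^ b = c)).card
        ≤ (range L).card := by
      apply card_le_card_of_injOn (fun N => (N - Y) / 2 ^ b)
      · intro N hN
        rw [mem_coe, mem_filter, mem_Ico] at hN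
        rw [mem_coe, mem_range]
        rw [Nat.div_lt_iff_lt_mul (by positivity)]
        have : L * 2 ^ b = 2 ^ b * L := by ring
        omega
      · intro N hN N' hN' hh
        rw [mem_coe, mem_filter, mem_Ico] at hN hN'
        simp only at hh
        obtain ⟨u, rfl⟩ : ∃ u, N = Y + u := ⟨N - Y, by omega⟩
        obtain ⟨u', rfl⟩ : ∃ u', N' = Y + u' := ⟨N' - Y, by omega⟩
        have h1 : (Y + u) ≡ (Y + u') [MOD 2 ^ b] := by
          unfold Nat.ModEq; rw [hN.2, hN'.2]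
        have h2 : u ≡ u' [MOD 2 ^ b] := Nat.ModEq.add_left_cancel' Y h1
        have h3 : Y + u - Y = u := by omega
        have h4 : Y + u' - Y = u' := by omega
        rw [h3, h4] at hh
        have h5 := Nat.div_add_mod u (2 ^ b)
        have h6 := Nat.div_add_mod u' (2 ^ b)
        unfold Nat.ModEq at h2
        rw [h2, hh] at h5
        omega
    rwa [card_range] at this
  calc ((Ico Y (Y + 2 ^ b * L)).filter Q).card
      ≤ (S.biUnion (fun c => (Ico Y (Y + 2 ^ b * L)).filter (fun N => N % 2 ^ b = c))).card := by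
        apply card_le_card
        intro N hN
        rw [mem_filter, mem_Ico] at hN
        rw [mem_biUnion]
        refine ⟨N % 2 ^ b, hQ N hN.1.1 hN.1.2 hN.2, ?_⟩
        rw [mem_filter, mem_Ico]
        exact ⟨hN.1, rfl⟩
    _ ≤ ∑ c ∈ S, ((Ico Y (Y + 2 ^ b * L)).filter (fun N => N % 2 ^ b = c)).card :=
        card_biUnion_le
    _ ≤ ∑ _c ∈ S, L := sum_le_sum (fun c _ => hc c)
    _ = S.card * L := by rw [sum_const, smul_eq_mul]

open Classical in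
/-- failures for a level and one window of `N` -/
theorem level_fail {c0 ρ E : ℕ} (hc0 : 1 ≤ c0) (hρ : Odd ρ)
    {bp : ℕ} {qh sh : ℕ → ℕ} {Ex : Finset ℕ} (hbp : c0 ≤ bp)
    (hgood : ∀ x < 2 ^ bb E, x % 2 ^ c0 = ρ → x ∉ Ex →
      GP E (qh x) (sh (x % 2 ^ bp)) ∧ qh x % 2 ^ bb E = x)
    {m e a w1 w2 j1 l θ i Y : ℕ} (h : Par m (bb E) bp e a E w1 w2 j1 l)
    (hθ1 : 1 ≤ θ) (hθ2 : θ ≤ 62)
    (hR1 : ∀ q σ, 3 * 2 ^ E ≤ q → q < 3 * 2 ^ E + 2 ^ (E - 5) → 2 ^ E ≤ σ →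
      1024 * σ ≤ 1025 * 2 ^ E →
      (θ + 2) * 2 ^ (a + E + w2 + bb E) + 64 * ((2 ^ i - 1) * q + 2 ^ bb E *
        (2 ^ (i + a + w1 - 1) * q + (q + (2 ^ a - 1) * σ) * (2 ^ w2 - 1))) ≤ 64 * Y)
    (hR2 : ∀ q σ, 3 * 2 ^ E ≤ q → q < 3 * 2 ^ E + 2 ^ (E - 5) → 2 ^ E ≤ σ →
      1024 * σ ≤ 1025 * 2 ^ E →
      2 ^ j1 * (64 * (Y + 2 ^ bb E * 2 ^ (a + w2 + E - l) + 2 ^ bb E))
        ≤ (2 ^ j1 * θ + 64) * 2 ^ (a + E + w2 + bb E)
          + 2 ^ j1 * (64 * ((2 ^ i - 1) * q + 2 ^ bb E *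
        (2 ^ (i + a + w1 - 1) * q + (q + (2 ^ a - 1) * σ) * (2 ^ w2 - 1))))) :
    (((Ico Y (Y + 2 ^ bb E * 2 ^ (a + w2 + E - l))).filter (fun N => ∃ x < 2 ^ bb E,
      x % 2 ^ c0 = ρ ∧ x ∉ Ex ∧ N % 2 ^ bb E = ((2 ^ i - 1) * x) % 2 ^ bb E ∧
      ¬ RepN (qh x) (sh (x % 2 ^ bp)) a (bb E) w1 w2 i N)).card : ℝ)
      ≤ 2 ^ kap E * 2 ^ (bb E - c0) * 2 ^ (a + w2 + E - l)
        * (2 ^ (l + 3) * (999 / 1000) ^ m) := by
  have hpar := h
  obtain ⟨hm, hb1, hb2, he1, he2, hw2, hgp, hg, hj, hj1, hj3, hbp1, hbp2, hl3, hlm, hE⟩ := h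
  have hE6 : 6 ≤ E := by omega
  have hEk := bb_add_kap hE6
  set b := bb E with hb
  set L := 2 ^ (a + w2 + E - l) with hL
  set Er : ℝ := 2 ^ (l + 3) * (999 / 1000) ^ m with hEr
  have hEr0 : 0 ≤ Er := by positivity
  have hE5 : 2 ^ (E - 5) = 2 ^ b * 2 ^ kap E := by
    rw [← pow_add]; congr 1; omega
  have hE5' : 32 * 2 ^ (E - 5) = 2 ^ E := by
    have : E = (E - 5) + 5 := by omega
    conv_rhs => rw [this, pow_add]
    ring
  set FN : ℕ → ℕ → Finset ℕ := fun ξ q => (Ico Y (Y + 2 ^ b * L)).filter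
    (fun N => N % 2 ^ b = ((2 ^ i - 1) * q) % 2 ^ b ∧ ¬ RepN q (sh ξ) a b w1 w2 i N) with hFN
  set QQ : ℕ → ℕ → Finset ℕ := fun ξ u => (Ico (3 * 2 ^ E + 2 ^ b * u)
    (3 * 2 ^ E + 2 ^ b * u + 2 ^ b)).filter
    (fun q => q % 2 ^ bp = ξ % 2 ^ bp ∧ Nat.Coprime q (sh ξ)) with hQQ
  set Xi := (range (2 ^ bp)).filter (fun ξ => ξ % 2 ^ c0 = ρ ∧
    2 ^ E ≤ sh ξ ∧ 1024 * sh ξ ≤ 1025 * 2 ^ E ∧ Even (sh ξ)) with hXi
  have hbpb : bp ≤ b := by omega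
  -- inclusion
  have hsub : (Ico Y (Y + 2 ^ b * L)).filter (fun N => ∃ x < 2 ^ b,
      x % 2 ^ c0 = ρ ∧ x ∉ Ex ∧ N % 2 ^ b = ((2 ^ i - 1) * x) % 2 ^ b ∧
      ¬ RepN (qh x) (sh (x % 2 ^ bp)) a b w1 w2 i N) ⊆
      Xi.biUnion (fun ξ => (range (2 ^ kap E)).biUnion (fun u =>
        (QQ ξ u).biUnion (fun q => FN ξ q))) := by
    intro N hN
    rw [mem_filter] at hN
    obtain ⟨hN1, x, hx1, hx2, hx3, hx4, hx5⟩ := hN
    obtain ⟨hGP, hqx⟩ := hgood x hx1 hx2 hx3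
    have hq1 := hGP.q1
    have hq2 := hGP.q2
    have hs2 := hGP.s2
    rw [mem_biUnion]
    refine ⟨x % 2 ^ bp, ?_, ?_⟩
    · rw [hXi, mem_filter, mem_range]
      refine ⟨Nat.mod_lt _ (by positivity), ?_, hGP.s1, le_trans (Nat.le_add_right _ _) hs2, hGP.ev⟩
      rw [Nat.mod_mod_of_dvd _ (pow_dvd_pow 2 hbp)]
      exact hx2
    · rw [mem_biUnion]
      refine ⟨(qh x - 3 * 2 ^ E) / 2 ^ b, ?_, ?_⟩
      · rw [mem_range, Nat.div_lt_iff_lt_mul (by positivity), mul_comm (2 ^ kap E) (2 ^ b),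
          ← hE5]
        omega
      · rw [mem_biUnion]
        refine ⟨qh x, ?_, ?_⟩
        · rw [hQQ]
          simp only
          rw [mem_filter, mem_Ico]
          have h1 := Nat.div_add_mod (qh x - 3 * 2 ^ E) (2 ^ b)
          have h2 := Nat.mod_lt (qh x - 3 * 2 ^ E) (show 0 < 2 ^ b by positivity)
          refine ⟨⟨by omega, by omega⟩, ?_, hGP.cop⟩
          rw [Nat.mod_mod]
          have h3 : qh x % 2 ^ b % 2 ^ bp = x % 2 ^ bp := by rw [hqx]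
          rwa [Nat.mod_mod_of_dvd _ (pow_dvd_pow 2 hbpb)] at h3
        · rw [hFN]
          simp only
          rw [mem_filter]
          refine ⟨hN1, ?_, hx5⟩
          rw [hx4, Nat.mul_mod (2 ^ i - 1) (qh x), hqx, ← Nat.mul_mod_mod,
            Nat.mod_eq_of_lt hx1, Nat.mod_mul_mod]
  -- the count
  have h1 := card_le_card hsub
  have hcount : ((Xi.biUnion (fun ξ => (range (2 ^ kap E)).biUnion (fun u =>
        (QQ ξ u).biUnion (fun q => FN ξ q)))).card : ℝ)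
      ≤ ∑ ξ ∈ Xi, ∑ u ∈ range (2 ^ kap E), ∑ q ∈ QQ ξ u, ((FN ξ q).card : ℝ) := by
    have : (Xi.biUnion (fun ξ => (range (2 ^ kap E)).biUnion (fun u =>
        (QQ ξ u).biUnion (fun q => FN ξ q)))).card
      ≤ ∑ ξ ∈ Xi, ∑ u ∈ range (2 ^ kap E), ∑ q ∈ QQ ξ u, (FN ξ q).card := by
      refine le_trans card_biUnion_le (sum_le_sum (fun ξ _ => ?_))
      refine le_trans card_biUnion_le (sum_le_sum (fun u _ => ?_))
      exact card_biUnion_le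
    exact_mod_cast this
  have hinner : ∀ ξ ∈ Xi, ∀ u ∈ range (2 ^ kap E), ∑ q ∈ QQ ξ u, ((FN ξ q).card : ℝ)
      ≤ 2 ^ (b - bp) * 2 ^ (a + w2 + E - l) * Er := by
    intro ξ hξ u hu
    rw [hXi, mem_filter, mem_range] at hξ
    rw [mem_range] at hu
    obtain ⟨hξ1, hξ2, hξ3, hξ4, hξ5⟩ := hξ
    have hodd : Odd ξ := by
      rw [Nat.odd_iff] at hρ ⊢
      have h2 : 2 ∣ 2 ^ c0 := dvd_pow_self 2 (by omega)
      have h3 : ξ % 2 ^ c0 % 2 = ξ % 2 := Nat.mod_mod_of_dvd _ h2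
      omega
    have hu2 : 2 ^ b * u + 2 ^ b ≤ 2 ^ (E - 5) := by
      rw [hE5]
      calc 2 ^ b * u + 2 ^ b = 2 ^ b * (u + 1) := by ring
        _ ≤ 2 ^ b * 2 ^ kap E := Nat.mul_le_mul_left _ hu
    exact fail_count hpar (σ := sh ξ) (X0 := 3 * 2 ^ E + 2 ^ b * u) (ξ := ξ) (θ := θ) (i := i)
      (Y := Y) hξ3 hξ4 hξ5 hodd (by omega) (by omega) hθ1 hθ2
      (fun q h3 h4 => hR1 q (sh ξ) (by omega) (by omega) hξ3 hξ4)
      (fun q h3 h4 => hR2 q (sh ξ) (by omega) (by omega) hξ3 hξ4)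
  have hXic : (Xi.card : ℝ) ≤ 2 ^ (bp - c0) := by
    have h2 : Xi.card ≤ ((range (2 ^ bp)).filter (fun ξ => ξ % 2 ^ c0 = ρ)).card := by
      apply card_le_card
      intro ξ hξ
      rw [hXi, mem_filter] at hξ
      rw [mem_filter]
      exact ⟨hξ.1, hξ.2.1⟩
    exact_mod_cast le_trans h2 (card_class c0 bp ρ hbp)
  calc (((Ico Y (Y + 2 ^ b * L)).filter (fun N => ∃ x < 2 ^ b,
      x % 2 ^ c0 = ρ ∧ x ∉ Ex ∧ N % 2 ^ b = ((2 ^ i - 1) * x) % 2 ^ b ∧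
      ¬ RepN (qh x) (sh (x % 2 ^ bp)) a b w1 w2 i N)).card : ℝ)
      ≤ ((Xi.biUnion (fun ξ => (range (2 ^ kap E)).biUnion (fun u =>
        (QQ ξ u).biUnion (fun q => FN ξ q)))).card : ℝ) := by exact_mod_cast h1
    _ ≤ ∑ ξ ∈ Xi, ∑ u ∈ range (2 ^ kap E), ∑ q ∈ QQ ξ u, ((FN ξ q).card : ℝ) := hcount
    _ ≤ ∑ _ξ ∈ Xi, ∑ _u ∈ range (2 ^ kap E), (2 ^ (b - bp) * 2 ^ (a + w2 + E - l) * Er) :=
        sum_le_sum (fun ξ hξ => sum_le_sum (fun u hu => hinner ξ hξ u hu))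
    _ = Xi.card * (2 ^ kap E * (2 ^ (b - bp) * 2 ^ (a + w2 + E - l) * Er)) := by
        rw [sum_const, sum_const, card_range, nsmul_eq_mul, nsmul_eq_mul]
        push_cast; ring
    _ ≤ 2 ^ (bp - c0) * (2 ^ kap E * (2 ^ (b - bp) * 2 ^ (a + w2 + E - l) * Er)) := by
        apply mul_le_mul_of_nonneg_right hXic (by positivity)
    _ = 2 ^ kap E * (2 ^ (bp - c0) * 2 ^ (b - bp)) * 2 ^ (a + w2 + E - l) * Er := by ring
    _ = 2 ^ kap E * 2 ^ (b - c0) * 2 ^ (a + w2 + E - l) * Er := by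
        rw [← pow_add 2 (bp - c0)]
        congr 4
        omega

end Pool.Agent.CC603
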