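import Pool.Agent.CC603.Level2
import Pool.Agent.CC603.Lift

/-!
Passing to a new level.
-/

namespace Pool.Agent.CC603

open Finset

lemma two_BB {q σ a b w2 i : ℕ} (h : 1 ≤ b + w2) :
    2 * BB q σ a b w2 i = 2 * ((2 ^ i - 1) * q) + 2 ^ (b + w2) * (q + (2 ^ a - 1) * σ) := by
  have e : 2 ^ (b + w2) = 2 * 2 ^ (b + w2 - 1) := by
    rw [← pow_succ']; congr 1; omega
  rw [e]; unfold BB; ring

lemma GP.odd {E q σ : ℕ} (hg : GP E q σ) : Odd q := by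
  rw [← Nat.not_even_iff_odd]
  intro h
  have h1 := hg.cop
  have h2 := hg.ev
  have h3 : 2 ∣ Nat.gcd q σ := Nat.dvd_gcd h.two_dvd h2.two_dvd
  rw [h1] at h3
  omega

lemma GP.le {E q σ : ℕ} (hg : GP E q σ) : σ ≤ q := by
  have h1 := hg.s2
  have h2 := hg.q1
  have h3 := Nat.one_le_two_pow (n := E)
  have h4 := Nat.one_le_two_pow (n := E - E / 4)
  omega

lemma GP.main {E q σ a : ℕ} (hg : GP E q σ) :
    2 ^ a * 2 ^ E ≤ q + (2 ^ a - 1) * σ ∧ 1024 * (q + (2 ^ a - 1) * σ) ≤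
      4096 * 2 ^ E + 2 ^ a * (1024 * σ) := by
  have h1 := hg.le
  have h2 := hg.s1
  have h3 := hg.q2
  have h4 : 2 ^ (E - 5) ≤ 2 ^ E := Nat.pow_le_pow_right (by norm_num) (by omega)
  obtain ⟨c, hc⟩ : ∃ c, 2 ^ a = c + 1 := ⟨2 ^ a - 1, by have := Nat.one_le_two_pow (n := a); omega⟩
  rw [hc]
  simp only [Nat.add_sub_cancel]
  constructor
  · have : c * 2 ^ E ≤ c * σ := Nat.mul_le_mul_left _ h2
    have e : (c + 1) * 2 ^ E = c * 2 ^ E + 2 ^ E := by ring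
    omega
  · have e : (c + 1) * (1024 * σ) = 1024 * (c * σ) + 1024 * σ := by ring
    have e2 : 1024 * (q + c * σ) = 1024 * q + 1024 * (c * σ) := by ring
    omega

/-- half of the partner is odd and small -/
theorem bb_facts {E F q σ a b w1 w2 i : ℕ} (hg : GP E q σ) (hE : 100 ≤ E)
    (hEF : 4956 * E ≤ 1000 * F) (hF : a + E + w2 + b = F) (ha : E / 2 + 20 ≤ a)
    (hb : 1 ≤ b) (_hw1 : 1 ≤ w1) (hw2 : 1 ≤ w2) (hi1 : 1 ≤ i) (hi3 : i ≤ 3) :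
    2 ^ F ≤ 2 * BB q σ a b w2 i ∧
    1024 * (2 * BB q σ a b w2 i) + 2 ^ (F - F / 4) ≤ 1025 * 2 ^ F ∧
      Odd (BB q σ a b w2 i) := by
  have hm := hg.main (a := a)
  have hs2 := hg.s2
  have hq2 := hg.q2
  have h4 : 2 ^ (E - 5) ≤ 2 ^ E := Nat.pow_le_pow_right (by norm_num) (by omega)
  have hodd := hg.odd
  have e1 : 2 ^ F = 2 ^ (b + w2) * (2 ^ a * 2 ^ E) := by
    rw [← pow_add, ← pow_add]; congr 1; omega
  have h7 : 2 ^ i - 1 ≤ 7 := by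
    have : 2 ^ i ≤ 2 ^ 3 := Nat.pow_le_pow_right (by norm_num) hi3
    omega
  rw [two_BB (by omega)]
  refine ⟨?_, ?_, ?_⟩
  · rw [e1]
    exact le_trans (Nat.mul_le_mul_left _ hm.1) (Nat.le_add_left _ _)
  · have a1 : 1024 * (2 * ((2 ^ i - 1) * q)) ≤ 2 ^ (F - E / 4 - 2) := by
      calc 1024 * (2 * ((2 ^ i - 1) * q)) ≤ 1024 * (2 * (7 * (4 * 2 ^ E))) := by
            apply Nat.mul_le_mul_left
            apply Nat.mul_le_mul_left
            exact Nat.mul_le_mul h7 (by omega)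
        _ ≤ 2 ^ 16 * 2 ^ E := by omega
        _ = 2 ^ (16 + E) := by rw [← pow_add]
        _ ≤ 2 ^ (F - E / 4 - 2) := Nat.pow_le_pow_right (by norm_num) (by omega)
    have a2 : 2 ^ (b + w2) * (4096 * 2 ^ E) ≤ 2 ^ (F - E / 4 - 2) := by
      calc 2 ^ (b + w2) * (4096 * 2 ^ E) = 2 ^ (b + w2 + (12 + E)) := by
            rw [pow_add 2 (b + w2) (12 + E), pow_add 2 12 E]; norm_num
        _ ≤ 2 ^ (F - E / 4 - 2) := Nat.pow_le_pow_right (by norm_num) (by omega)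
    have a3 : 2 ^ (F - F / 4) ≤ 2 ^ (F - E / 4 - 2) :=
      Nat.pow_le_pow_right (by norm_num) (by omega)
    have a4 : 2 ^ (b + w2) * (2 ^ a * (1024 * σ)) + 2 ^ (F - E / 4) ≤ 1025 * 2 ^ F := by
      calc 2 ^ (b + w2) * (2 ^ a * (1024 * σ)) + 2 ^ (F - E / 4)
          = 2 ^ (b + w2) * 2 ^ a * (1024 * σ + 2 ^ (E - E / 4)) := by
            have : 2 ^ (F - E / 4) = 2 ^ (b + w2) * 2 ^ a * 2 ^ (E - E / 4) := by
              rw [← pow_add, ← pow_add]; congr 1; omega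
            rw [this]; ring
        _ ≤ 2 ^ (b + w2) * 2 ^ a * (1025 * 2 ^ E) := Nat.mul_le_mul_left _ hs2
        _ = 1025 * 2 ^ F := by rw [e1]; ring
    have a5 : 2 ^ (F - E / 4) = 4 * 2 ^ (F - E / 4 - 2) := by
      have : F - E / 4 = (F - E / 4 - 2) + 2 := by omega
      conv_lhs => rw [this, pow_add]
      ring
    have a6 : 1024 * (2 ^ (b + w2) * (q + (2 ^ a - 1) * σ)) ≤
        2 ^ (b + w2) * (4096 * 2 ^ E) + 2 ^ (b + w2) * (2 ^ a * (1024 * σ)) := by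
      calc 1024 * (2 ^ (b + w2) * (q + (2 ^ a - 1) * σ))
          = 2 ^ (b + w2) * (1024 * (q + (2 ^ a - 1) * σ)) := by ring
        _ ≤ 2 ^ (b + w2) * (4096 * 2 ^ E + 2 ^ a * (1024 * σ)) := Nat.mul_le_mul_left _ hm.2
        _ = _ := by ring
    have e3 : 1024 * (2 * ((2 ^ i - 1) * q) + 2 ^ (b + w2) * (q + (2 ^ a - 1) * σ))
        = 1024 * (2 * ((2 ^ i - 1) * q)) + 1024 * (2 ^ (b + w2) * (q + (2 ^ a - 1) * σ)) := by
      ring
    omega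
  · unfold BB
    have o1 : Odd (2 ^ i - 1) := by
      obtain ⟨k, rfl⟩ : ∃ k, i = k + 1 := ⟨i - 1, by omega⟩
      refine ⟨2 ^ k - 1, ?_⟩
      have := Nat.one_le_two_pow (n := k)
      rw [pow_succ]; omega
    have o2 : Even (2 ^ (b + w2 - 1) * (q + (2 ^ a - 1) * σ)) := by
      apply Even.mul_right
      exact (Nat.even_pow.mpr ⟨even_two, by omega⟩)
    exact (o1.mul hodd).add_even o2

/-- the new pair is good -/
theorem new_gp {E F q σ a b w1 w2 i N : ℕ} (hg : GP E q σ) (hE : 100 ≤ E)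
    (hEF : 4956 * E ≤ 1000 * F) (hF : a + E + w2 + b = F) (ha : E / 2 + 20 ≤ a)
    (hb : 1 ≤ b) (hw1 : 1 ≤ w1) (hw2 : 1 ≤ w2) (hi1 : 1 ≤ i) (hi3 : i ≤ 3)
    (hr : RepN q σ a b w1 w2 i N) (hN1 : 3 * 2 ^ F ≤ N) (hN2 : N < 3 * 2 ^ F + 2 ^ (F - 5))
    (hc : Nat.Coprime N (BB q σ a b w2 i)) : GP F N (2 * BB q σ a b w2 i) := by
  obtain ⟨h1, h2, h3⟩ := bb_facts (w1 := w1) hg hE hEF hF ha hb hw1 hw2 hi1 hi3
  refine ⟨hr.prof hg.prof hw1 hw2, ?_, ⟨BB q σ a b w2 i, by ring⟩, h1, h2, hN1, hN2⟩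
  apply Nat.Coprime.mul_right _ hc
  rw [Nat.coprime_comm, Nat.coprime_two_left]
  obtain ⟨M, _, rfl⟩ := hr
  have o1 : Odd (2 ^ i - 1) := by
    obtain ⟨k, rfl⟩ : ∃ k, i = k + 1 := ⟨i - 1, by omega⟩
    refine ⟨2 ^ k - 1, ?_⟩
    have := Nat.one_le_two_pow (n := k)
    rw [pow_succ]; omega
  exact (o1.mul hg.odd).add_even (Even.mul_right (Nat.even_pow.mpr ⟨even_two, by omega⟩) _)

open Classical in
/-- a new level from a family of pairs indexed by the residue of the new number -/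
theorem new_level : ∃ E0, ∀ E ≥ E0, ∀ F, 4956 * E ≤ 1000 * F → 1000 * F ≤ 4961 * E →
    ∀ (c0 ρ a w1 w2 i : ℕ) (Q S : ℕ → ℕ) (Y0 : Finset ℕ) (η δ : ℝ),
    c0 ≤ bb E → a + E + w2 + bb E = F → E / 2 + 20 ≤ a → 1 ≤ w1 → 1 ≤ w2 → 1 ≤ i → i ≤ 3 →
    (∀ y ∈ Y0, GP E (Q y) (S y)) →
    (((range (2 ^ bb F)).filter (fun x => x % 2 ^ c0 = ρ ∧ x % 2 ^ bb E ∉ Y0)).card : ℝ)
      ≤ η * 2 ^ (bb F - c0) →
    ((∑ u ∈ range (2 ^ kap F), ((Ico (3 * 2 ^ F + 2 ^ bb F * u)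
      (3 * 2 ^ F + 2 ^ bb F * u + 2 ^ bb F)).filter (fun N => N % 2 ^ bb E ∈ Y0 ∧
        ¬ RepN (Q (N % 2 ^ bb E)) (S (N % 2 ^ bb E)) a (bb E) w1 w2 i N)).card : ℕ) : ℝ)
      ≤ δ * 2 ^ (bb F - c0) →
    Lvl c0 ρ F (η + δ) := by
  obtain ⟨E0, hlift⟩ := coprime_lift (2 ^ 24) (by positivity)
  refine ⟨max E0 100, fun E hE F h1 h2 c0 ρ a w1 w2 i Q S Y0 η δ hc0 hF ha hw1 hw2 hi1 hi3
    hgp hη hδ => ?_⟩
  have hE1 : 100 ≤ E := le_trans (le_max_right _ _) hE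
  have hE0 : E0 ≤ F := le_trans (le_trans (le_max_left _ _) hE) (by omega)
  have hk1 : bb F + kap F + 5 = F := bb_add_kap (by omega)
  have hk2 : bb E + kap E + 5 = E := bb_add_kap (by omega)
  have hk3 : kap E ≤ E / 100 := Nat.div_le_div_left (by norm_num) (by norm_num)
  have hk4 : kap F ≤ F / 100 := Nat.div_le_div_left (by norm_num) (by norm_num)
  have hlift' : ∀ B d x : ℕ, 0 < B → B < 2 ^ (2 * F) → Nat.Coprime d B →
    ∃ u < 2 ^ kap F, Nat.Coprime (x + d * u) B := hlift F hE0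
  clear hlift
  set b := bb E with hb
  set b' := bb F with hb'
  have hbb : b ≤ b' := by omega
  have hb1 : 1 ≤ b := by omega
  have hF5 : 2 ^ b' * 2 ^ kap F = 2 ^ (F - 5) := by rw [← pow_add]; congr 1; omega
  have hmodN : ∀ x u, (3 * 2 ^ F + x + 2 ^ b' * u) % 2 ^ b = x % 2 ^ b := by
    intro x u
    obtain ⟨c, hc⟩ := pow_dvd_pow 2 (show b ≤ F by omega)
    obtain ⟨d, hd⟩ := pow_dvd_pow 2 hbb
    have : 3 * 2 ^ F + x + 2 ^ b' * u = x + 2 ^ b * (3 * c + d * u) := by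
      rw [hc, hd]; ring
    rw [this, Nat.add_mul_mod_self_left]
  have hmodN' : ∀ x u, (3 * 2 ^ F + x + 2 ^ b' * u) % 2 ^ b' = x % 2 ^ b' := by
    intro x u
    obtain ⟨c, hc⟩ := pow_dvd_pow 2 (show b' ≤ F by omega)
    have : 3 * 2 ^ F + x + 2 ^ b' * u = x + 2 ^ b' * (3 * c + u) := by
      rw [hc]; ring
    rw [this, Nat.add_mul_mod_self_left]
  have hex : ∀ x : ℕ, ∃ u < 2 ^ kap F, x % 2 ^ b ∈ Y0 →
      Nat.Coprime (3 * 2 ^ F + x + 2 ^ b' * u)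
        (BB (Q (x % 2 ^ b)) (S (x % 2 ^ b)) a b w2 i) := by
    intro x
    by_cases hx : x % 2 ^ b ∈ Y0
    · obtain ⟨f1, f2, f3⟩ := bb_facts (w1 := w1) (hgp _ hx) hE1 h1 hF ha hb1 hw1 hw2 hi1 hi3
      obtain ⟨u, hu, hu2⟩ := hlift' (BB (Q (x % 2 ^ b)) (S (x % 2 ^ b)) a b w2 i) (2 ^ b')
        (3 * 2 ^ F + x) f3.pos (by
          have e1 : (2:ℕ) ^ (2 * F) = 2 ^ F * 2 ^ F := by rw [← pow_add]; congr 1; omega
          have e2 : 4 ≤ 2 ^ F := by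
            calc 4 = 2 ^ 2 := by norm_num
              _ ≤ 2 ^ F := Nat.pow_le_pow_right (by norm_num) (by omega)
          have e3 : 4 * 2 ^ F ≤ 2 ^ F * 2 ^ F := Nat.mul_le_mul_right _ e2
          have e4 := Nat.one_le_two_pow (n := F - F / 4)
          rw [e1]; omega) (by
          apply Nat.Coprime.pow_left
          rw [Nat.coprime_two_left]; exact f3)
      exact ⟨u, hu, fun _ => hu2⟩
    · exact ⟨0, by positivity, fun h => absurd h hx⟩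
  choose uu huu hcop using hex
  refine ⟨b, fun x => 3 * 2 ^ F + x + 2 ^ b' * uu x,
    fun y => 2 * BB (Q y) (S y) a b w2 i,
    (range (2 ^ b')).filter (fun x => x % 2 ^ c0 = ρ ∧ (x % 2 ^ b ∉ Y0 ∨
      ¬ RepN (Q (x % 2 ^ b)) (S (x % 2 ^ b)) a b w1 w2 i (3 * 2 ^ F + x + 2 ^ b' * uu x))),
    hc0, ?_, filter_subset _ _, ?_, ?_⟩
  · show 4 * b ≤ b'
    omega
  · set A := (range (2 ^ b')).filter (fun x => x % 2 ^ c0 = ρ ∧ x % 2 ^ b ∉ Y0) with hA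
    set W := fun u => (Ico (3 * 2 ^ F + 2 ^ b' * u)
      (3 * 2 ^ F + 2 ^ b' * u + 2 ^ b')).filter (fun N => N % 2 ^ b ∈ Y0 ∧
        ¬ RepN (Q (N % 2 ^ b)) (S (N % 2 ^ b)) a b w1 w2 i N) with hW
    set B := fun u => (range (2 ^ b')).filter (fun x => x % 2 ^ b ∈ Y0 ∧ uu x = u ∧
      ¬ RepN (Q (x % 2 ^ b)) (S (x % 2 ^ b)) a b w1 w2 i (3 * 2 ^ F + x + 2 ^ b' * uu x)) with hB
    have hBW : ∀ u, (B u).card ≤ (W u).card := by
      intro u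
      apply card_le_card_of_injOn (fun x => 3 * 2 ^ F + x + 2 ^ b' * u)
      · intro x hx
        rw [hB, mem_coe, mem_filter, mem_range] at hx
        obtain ⟨hx1, hx2, hx3, hx4⟩ := hx
        rw [hW, mem_coe, mem_filter, mem_Ico]
        simp only
        rw [hmodN]
        rw [hx3] at hx4
        exact ⟨⟨by omega, by omega⟩, hx2, hx4⟩
      · intro x _ x' _ hxx
        simp only at hxx
        omega
    have hcov : (range (2 ^ b')).filter (fun x => x % 2 ^ c0 = ρ ∧ (x % 2 ^ b ∉ Y0 ∨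
      ¬ RepN (Q (x % 2 ^ b)) (S (x % 2 ^ b)) a b w1 w2 i (3 * 2 ^ F + x + 2 ^ b' * uu x)))
        ⊆ A ∪ (range (2 ^ kap F)).biUnion B := by
      intro x hx
      rw [mem_filter, mem_range] at hx
      obtain ⟨hx1, hx2, hx3⟩ := hx
      by_cases hy : x % 2 ^ b ∈ Y0
      · rw [mem_union]; right
        rw [mem_biUnion]
        refine ⟨uu x, mem_range.mpr (huu x), ?_⟩
        rw [hB]
        simp only
        rw [mem_filter, mem_range]
        refine ⟨hx1, hy, rfl, ?_⟩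
        rcases hx3 with h | h
        · exact absurd hy h
        · exact h
      · rw [mem_union]; left
        rw [hA, mem_filter, mem_range]
        exact ⟨hx1, hx2, hy⟩
    have hcard : ((range (2 ^ b')).filter (fun x => x % 2 ^ c0 = ρ ∧ (x % 2 ^ b ∉ Y0 ∨
      ¬ RepN (Q (x % 2 ^ b)) (S (x % 2 ^ b)) a b w1 w2 i
        (3 * 2 ^ F + x + 2 ^ b' * uu x)))).card ≤ A.card + ∑ u ∈ range (2 ^ kap F), (W u).card := by
      refine le_trans (card_le_card hcov) (le_trans (card_union_le _ _) ?_)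
      apply Nat.add_le_add_left
      exact le_trans card_biUnion_le (sum_le_sum (fun u _ => hBW u))
    calc (((range (2 ^ b')).filter (fun x => x % 2 ^ c0 = ρ ∧ (x % 2 ^ b ∉ Y0 ∨
      ¬ RepN (Q (x % 2 ^ b)) (S (x % 2 ^ b)) a b w1 w2 i
        (3 * 2 ^ F + x + 2 ^ b' * uu x)))).card : ℝ)
        ≤ ((A.card + ∑ u ∈ range (2 ^ kap F), (W u).card : ℕ) : ℝ) := by exact_mod_cast hcard
      _ = (A.card : ℝ) + ((∑ u ∈ range (2 ^ kap F), (W u).card : ℕ) : ℝ) := by push_cast; ring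
      _ ≤ η * 2 ^ (b' - c0) + δ * 2 ^ (b' - c0) := add_le_add hη hδ
      _ = (η + δ) * 2 ^ (b' - c0) := by ring
  · intro x hx hxc hxE
    rw [← hb'] at hx
    rw [mem_filter, mem_range] at hxE
    have hxE' : x % 2 ^ b ∈ Y0 ∧ RepN (Q (x % 2 ^ b)) (S (x % 2 ^ b)) a b w1 w2 i
        (3 * 2 ^ F + x + 2 ^ b' * uu x) := by
      by_contra hcon
      apply hxE
      refine ⟨hx, hxc, ?_⟩
      by_cases hy : x % 2 ^ b ∈ Y0
      · right
        intro hr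
        exact hcon ⟨hy, hr⟩
      · left; exact hy
    obtain ⟨hy, hr⟩ := hxE'
    have hle : 2 ^ b' * (uu x + 1) ≤ 2 ^ (F - 5) := by
      rw [← hF5]; exact Nat.mul_le_mul_left _ (huu x)
    have e5 : 2 ^ b' * (uu x + 1) = 2 ^ b' * uu x + 2 ^ b' := by ring
    show GP F (3 * 2 ^ F + x + 2 ^ b' * uu x)
      (2 * BB (Q (x % 2 ^ b)) (S (x % 2 ^ b)) a b w2 i) ∧
      (3 * 2 ^ F + x + 2 ^ b' * uu x) % 2 ^ b' = x
    refine ⟨new_gp (hgp _ hy) hE1 h1 hF ha hb1 hw1 hw2 hi1 hi3 hr (by omega) (by omega)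
      (hcop x hy), ?_⟩
    rw [hmodN', Nat.mod_eq_of_lt hx]

end Pool.Agent.CC603
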