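import Pool.Agent.CC603.Basic

/-!
Counting lemmas for the search theorem.
-/

namespace Pool.Agent.CC603

open Finset

/-- numbers in an interval in one residue class -/
lemma card_mod_le (I L R c : ℕ) (hR : 0 < R) :
    ((Ico I (I + L)).filter (fun M => M % R = c)).card ≤ L / R + 1 := by
  classical
  have : ((Ico I (I + L)).filter (fun M => M % R = c)).card ≤ (range (L / R + 1)).card := by
    apply card_le_card_of_injOn (fun M => (M - I) / R)
    · intro M hM
      simp only [coe_filter, mem_Ico, Set.mem_ofPred_eq] at hM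
      simp only [coe_range, Set.mem_Iio]
      have : (M - I) / R ≤ L / R := Nat.div_le_div_right (by omega)
      omega
    · intro M hM M' hM' h
      simp only [coe_filter, mem_Ico, Set.mem_ofPred_eq] at hM hM'
      simp only at h
      obtain ⟨u, rfl⟩ : ∃ u, M = I + u := ⟨M - I, by omega⟩
      obtain ⟨u', rfl⟩ : ∃ u', M' = I + u' := ⟨M' - I, by omega⟩
      have h1 : (I + u) ≡ (I + u') [MOD R] := by
        unfold Nat.ModEq; rw [hM.2, hM'.2]
      have h2 : u ≡ u' [MOD R] := Nat.ModEq.add_left_cancel' I h1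
      have h3 : I + u - I = u := by omega
      have h4 : I + u' - I = u' := by omega
      rw [h3, h4] at h
      have h5 := Nat.div_add_mod u R
      have h6 := Nat.div_add_mod u' R
      unfold Nat.ModEq at h2
      rw [h2, h] at h5
      omega
  simpa using this

/-- numbers in an interval determined modulo `R` by a parameter from a finite set -/
lemma card_param_le {ι : Type*} (S : Finset ι) (I L R : ℕ) (hR : 0 < R) (c : ι → ℕ)
    (Q : ℕ → Prop) [DecidablePred Q]
    (hQ : ∀ M, I ≤ M → M < I + L → Q M → ∃ x ∈ S, M % R = c x) :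
    ((Ico I (I + L)).filter Q).card ≤ S.card * (L / R + 1) := by
  classical
  calc ((Ico I (I + L)).filter Q).card
      ≤ (S.biUnion (fun x => (Ico I (I + L)).filter (fun M => M % R = c x))).card := by
        apply card_le_card
        intro M hM
        simp only [mem_filter, mem_Ico] at hM
        obtain ⟨x, hx, hc⟩ := hQ M hM.1.1 hM.1.2 hM.2
        simp only [mem_biUnion, mem_filter, mem_Ico]
        exact ⟨x, hx, hM.1, hc⟩
    _ ≤ ∑ x ∈ S, ((Ico I (I + L)).filter (fun M => M % R = c x)).card := card_biUnion_le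
    _ ≤ ∑ _x ∈ S, (L / R + 1) := sum_le_sum (fun x _ => card_mod_le I L R _ hR)
    _ = S.card * (L / R + 1) := by simp

/-- the number of `g < 2^w1` whose middle bits lie in `A` (few ones) but with many ones -/
lemma count_g {m b bp e a w1 n thr : ℕ} (A : Finset ℕ) (β : ℝ)
    (hn : bp + e + n = b) (hb : b ≤ w1)
    (hA : ∀ v ∈ A, v < 2 ^ n ∧ pc v ≤ thr)
    (hch : (((range (2 ^ (w1 - n))).filter (fun x => (w1 - n) + 2 * m ≤ 2 * pc x)).card : ℝ)
      ≤ 2 ^ (w1 - n) * β)
    (hth : w1 - n + 2 * m + 2 * thr ≤ 2 * a + 2) :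
    (((range (2 ^ w1)).filter
      (fun g => g % 2 ^ b / 2 ^ (bp + e) ∈ A ∧ a < pc g)).card : ℝ)
      ≤ A.card * (2 ^ (w1 - n) * β) := by
  classical
  set B := (range (2 ^ (w1 - n))).filter (fun x => (w1 - n) + 2 * m ≤ 2 * pc x) with hB
  have hcard : ((range (2 ^ w1)).filter
      (fun g => g % 2 ^ b / 2 ^ (bp + e) ∈ A ∧ a < pc g)).card ≤ (A ×ˢ B).card := by
    apply card_le_card_of_injOn
      (fun g => (g % 2 ^ b / 2 ^ (bp + e), g % 2 ^ (bp + e) + 2 ^ (bp + e) * (g / 2 ^ b)))
    · intro g hg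
      simp only [coe_filter, mem_range, Set.mem_ofPred_eq] at hg
      obtain ⟨hg1, hg2, hg3⟩ := hg
      have hv := hA _ hg2
      simp only [coe_product, Set.mem_prod, mem_coe]
      refine ⟨hg2, ?_⟩
      have hlo : g % 2 ^ (bp + e) < 2 ^ (bp + e) := Nat.mod_lt _ (by positivity)
      have hhi : g / 2 ^ b < 2 ^ (w1 - b) := by
        rw [Nat.div_lt_iff_lt_mul (by positivity), ← pow_add]
        have : w1 - b + b = w1 := by omega
        rwa [this]
      have hw : w1 - n = bp + e + (w1 - b) := by omega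
      have hlt : g % 2 ^ (bp + e) + 2 ^ (bp + e) * (g / 2 ^ b) < 2 ^ (w1 - n) := by
        rw [hw, pow_add 2 (bp + e)]
        calc g % 2 ^ (bp + e) + 2 ^ (bp + e) * (g / 2 ^ b)
            < 2 ^ (bp + e) + 2 ^ (bp + e) * (g / 2 ^ b) := by omega
          _ = 2 ^ (bp + e) * (g / 2 ^ b + 1) := by ring
          _ ≤ 2 ^ (bp + e) * 2 ^ (w1 - b) := Nat.mul_le_mul_left _ hhi
      -- the ones of g
      have hmod : g % 2 ^ b % 2 ^ (bp + e) = g % 2 ^ (bp + e) := by
        apply Nat.mod_mod_of_dvd
        exact pow_dvd_pow 2 (by omega)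
      have hpc1 : pc g = pc (g % 2 ^ b) + pc (g / 2 ^ b) := by
        have := pc_add_mul b (g % 2 ^ b) (g / 2 ^ b) (Nat.mod_lt _ (by positivity))
        rwa [Nat.mod_add_div] at this
      have hpc2 : pc (g % 2 ^ b) = pc (g % 2 ^ (bp + e)) + pc (g % 2 ^ b / 2 ^ (bp + e)) := by
        have := pc_add_mul (bp + e) (g % 2 ^ b % 2 ^ (bp + e)) (g % 2 ^ b / 2 ^ (bp + e))
          (Nat.mod_lt _ (by positivity))
        rw [Nat.mod_add_div, hmod] at this
        exact this
      have hpc3 : pc (g % 2 ^ (bp + e) + 2 ^ (bp + e) * (g / 2 ^ b))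
          = pc (g % 2 ^ (bp + e)) + pc (g / 2 ^ b) := pc_add_mul _ _ _ hlo
      rw [hB, mem_filter, mem_range]
      refine ⟨hlt, ?_⟩
      rw [hpc3]
      have := hv.2
      omega
    · intro g hg g' hg' h
      simp only [Prod.mk.injEq] at h
      obtain ⟨h1, h2⟩ := h
      have hlo : g % 2 ^ (bp + e) < 2 ^ (bp + e) := Nat.mod_lt _ (by positivity)
      have hlo' : g' % 2 ^ (bp + e) < 2 ^ (bp + e) := Nat.mod_lt _ (by positivity)
      have h3 : g % 2 ^ (bp + e) = g' % 2 ^ (bp + e) := by
        have := congrArg (· % 2 ^ (bp + e)) h2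
        simp only [Nat.add_mul_mod_self_left, Nat.mod_mod] at this
        exact this
      have h4 : g / 2 ^ b = g' / 2 ^ b := by
        have := congrArg (· / 2 ^ (bp + e)) h2
        beta_reduce at this
        rw [Nat.add_mul_div_left _ _ (by positivity), Nat.add_mul_div_left _ _ (by positivity),
          Nat.div_eq_of_lt hlo, Nat.div_eq_of_lt hlo'] at this
        simpa using this
      have hmod : ∀ x, x % 2 ^ b % 2 ^ (bp + e) = x % 2 ^ (bp + e) := by
        intro x
        apply Nat.mod_mod_of_dvd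
        exact pow_dvd_pow 2 (by omega)
      have h5 : g % 2 ^ b = g' % 2 ^ b := by
        have e1 := Nat.div_add_mod (g % 2 ^ b) (2 ^ (bp + e))
        have e2 := Nat.div_add_mod (g' % 2 ^ b) (2 ^ (bp + e))
        rw [hmod] at e1 e2
        rw [h1, h3] at e1
        omega
      have e1 := Nat.div_add_mod g (2 ^ b)
      have e2 := Nat.div_add_mod g' (2 ^ b)
      rw [h4, h5] at e1
      omega
  calc (((range (2 ^ w1)).filter
      (fun g => g % 2 ^ b / 2 ^ (bp + e) ∈ A ∧ a < pc g)).card : ℝ)
      ≤ ((A ×ˢ B).card : ℝ) := by exact_mod_cast hcard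
    _ = A.card * B.card := by rw [card_product]; push_cast; ring
    _ ≤ A.card * (2 ^ (w1 - n) * β) := by
        apply mul_le_mul_of_nonneg_left hch (by positivity)

/-- the number of `γ < P` for which `γ + P t` has more than `b` ones -/
lemma count_g' {m b e k w2 P t : ℕ} (β : ℝ) (hP : 0 < P) (hPk : P ≤ 2 ^ k)
    (hz : P * (t + 1) ≤ 2 ^ w2) (hk : k ≤ w2) (he : w2 - k + 1 ≤ e)
    (hch : (((range (2 ^ k)).filter (fun x => k + 2 * m ≤ 2 * pc x)).card : ℝ) ≤ 2 ^ k * β)
    (hth : k + 2 * m + 2 * e ≤ 2 * b + 4) :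
    (((range P).filter (fun γ => b < pc (γ + P * t))).card : ℝ) ≤ 2 * (2 ^ k * β) := by
  classical
  set B := (range (2 ^ k)).filter (fun x => k + 2 * m ≤ 2 * pc x) with hB
  have hcard : ((range P).filter (fun γ => b < pc (γ + P * t))).card
      ≤ (range 2 ×ˢ B).card := by
    apply card_le_card_of_injOn
      (fun γ => ((γ + P * t) / 2 ^ k - P * t / 2 ^ k, (γ + P * t) % 2 ^ k))
    · intro γ hγ
      simp only [coe_filter, mem_range, Set.mem_ofPred_eq] at hγ
      obtain ⟨h1, h2⟩ := hγ
      simp only [coe_product, Set.mem_prod, mem_coe, mem_range]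
      constructor
      · have : (γ + P * t) / 2 ^ k ≤ (2 ^ k + P * t) / 2 ^ k :=
          Nat.div_le_div_right (by omega)
        rw [Nat.add_div_left _ (by positivity)] at this
        omega
      · rw [hB, mem_filter, mem_range]
        refine ⟨Nat.mod_lt _ (by positivity), ?_⟩
        have hzlt : γ + P * t < 2 ^ w2 := by
          have : P * (t + 1) = P * t + P := by ring
          omega
        have hhi : (γ + P * t) / 2 ^ k < 2 ^ (w2 - k) := by
          rw [Nat.div_lt_iff_lt_mul (by positivity), ← pow_add]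
          have : w2 - k + k = w2 := by omega
          rwa [this]
        have hpchi := pc_lt_pow _ _ hhi
        have hpc1 : pc (γ + P * t)
            = pc ((γ + P * t) % 2 ^ k) + pc ((γ + P * t) / 2 ^ k) := by
          have := pc_add_mul k ((γ + P * t) % 2 ^ k) ((γ + P * t) / 2 ^ k)
            (Nat.mod_lt _ (by positivity))
          rwa [Nat.mod_add_div] at this
        omega
    · intro γ hγ γ' hγ' h
      simp only [Prod.mk.injEq] at h
      obtain ⟨h1, h2⟩ := h
      have l1 : P * t / 2 ^ k ≤ (γ + P * t) / 2 ^ k := Nat.div_le_div_right (by omega)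
      have l2 : P * t / 2 ^ k ≤ (γ' + P * t) / 2 ^ k := Nat.div_le_div_right (by omega)
      have h3 : (γ + P * t) / 2 ^ k = (γ' + P * t) / 2 ^ k := by omega
      have e1 := Nat.div_add_mod (γ + P * t) (2 ^ k)
      have e2 := Nat.div_add_mod (γ' + P * t) (2 ^ k)
      rw [h3, h2] at e1
      omega
  calc (((range P).filter (fun γ => b < pc (γ + P * t))).card : ℝ)
      ≤ ((range 2 ×ˢ B).card : ℝ) := by exact_mod_cast hcard
    _ = 2 * B.card := by rw [card_product, card_range]; push_cast; ring
    _ ≤ 2 * (2 ^ k * β) := by linarith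

end Pool.Agent.CC603
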