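import Pool.Agent.CC603.Search1

/-!
The analysis of one pair `(q, σ)`.
-/

namespace Pool.Agent.CC603

open Finset

/-- residue of the second digit string -/
def gam (si P M : ℕ) : ℕ := (si * M) % P

/-- the first digit string for the parameter `t` -/
def gq (si s P t M : ℕ) : ℕ := (M - s * (gam si P M + P * t)) / P

lemma gam_lt {si P M : ℕ} (hP : 0 < P) : gam si P M < P := Nat.mod_lt _ hP

lemma gq_spec {si s P t M : ℕ} (hP : 0 < P) (hsi : s * si ≡ 1 [MOD P])
    (hM : s * (P * (t + 1)) ≤ M) :
    P * gq si s P t M + s * (gam si P M + P * t) = M := by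
  have hg := gam_lt (si := si) (M := M) hP
  have hle : s * (gam si P M + P * t) ≤ M := by
    refine le_trans ?_ hM
    apply Nat.mul_le_mul_left
    have : P * (t + 1) = P * t + P := by ring
    omega
  have h1 : s * (gam si P M + P * t) ≡ M [MOD P] := by
    have e1 : s * (gam si P M + P * t) = s * gam si P M + P * (s * t) := by ring
    rw [e1]
    have e2 : s * gam si P M + P * (s * t) ≡ s * gam si P M [MOD P] := by
      unfold Nat.ModEq; rw [Nat.add_mul_mod_self_left]
    refine e2.trans ?_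
    have e3 : gam si P M ≡ si * M [MOD P] := Nat.mod_modEq _ _
    have e4 : s * gam si P M ≡ s * (si * M) [MOD P] := Nat.ModEq.mul_left s e3
    refine e4.trans ?_
    have e5 : s * (si * M) = (s * si) * M := by ring
    rw [e5]
    have := Nat.ModEq.mul_right M hsi
    simpa using this
  have h2 : P ∣ M - s * (gam si P M + P * t) := (Nat.modEq_iff_dvd' hle).mp h1
  unfold gq
  rw [Nat.mul_div_cancel' h2]
  omega

lemma gq_zero {si s P t M : ℕ} (hP : 0 < P) (hsi : s * si ≡ 1 [MOD P])
    (hM : s * (P * (t + 1)) ≤ M) :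
    gq si s P 0 M = gq si s P t M + s * t := by
  have h1 := gq_spec hP hsi hM
  have h2 : s * (P * (0 + 1)) ≤ M := by
    refine le_trans ?_ hM
    apply Nat.mul_le_mul_left
    apply Nat.mul_le_mul_left
    omega
  have h3 := gq_spec hP hsi h2
  have h4 : P * gq si s P 0 M = P * (gq si s P t M + s * t) := by
    have e1 : s * (gam si P M + P * t) = s * gam si P M + P * (s * t) := by ring
    have e2 : s * (gam si P M + P * 0) = s * gam si P M := by ring
    rw [e1] at h1
    rw [e2] at h3
    rw [Nat.mul_add]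
    omega
  exact Nat.eq_of_mul_eq_mul_left hP h4

/-- the number of good `t`, as a function of the low bits of the first string -/
noncomputable def VS (b bpe : ℕ) (T A : Finset ℕ) (s y : ℕ) : ℕ :=
  by classical exact
    (T.filter (fun t : ℕ => (((y : ℤ) - (s : ℤ) * (t : ℤ)) % 2 ^ b).toNat / 2 ^ bpe ∈ A)).card

open Classical in
lemma perq {q σ a b w1 w2 bp e n I L : ℕ} (T A : Finset ℕ) (G1 G2 : ℝ)
    (hP1 : 1 < 2 ^ a * σ) (hcop : Nat.Coprime (q + (2 ^ a - 1) * σ) (2 ^ a * σ))
    (hn : bp + e + n = b)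
    (hlow : ∀ t ∈ T, (q + (2 ^ a - 1) * σ) * (2 ^ a * σ * (t + 1)) + a * (2 ^ a * σ) ≤ I)
    (hup : ∀ t ∈ T, I + L ≤ (q + (2 ^ a - 1) * σ) * (2 ^ a * σ * t) + 2 ^ a * σ * 2 ^ w1)
    (hgp : ∀ t ∈ T, 2 ^ a * σ * (t + 1) ≤ 2 ^ w2)
    (hgb : ∀ t ∈ T, b ≤ 2 ^ a * σ * t)
    (hc1 : (((range (2 ^ w1)).filter
      (fun g => g % 2 ^ b / 2 ^ (bp + e) ∈ A ∧ a < pc g)).card : ℝ) ≤ A.card * G1)
    (hc2 : ∀ t ∈ T, (((range (2 ^ a * σ)).filter
      (fun γ => b < pc (γ + 2 ^ a * σ * t))).card : ℝ) ≤ G2)
    (hT : T.Nonempty) (hAn : A.Nonempty) :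
    (((Ico I (I + L)).filter (fun M => ¬ Rep q σ a b w1 w2 M)).card : ℝ) ≤
      (((range (2 ^ b)).filter (fun y =>
        2 * 2 ^ n * VS b (bp + e) T A (q + (2 ^ a - 1) * σ) y < T.card * A.card)).card : ℝ)
        * ((2 ^ a * σ : ℕ) * ((L / (2 ^ a * σ * 2 ^ b) + 1 : ℕ) : ℝ))
      + 2 * 2 ^ n * (G1 * (2 ^ a * σ : ℕ)
        + G2 * 2 ^ (bp + e) * ((L / (2 ^ a * σ * 2 ^ b) + 1 : ℕ) : ℝ)) := by
  set P := 2 ^ a * σ with hPdef
  set s := q + (2 ^ a - 1) * σ with hsdef
  have hP : 0 < P := by omega
  obtain ⟨si, hsi⟩ : ∃ si, s * si ≡ 1 [MOD P] := by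
    obtain ⟨si, -, hsi⟩ := Nat.exists_mul_mod_eq_one_of_coprime hcop hP1
    refine ⟨si, ?_⟩
    unfold Nat.ModEq
    rw [hsi, Nat.mod_eq_of_lt hP1]
  obtain ⟨t0, ht0⟩ := hT
  have hI0 : s * P ≤ I := by
    have := hlow t0 ht0
    have h2 : s * P ≤ s * (P * (t0 + 1)) := by
      apply Nat.mul_le_mul_left
      calc P = P * 1 := by ring
        _ ≤ P * (t0 + 1) := Nat.mul_le_mul_left _ (by omega)
    omega
  set Rb : ℕ := L / (P * 2 ^ b) + 1 with hRb
  set BY := (range (2 ^ b)).filter (fun y =>
        2 * 2 ^ n * VS b (bp + e) T A s y < T.card * A.card) with hBY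
  set J := Ico I (I + L) with hJ
  -- the two bad events
  set B1 : ℕ → Finset ℕ := fun t => J.filter (fun M =>
    gq si s P t M % 2 ^ b / 2 ^ (bp + e) ∈ A ∧ a < pc (gq si s P t M)) with hB1
  set B2 : ℕ → Finset ℕ := fun t => J.filter (fun M =>
    gq si s P t M % 2 ^ b / 2 ^ (bp + e) ∈ A ∧ b < pc (gam si P M + P * t)) with hB2
  set X1 := J.filter (fun M => gq si s P 0 M % 2 ^ b ∈ BY) with hX1
  set X2 := J.filter (fun M => T.card * A.card ≤
    2 * 2 ^ n * ((T.filter (fun t => M ∈ B1 t)).card + (T.filter (fun t => M ∈ B2 t)).card))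
    with hX2
  have hspec : ∀ t ∈ T, ∀ M ∈ J,
      P * gq si s P t M + s * (gam si P M + P * t) = M := by
    intro t ht M hM
    rw [hJ, mem_Ico] at hM
    exact gq_spec hP hsi (by have := hlow t ht; omega)
  have hspec0 : ∀ M ∈ J, P * gq si s P 0 M + s * gam si P M = M := by
    intro M hM
    rw [hJ, mem_Ico] at hM
    have := gq_spec (t := 0) hP hsi (M := M) (by simpa using le_trans hI0 hM.1)
    simpa using this
  -- inclusion
  have hsub : J.filter (fun M => ¬ Rep q σ a b w1 w2 M) ⊆ X1 ∪ X2 := by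
    intro M hM
    rw [mem_filter] at hM
    obtain ⟨hMJ, hrep⟩ := hM
    rw [mem_union]
    by_cases h1 : M ∈ X1
    · exact Or.inl h1
    · right
      rw [hX2, mem_filter]
      refine ⟨hMJ, ?_⟩
      have h2 : gq si s P 0 M % 2 ^ b ∉ BY := by
        intro h; exact h1 (by rw [hX1, mem_filter]; exact ⟨hMJ, h⟩)
      have h3 : T.card * A.card ≤ 2 * 2 ^ n * VS b (bp + e) T A s (gq si s P 0 M % 2 ^ b) := by
        by_contra hlt
        apply h2
        rw [hBY, mem_filter, mem_range]
        exact ⟨Nat.mod_lt _ (by positivity), by omega⟩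
      refine le_trans h3 (Nat.mul_le_mul_left _ ?_)
      unfold VS
      rw [← card_union_add_card_inter]
      suffices hsuf : T.filter (fun t : ℕ => ((((gq si s P 0 M % 2 ^ b : ℕ) : ℤ) - (s : ℤ) * (t : ℤ))
          % 2 ^ b).toNat / 2 ^ (bp + e) ∈ A) ⊆
          T.filter (fun t => M ∈ B1 t) ∪ T.filter (fun t => M ∈ B2 t) by
        have := card_le_card hsuf
        omega
      intro t ht
      rw [mem_filter] at ht
      obtain ⟨htT, htA⟩ := ht
      have hMI := hMJ
      rw [hJ, mem_Ico] at hMI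
      have hz := gq_zero hP hsi (M := M) (t := t) (by have := hlow t htT; omega)
      have hF : (((((gq si s P 0 M % 2 ^ b : ℕ)) : ℤ) - (s : ℤ) * t) % 2 ^ b).toNat
          = gq si s P t M % 2 ^ b := by
        have e1 : ((gq si s P 0 M % 2 ^ b : ℕ) : ℤ) = (gq si s P 0 M : ℤ) % 2 ^ b := by
          push_cast; rfl
        rw [e1, Int.emod_sub_emod, hz]
        have e2 : ((gq si s P t M + s * t : ℕ) : ℤ) - (s : ℤ) * t = (gq si s P t M : ℤ) := by
          push_cast; ring
        rw [e2]
        have e3 : (gq si s P t M : ℤ) % 2 ^ b = ((gq si s P t M % 2 ^ b : ℕ) : ℤ) := by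
          push_cast; rfl
        rw [e3, Int.toNat_natCast]
      rw [hF] at htA
      have hsp := hspec t htT M hMJ
      have hglt := gam_lt (si := si) (M := M) hP
      by_contra hcon
      rw [mem_union, not_or] at hcon
      have hc1' : M ∉ B1 t := fun h => hcon.1 (mem_filter.mpr ⟨htT, h⟩)
      have hc2' : M ∉ B2 t := fun h => hcon.2 (mem_filter.mpr ⟨htT, h⟩)
      apply hrep
      refine ⟨gq si s P t M, gam si P M + P * t, hsp, ?_, ?_, ?_, ?_, ?_, ?_⟩
      · -- g < 2^w1
        have hu := hup t htT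
        by_contra hge
        push Not at hge
        have h5 : P * 2 ^ w1 ≤ P * gq si s P t M := Nat.mul_le_mul_left _ hge
        have h6 : s * (P * t) ≤ s * (gam si P M + P * t) :=
          Nat.mul_le_mul_left _ (by omega)
        omega
      · -- pc g ≤ a
        by_contra hlt
        exact hc1' (mem_filter.mpr ⟨hMJ, htA, by omega⟩)
      · -- a ≤ g
        have hl := hlow t htT
        by_contra hlt
        push Not at hlt
        have h5 : P * gq si s P t M + P ≤ P * a := by
          have : P * gq si s P t M + P = P * (gq si s P t M + 1) := by ring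
          rw [this]
          exact Nat.mul_le_mul_left _ hlt
        have h6 : s * (gam si P M + P * t) ≤ s * (P * (t + 1)) := by
          apply Nat.mul_le_mul_left
          have : P * (t + 1) = P * t + P := by ring
          omega
        have h7 : a * P = P * a := by ring
        omega
      · have hg := hgp t htT
        have : P * (t + 1) = P * t + P := by ring
        omega
      · by_contra hlt
        exact hc2' (mem_filter.mpr ⟨hMJ, htA, by omega⟩)
      · have hg := hgb t htT
        omega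
  -- size of X1
  have hX1c : (X1.card : ℝ) ≤ (BY.card : ℝ) * ((P : ℕ) * (Rb : ℝ)) := by
    have h1 : X1.card ≤ (BY ×ˢ range P).card * (L / (P * 2 ^ b) + 1) := by
      rw [hX1, hJ]
      apply card_param_le (BY ×ˢ range P) I L (P * 2 ^ b) (by positivity)
        (fun p => (P * p.1 + s * p.2) % (P * 2 ^ b))
      intro M h1 h2 h3
      refine ⟨(gq si s P 0 M % 2 ^ b, gam si P M), ?_, ?_⟩
      · rw [mem_product, mem_range]
        exact ⟨h3, gam_lt hP⟩
      · have h4 := hspec0 M (by rw [hJ, mem_Ico]; exact ⟨h1, h2⟩)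
        have h5 := Nat.mod_add_div (gq si s P 0 M) (2 ^ b)
        have h6 : M = (P * (gq si s P 0 M % 2 ^ b) + s * gam si P M)
            + P * 2 ^ b * (gq si s P 0 M / 2 ^ b) := by
          calc M = P * gq si s P 0 M + s * gam si P M := h4.symm
            _ = P * (gq si s P 0 M % 2 ^ b + 2 ^ b * (gq si s P 0 M / 2 ^ b))
                + s * gam si P M := by rw [h5]
            _ = _ := by ring
        calc M % (P * 2 ^ b) = ((P * (gq si s P 0 M % 2 ^ b) + s * gam si P M)
            + P * 2 ^ b * (gq si s P 0 M / 2 ^ b)) % (P * 2 ^ b) := by rw [← h6]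
          _ = _ := by rw [Nat.add_mul_mod_self_left]
    rw [card_product, card_range] at h1
    calc (X1.card : ℝ) ≤ ((BY.card * P * (L / (P * 2 ^ b) + 1) : ℕ) : ℝ) := by
          exact_mod_cast h1
      _ = (BY.card : ℝ) * ((P : ℕ) * (Rb : ℝ)) := by rw [hRb]; push_cast; ring
  -- size of B1 t
  have hB1c : ∀ t ∈ T, ((B1 t).card : ℝ) ≤ A.card * G1 * P := by
    intro t ht
    have h1 : (B1 t).card ≤ (((range (2 ^ w1)).filter
      (fun g => g % 2 ^ b / 2 ^ (bp + e) ∈ A ∧ a < pc g)) ×ˢ range P).card := by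
      apply card_le_card_of_injOn (fun M => (gq si s P t M, gam si P M))
      · intro M hM
        rw [mem_coe, hB1] at hM
        simp only [mem_filter] at hM
        obtain ⟨hMJ, h2, h3⟩ := hM
        simp only [coe_product, Set.mem_prod, mem_coe, mem_filter, mem_range]
        refine ⟨⟨?_, h2, h3⟩, gam_lt hP⟩
        have hu := hup t ht
        have hsp := hspec t ht M hMJ
        rw [hJ, mem_Ico] at hMJ
        by_contra hge
        push Not at hge
        have h5 : P * 2 ^ w1 ≤ P * gq si s P t M := Nat.mul_le_mul_left _ hge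
        have h6 : s * (P * t) ≤ s * (gam si P M + P * t) :=
          Nat.mul_le_mul_left _ (by omega)
        omega
      · intro M hM M' hM' h
        rw [mem_coe, hB1] at hM hM'
        simp only [mem_filter] at hM hM'
        simp only [Prod.mk.injEq] at h
        have h1 := hspec t ht M hM.1
        have h2 := hspec t ht M' hM'.1
        rw [h.1, h.2] at h1
        omega
    rw [card_product, card_range] at h1
    calc ((B1 t).card : ℝ) ≤ ((((range (2 ^ w1)).filter
      (fun g => g % 2 ^ b / 2 ^ (bp + e) ∈ A ∧ a < pc g)).card * P : ℕ) : ℝ) := by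
          exact_mod_cast h1
      _ = (((range (2 ^ w1)).filter
      (fun g => g % 2 ^ b / 2 ^ (bp + e) ∈ A ∧ a < pc g)).card : ℝ) * P := by push_cast; ring
      _ ≤ A.card * G1 * P := by
          apply mul_le_mul_of_nonneg_right hc1 (by positivity)
  -- size of B2 t
  have hB2c : ∀ t ∈ T, ((B2 t).card : ℝ) ≤ G2 * (A.card * 2 ^ (bp + e)) * Rb := by
    intro t ht
    have h1 : (B2 t).card ≤ ((((range P).filter (fun γ => b < pc (γ + P * t))) ×ˢ
        (A ×ˢ range (2 ^ (bp + e)))).card) * (L / (P * 2 ^ b) + 1) := by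
      rw [hB2, hJ]
      apply card_param_le _ I L (P * 2 ^ b) (by positivity)
        (fun p => (P * (2 ^ (bp + e) * p.2.1 + p.2.2) + s * (p.1 + P * t)) % (P * 2 ^ b))
      rintro M h1 h2 ⟨h3, h4⟩
      refine ⟨(gam si P M, (gq si s P t M % 2 ^ b / 2 ^ (bp + e),
        gq si s P t M % 2 ^ b % 2 ^ (bp + e))), ?_, ?_⟩
      · simp only [mem_product, mem_filter, mem_range]
        exact ⟨⟨gam_lt hP, h4⟩, h3, Nat.mod_lt _ (by positivity)⟩
      · have h5 := hspec t ht M (by rw [hJ, mem_Ico]; exact ⟨h1, h2⟩)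
        have h6 := Nat.mod_add_div (gq si s P t M) (2 ^ b)
        have h7 := Nat.div_add_mod (gq si s P t M % 2 ^ b) (2 ^ (bp + e))
        simp only
        rw [h7]
        have h8 : M = (P * (gq si s P t M % 2 ^ b) + s * (gam si P M + P * t))
            + P * 2 ^ b * (gq si s P t M / 2 ^ b) := by
          calc M = P * gq si s P t M + s * (gam si P M + P * t) := h5.symm
            _ = P * (gq si s P t M % 2 ^ b + 2 ^ b * (gq si s P t M / 2 ^ b))
                + s * (gam si P M + P * t) := by rw [h6]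
            _ = _ := by ring
        calc M % (P * 2 ^ b) = ((P * (gq si s P t M % 2 ^ b) + s * (gam si P M + P * t))
            + P * 2 ^ b * (gq si s P t M / 2 ^ b)) % (P * 2 ^ b) := by rw [← h8]
          _ = _ := by rw [Nat.add_mul_mod_self_left]
    rw [card_product, card_product, card_range] at h1
    have h9 := hc2 t ht
    calc ((B2 t).card : ℝ) ≤ ((((range P).filter (fun γ => b < pc (γ + P * t))).card
          * (A.card * 2 ^ (bp + e)) * (L / (P * 2 ^ b) + 1) : ℕ) : ℝ) := by
          exact_mod_cast h1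
      _ = (((range P).filter (fun γ => b < pc (γ + P * t))).card : ℝ)
          * (A.card * 2 ^ (bp + e)) * Rb := by rw [hRb]; push_cast; ring
      _ ≤ G2 * (A.card * 2 ^ (bp + e)) * Rb := by
          apply mul_le_mul_of_nonneg_right _ (by positivity)
          apply mul_le_mul_of_nonneg_right h9 (by positivity)
  -- size of X2
  have hTA : (0 : ℝ) < (T.card : ℝ) * A.card := by
    have h1 : 0 < T.card := card_pos.mpr ⟨t0, ht0⟩
    have h2 : 0 < A.card := card_pos.mpr hAn
    positivity
  have hX2c : (X2.card : ℝ) ≤ 2 * 2 ^ n * (G1 * P + G2 * 2 ^ (bp + e) * Rb) := by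
    have h1 : (X2.card : ℝ) * ((T.card : ℝ) * A.card)
        ≤ 2 * 2 ^ n * ∑ t ∈ T, (((B1 t).card : ℝ) + (B2 t).card) := by
      have h2 : ∀ M ∈ X2, ((T.card : ℝ) * A.card) ≤
          2 * 2 ^ n * (((T.filter (fun t => M ∈ B1 t)).card : ℝ)
            + ((T.filter (fun t => M ∈ B2 t)).card : ℝ)) := by
        intro M hM
        rw [hX2, mem_filter] at hM
        exact_mod_cast hM.2
      calc (X2.card : ℝ) * ((T.card : ℝ) * A.card)
          = ∑ _M ∈ X2, ((T.card : ℝ) * A.card) := by rw [sum_const, nsmul_eq_mul]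
        _ ≤ ∑ M ∈ X2, 2 * 2 ^ n * (((T.filter (fun t => M ∈ B1 t)).card : ℝ)
            + ((T.filter (fun t => M ∈ B2 t)).card : ℝ)) := sum_le_sum h2
        _ ≤ ∑ M ∈ J, 2 * 2 ^ n * (((T.filter (fun t => M ∈ B1 t)).card : ℝ)
            + ((T.filter (fun t => M ∈ B2 t)).card : ℝ)) := by
            apply sum_le_sum_of_subset_of_nonneg
            · rw [hX2]; exact filter_subset _ _
            · intro M _ _; positivity
        _ = 2 * 2 ^ n * ∑ M ∈ J, (((T.filter (fun t => M ∈ B1 t)).card : ℝ)
            + ((T.filter (fun t => M ∈ B2 t)).card : ℝ)) := by rw [mul_sum]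
        _ = 2 * 2 ^ n * ∑ t ∈ T, (((B1 t).card : ℝ) + (B2 t).card) := by
            congr 1
            rw [sum_add_distrib, sum_add_distrib]
            have key : ∀ B : ℕ → Finset ℕ, (∀ t, B t ⊆ J) →
                ∑ M ∈ J, ((T.filter (fun t => M ∈ B t)).card : ℝ)
                  = ∑ t ∈ T, ((B t).card : ℝ) := by
              intro B hBJ
              have : ∑ M ∈ J, (T.filter (fun t => M ∈ B t)).card = ∑ t ∈ T, (B t).card := by
                calc ∑ M ∈ J, (T.filter (fun t => M ∈ B t)).card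
                    = ∑ M ∈ J, ∑ t ∈ T, (if M ∈ B t then 1 else 0) := by
                      apply sum_congr rfl; intro M _; rw [card_filter]
                  _ = ∑ t ∈ T, ∑ M ∈ J, (if M ∈ B t then 1 else 0) := sum_comm
                  _ = ∑ t ∈ T, (B t).card := by
                      apply sum_congr rfl; intro t _
                      rw [← card_filter]
                      congr 1
                      ext M
                      rw [mem_filter]
                      exact ⟨fun h => h.2, fun h => ⟨hBJ t h, h⟩⟩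
              exact_mod_cast this
            rw [key B1 (fun t => by rw [hB1]; exact filter_subset _ _),
              key B2 (fun t => by rw [hB2]; exact filter_subset _ _)]
    have h3 : ∑ t ∈ T, (((B1 t).card : ℝ) + (B2 t).card)
        ≤ T.card * (A.card * G1 * P + G2 * (A.card * 2 ^ (bp + e)) * Rb) := by
      calc ∑ t ∈ T, (((B1 t).card : ℝ) + (B2 t).card)
          ≤ ∑ _t ∈ T, (A.card * G1 * P + G2 * (A.card * 2 ^ (bp + e)) * Rb) :=
            sum_le_sum (fun t ht => add_le_add (hB1c t ht) (hB2c t ht))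
        _ = _ := by rw [sum_const, nsmul_eq_mul]
    have h4 : (X2.card : ℝ) * ((T.card : ℝ) * A.card)
        ≤ (2 * 2 ^ n * (G1 * P + G2 * 2 ^ (bp + e) * Rb)) * ((T.card : ℝ) * A.card) := by
      calc (X2.card : ℝ) * ((T.card : ℝ) * A.card)
          ≤ 2 * 2 ^ n * ∑ t ∈ T, (((B1 t).card : ℝ) + (B2 t).card) := h1
        _ ≤ 2 * 2 ^ n * (T.card * (A.card * G1 * P
            + G2 * (A.card * 2 ^ (bp + e)) * Rb)) := by
            apply mul_le_mul_of_nonneg_left h3 (by positivity)
        _ = _ := by ring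
    exact le_of_mul_le_mul_right h4 hTA
  calc ((J.filter (fun M => ¬ Rep q σ a b w1 w2 M)).card : ℝ)
      ≤ ((X1 ∪ X2).card : ℝ) := by exact_mod_cast card_le_card hsub
    _ ≤ (X1.card : ℝ) + X2.card := by exact_mod_cast card_union_le X1 X2
    _ ≤ _ := add_le_add hX1c hX2c

end Pool.Agent.CC603
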