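import Pool.Agent.CC603.Search2

/-!
The search theorem: for most `(q, M)` the number `M` has a digit representation.
-/

namespace Pool.Agent.CC603

open Finset

/-- first input: a Chernoff bound for the number of ones -/
def ChernoffStmt : Prop := ∀ m k : ℕ, k ≤ 1536 * m →
  (((range (2 ^ k)).filter (fun x => k + 2 * m ≤ 2 * pc x)).card : ℝ)
    ≤ 2 ^ k * (999 / 1000) ^ m

/-- second input: many numbers have few ones -/
def LowStmt : Prop := ∀ n D : ℕ, D ≤ n / 2 → 7 * (n + 1) ≤ 15 * (n / 2 - D) →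
  2 ^ n * 7 ^ D ≤ ((range (2 ^ n)).filter (fun x => pc x ≤ n / 2 - D)).card
    * ((n + 1) * 8 ^ D)

open Classical in
/-- third input: the second moment -/
def SecondStmt : Prop := ∀ (b bp e s0 : ℕ), bp + e ≤ b → ∀ (T A : Finset ℕ),
  (∀ t ∈ T, ∀ t' ∈ T, t < t' + 2 ^ e) → A ⊆ range (2 ^ (b - bp - e)) →
  (((range (2 ^ (b - bp)) ×ˢ range (2 ^ b)).filter (fun p : ℕ × ℕ =>
    2 * 2 ^ (b - bp - e) * (T.filter (fun t : ℕ =>
      (((p.2 : ℤ) - ((s0 : ℤ) + 2 ^ bp * (p.1 : ℤ)) * (t : ℤ)) % 2 ^ b).toNat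
        / 2 ^ (bp + e) ∈ A)).card < T.card * A.card)).card) * (T.card * A.card)
    ≤ 4 * 2 ^ (b - bp - e) * 2 ^ (b - bp) * 2 ^ b

/-- numerical constraints on the parameters -/
structure Par (m b bp e a E w1 w2 j1 l : ℕ) : Prop where
  hm : 1000 ≤ m
  hb1 : 768 * m ≤ b
  hb2 : b < 768 * m + 768
  he1 : 8 * m ≤ e
  he2 : e ≤ 8 * m + 1
  hw2 : w2 = a + E + e
  hgp : w2 + e + 2 * m ≤ 2 * b + 3
  hg : 2 * E ≤ w2 + 14 * m
  hj : w1 + j1 = w2
  hj1 : 1 ≤ j1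
  hj3 : j1 ≤ 3
  hbp1 : 1 ≤ bp
  hbp : bp ≤ 270 * m
  hl3 : 3 ≤ l
  hlm : l ≤ m
  hE : b + 5 ≤ E

lemma lin_lt_two_pow (n : ℕ) : 1024 * (n + 1) ≤ 2 ^ (n + 10) := by
  have : n + 1 ≤ 2 ^ n := Nat.lt_two_pow_self
  calc 1024 * (n + 1) ≤ 1024 * 2 ^ n := Nat.mul_le_mul_left _ this
    _ = 2 ^ (n + 10) := by rw [pow_add]; ring

lemma growth_bound (m : ℕ) (hm : 5 ≤ m) : 512 * (768 * m + 769) ≤ 29 ^ m := by
  induction m, hm using Nat.le_induction with
  | base => norm_num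
  | succ m hm ih =>
    calc 512 * (768 * (m + 1) + 769) ≤ 512 * (768 * m + 769) * 29 := by
          have h1 : 768 * (m + 1) + 769 ≤ (768 * m + 769) * 29 := by omega
          calc 512 * (768 * (m + 1) + 769) ≤ 512 * ((768 * m + 769) * 29) :=
                Nat.mul_le_mul_left _ h1
            _ = _ := by ring
      _ ≤ 29 ^ m * 29 := Nat.mul_le_mul_right _ ih
      _ = 29 ^ (m + 1) := by rw [pow_succ]

lemma final_bound (m e n b : ℕ) (hm : 5 ≤ m) (he : 8 * m ≤ e) (hn : n ≤ b)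
    (hb : b < 768 * m + 768) :
    (512 * ((n : ℝ) + 1)) * (8 / 7) ^ (16 * m) ≤ 2 ^ e * (999 / 1000) ^ m := by
  have h1 : (512 * ((n : ℝ) + 1)) ≤ 29 ^ m := by
    have h2 := growth_bound m hm
    have h3 : 512 * (n + 1) ≤ 29 ^ m := by
      refine le_trans ?_ h2
      apply Nat.mul_le_mul_left
      omega
    exact_mod_cast h3
  have h4 : (2 : ℝ) ^ (8 * m) ≤ 2 ^ e := pow_le_pow_right₀ (by norm_num) he
  have h5 : (29 : ℝ) ^ m * (8 / 7) ^ (16 * m) ≤ 2 ^ (8 * m) * (999 / 1000) ^ m := by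
    rw [pow_mul, pow_mul, ← mul_pow, ← mul_pow]
    apply pow_le_pow_left₀ (by positivity)
    norm_num
  calc (512 * ((n : ℝ) + 1)) * (8 / 7) ^ (16 * m)
      ≤ 29 ^ m * (8 / 7) ^ (16 * m) := by
        apply mul_le_mul_of_nonneg_right h1 (by positivity)
    _ ≤ 2 ^ (8 * m) * (999 / 1000) ^ m := h5
    _ ≤ 2 ^ e * (999 / 1000) ^ m := by
        apply mul_le_mul_of_nonneg_right h4 (by positivity)

/-- numerical facts about one `q` -/
lemma q_facts {m b bp e a E w1 w2 j1 l : ℕ} (h : Par m b bp e a E w1 w2 j1 l)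
    {q σ θ I t : ℕ} (hσ1 : 2 ^ E ≤ σ) (hσ2 : 1024 * σ ≤ 1025 * 2 ^ E)
    (hq1 : 3 * 2 ^ E ≤ q) (hq2 : q ≤ 4 * 2 ^ E) (hθ1 : 1 ≤ θ) (hθ2 : θ ≤ 62)
    (hI1 : (θ + 2) * 2 ^ (a + E + w2) ≤ 64 * I)
    (hI2 : 2 ^ j1 * (64 * (I + 2 ^ (a + w2 + E - l))) ≤ (2 ^ j1 * θ + 64) * 2 ^ (a + E + w2))
    (ht1 : θ * 2 ^ (e - 6) ≤ t) (ht2 : t + 1 ≤ (θ + 1) * 2 ^ (e - 6)) :
    (q + (2 ^ a - 1) * σ) * (2 ^ a * σ * (t + 1)) + a * (2 ^ a * σ) ≤ I ∧
    I + 2 ^ (a + w2 + E - l)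
      ≤ (q + (2 ^ a - 1) * σ) * (2 ^ a * σ * t) + 2 ^ a * σ * 2 ^ w1 ∧
    2 ^ a * σ * (t + 1) ≤ 2 ^ w2 ∧ b ≤ 2 ^ a * σ * t ∧
    2 ^ (a + E) ≤ 2 ^ a * σ ∧ 1024 * (2 ^ a * σ) ≤ 1025 * 2 ^ (a + E) := by
  obtain ⟨hm, hb1, hb2, he1, he2, hw2, hgp, hg, hj, hj1, hj3, hbp1, hbp, hl3, hlm, hE⟩ := h
  have ha : 12 ≤ a := by omega
  have ha0 : 1 ≤ 2 ^ a := Nat.one_le_two_pow
  set A0 := 2 ^ (a + E) with hA0
  have hA0' : A0 = 2 ^ a * 2 ^ E := by rw [hA0, pow_add]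
  set P := 2 ^ a * σ with hP
  set s := q + (2 ^ a - 1) * σ with hs
  have hP1 : A0 ≤ P := by rw [hA0', hP]; exact Nat.mul_le_mul_left _ hσ1
  have hP2 : 1024 * P ≤ 1025 * A0 := by
    rw [hA0', hP]
    calc 1024 * (2 ^ a * σ) = 2 ^ a * (1024 * σ) := by ring
      _ ≤ 2 ^ a * (1025 * 2 ^ E) := Nat.mul_le_mul_left _ hσ2
      _ = _ := by ring
  have hsP : s + σ = q + P := by
    rw [hs, hP]
    obtain ⟨c, hc⟩ : ∃ c, 2 ^ a = c + 1 := ⟨2 ^ a - 1, by omega⟩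
    rw [hc]; simp only [Nat.add_sub_cancel]; ring
  have hs1 : P ≤ s := by omega
  have h4096 : 4096 * 2 ^ E ≤ A0 := by
    rw [hA0']
    have : 4096 ≤ 2 ^ a := by
      calc 4096 = 2 ^ 12 := by norm_num
        _ ≤ 2 ^ a := Nat.pow_le_pow_right (by norm_num) ha
    exact Nat.mul_le_mul_right _ this
  have hs2 : 1024 * s ≤ 1026 * A0 := by omega
  set W := 2 ^ (e - 6) with hW
  have h64W : 64 * W = 2 ^ e := by
    rw [hW]
    have : e = (e - 6) + 6 := by omega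
    conv_rhs => rw [this, pow_add]
    ring
  have hw2p : 2 ^ w2 = A0 * (64 * W) := by
    rw [h64W, hA0, hw2, ← pow_add]
  have hU : 2 ^ (a + E + w2) = A0 * 2 ^ w2 := by rw [hA0, ← pow_add]
  rw [hU] at hI1 hI2
  have hWpos : 1 ≤ W := Nat.one_le_two_pow
  have hA0pos : 1 ≤ A0 := Nat.one_le_two_pow
  refine ⟨?_, ?_, ?_, ?_, hP1, hP2⟩
  · -- lower bound
    have e1 : 1048576 * (s * (P * (t + 1))) ≤ 1051650 * (A0 * A0 * ((θ + 1) * W)) := by
      calc 1048576 * (s * (P * (t + 1))) = (1024 * s) * (1024 * P) * (t + 1) := by ring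
        _ ≤ (1026 * A0) * (1025 * A0) * ((θ + 1) * W) := by
            apply Nat.mul_le_mul (Nat.mul_le_mul hs2 hP2) ht2
        _ = 1051650 * (A0 * A0 * ((θ + 1) * W)) := by ring
    have e2 : 1048576 * (a * P) ≤ 1024 * 1025 * (a * A0) := by
      calc 1048576 * (a * P) = 1024 * a * (1024 * P) := by ring
        _ ≤ 1024 * a * (1025 * A0) := Nat.mul_le_mul_left _ hP2
        _ = _ := by ring
    have e3 : 200 * a ≤ A0 * W := by
      have h1 := lin_lt_two_pow a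
      have h2 : 2 ^ (a + 10) ≤ A0 := by
        rw [hA0]; exact Nat.pow_le_pow_right (by norm_num) (by omega)
      calc 200 * a ≤ 1024 * (a + 1) := by omega
        _ ≤ A0 := le_trans h1 h2
        _ = A0 * 1 := by ring
        _ ≤ A0 * W := Nat.mul_le_mul_left _ hWpos
    have e4 : 200 * (a * A0) ≤ A0 * A0 * W := by
      calc 200 * (a * A0) = A0 * (200 * a) := by ring
        _ ≤ A0 * (A0 * W) := Nat.mul_le_mul_left _ e3
        _ = _ := by ring
    have e5 : (θ + 2) * (A0 * A0 * W) ≤ I := by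
      have : (θ + 2) * (A0 * 2 ^ w2) = 64 * ((θ + 2) * (A0 * A0 * W)) := by
        rw [hw2p]; ring
      omega
    have e6 : A0 * A0 * ((θ + 1) * W) = (θ + 1) * (A0 * A0 * W) := by ring
    rw [e6] at e1
    generalize A0 * A0 * W = Z at *
    generalize s * (P * (t + 1)) = Y1 at *
    generalize a * P = Y2 at *
    generalize a * A0 = Y3 at *
    have e7 : (θ + 1) * Z = θ * Z + Z := by ring
    have e8 : (θ + 2) * Z = θ * Z + 2 * Z := by ring
    have e9 : θ * Z ≤ 62 * Z := Nat.mul_le_mul_right _ hθ2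
    rw [e7] at e1
    rw [e8] at e5
    generalize θ * Z = Z2 at *
    omega
  · -- upper bound
    have e1 : θ * (A0 * A0 * W) ≤ s * (P * t) := by
      calc θ * (A0 * A0 * W) = A0 * (A0 * (θ * W)) := by ring
        _ ≤ s * (P * t) := Nat.mul_le_mul (by omega) (Nat.mul_le_mul hP1 ht1)
    have e2 : A0 * 2 ^ w2 ≤ 2 ^ j1 * (P * 2 ^ w1) := by
      calc A0 * 2 ^ w2 = A0 * (2 ^ w1 * 2 ^ j1) := by rw [← hj, pow_add]
        _ ≤ P * (2 ^ w1 * 2 ^ j1) := Nat.mul_le_mul_right _ hP1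
        _ = _ := by ring
    have e3 : 2 ^ j1 * (64 * (I + 2 ^ (a + w2 + E - l)))
        ≤ 2 ^ j1 * (64 * (s * (P * t) + P * 2 ^ w1)) := by
      calc 2 ^ j1 * (64 * (I + 2 ^ (a + w2 + E - l)))
          ≤ (2 ^ j1 * θ + 64) * (A0 * 2 ^ w2) := hI2
        _ = 2 ^ j1 * (64 * (θ * (A0 * A0 * W))) + 64 * (A0 * 2 ^ w2) := by
            rw [hw2p]; ring
        _ ≤ 2 ^ j1 * (64 * (s * (P * t))) + 64 * (2 ^ j1 * (P * 2 ^ w1)) := by
            apply Nat.add_le_add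
            · exact Nat.mul_le_mul_left _ (Nat.mul_le_mul_left _ e1)
            · exact Nat.mul_le_mul_left _ e2
        _ = _ := by ring
    have e4 := Nat.le_of_mul_le_mul_left e3 (by positivity)
    omega
  · -- P (t+1) ≤ 2^w2
    have e1 : 1024 * (P * (t + 1)) ≤ 1025 * (A0 * (63 * W)) := by
      calc 1024 * (P * (t + 1)) = (1024 * P) * (t + 1) := by ring
        _ ≤ (1025 * A0) * ((θ + 1) * W) := Nat.mul_le_mul hP2 ht2
        _ ≤ (1025 * A0) * (63 * W) := by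
            apply Nat.mul_le_mul_left
            exact Nat.mul_le_mul_right _ (by omega)
        _ = _ := by ring
    rw [hw2p]
    have e2 : A0 * (63 * W) = 63 * (A0 * W) := by ring
    have e3 : A0 * (64 * W) = 64 * (A0 * W) := by ring
    rw [e2] at e1
    rw [e3]
    omega
  · -- b ≤ P t
    have h1 : 1 ≤ t := by
      have : 1 * 1 ≤ θ * W := Nat.mul_le_mul hθ1 hWpos
      omega
    have h2 : b < 2 ^ b := Nat.lt_two_pow_self
    have h3 : 2 ^ b ≤ A0 := by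
      rw [hA0]; exact Nat.pow_le_pow_right (by norm_num) (by omega)
    calc b ≤ A0 * 1 := by omega
      _ ≤ P * t := Nat.mul_le_mul hP1 h1

lemma sb_bound (n m b bp : ℕ) (S W Ac β : ℝ) (hW : 0 < W) (hA : 0 < Ac) (hβ : 0 ≤ β)
    (hsecond : S * (W * Ac) ≤ 4 * 2 ^ n * 2 ^ (b - bp) * 2 ^ b)
    (hAr : (2 : ℝ) ^ n * 7 ^ (16 * m) ≤ Ac * ((n + 1) * 8 ^ (16 * m)))
    (hfin : (512 * ((n : ℝ) + 1)) * (8 / 7) ^ (16 * m) ≤ 64 * W * β) :
    S * (2 / 2 ^ b) ≤ 2 ^ (b - bp) * β := by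
  have h7 : (0 : ℝ) < 7 ^ (16 * m) := by positivity
  have k1 : 8 * 2 ^ n ≤ W * Ac * β := by
    have k2 : ((2 : ℝ) ^ n * 8) * 7 ^ (16 * m) ≤ (W * Ac * β) * 7 ^ (16 * m) := by
      have e1 : (8 : ℝ) ^ (16 * m) = (8 / 7) ^ (16 * m) * 7 ^ (16 * m) := by
        rw [← mul_pow]; norm_num
      calc ((2 : ℝ) ^ n * 8) * 7 ^ (16 * m) = ((2 : ℝ) ^ n * 7 ^ (16 * m)) * 8 := by ring
        _ ≤ (Ac * ((n + 1) * 8 ^ (16 * m))) * 8 := by
            apply mul_le_mul_of_nonneg_right hAr (by norm_num)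
        _ = Ac * (512 * ((n : ℝ) + 1) * (8 / 7) ^ (16 * m)) * 7 ^ (16 * m) / 64 := by
            rw [e1]; ring
        _ ≤ Ac * (64 * W * β) * 7 ^ (16 * m) / 64 := by
            apply div_le_div_of_nonneg_right _ (by norm_num)
            apply mul_le_mul_of_nonneg_right _ h7.le
            apply mul_le_mul_of_nonneg_left hfin hA.le
        _ = (W * Ac * β) * 7 ^ (16 * m) := by ring
    have k4 := le_of_mul_le_mul_right k2 h7
    linarith
  have h2b : (0 : ℝ) < 2 ^ b := by positivity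
  have hbp : (0 : ℝ) < 2 ^ (b - bp) := by positivity
  have k6 : S * (2 / 2 ^ b) * (W * Ac) ≤ (2 ^ (b - bp) * β) * (W * Ac) := by
    calc S * (2 / 2 ^ b) * (W * Ac) = S * (W * Ac) * (2 / 2 ^ b) := by ring
      _ ≤ (4 * 2 ^ n * 2 ^ (b - bp) * 2 ^ b) * (2 / 2 ^ b) := by
          apply mul_le_mul_of_nonneg_right hsecond (by positivity)
      _ = (8 * 2 ^ n) * 2 ^ (b - bp) := by field_simp; ring
      _ ≤ (W * Ac * β) * 2 ^ (b - bp) := mul_le_mul_of_nonneg_right k1 hbp.le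
      _ = _ := by ring
  exact le_of_mul_le_mul_right k6 (by positivity)

lemma ll_bound (b bp l : ℕ) (S S' Qc L β : ℝ) (hl3 : 3 ≤ l) (hL : 0 ≤ L) (hβ : 0 ≤ β)
    (h1 : S' ≤ S) (h2 : Qc ≤ 2 ^ (b - bp)) (h3 : S * (2 / 2 ^ b) ≤ 2 ^ (b - bp) * β) :
    S' * (2 * L / 2 ^ b) + Qc * ((2 ^ (l + 1) + 16) * (L * β))
      ≤ 2 ^ (b - bp) * L * (2 ^ (l + 3) * β) := by
  have h2b : (0 : ℝ) < 2 ^ b := by positivity
  have hbp : (0 : ℝ) < 2 ^ (b - bp) := by positivity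
  have hl : (8 : ℝ) ≤ 2 ^ l := by
    calc (8 : ℝ) = 2 ^ 3 := by norm_num
      _ ≤ 2 ^ l := pow_le_pow_right₀ (by norm_num) hl3
  have e1 : (2 : ℝ) ^ (l + 1) = 2 * 2 ^ l := by ring
  have e2 : (2 : ℝ) ^ (l + 3) = 8 * 2 ^ l := by ring
  calc S' * (2 * L / 2 ^ b) + Qc * ((2 ^ (l + 1) + 16) * (L * β))
      ≤ S * (2 * L / 2 ^ b) + 2 ^ (b - bp) * ((2 ^ (l + 1) + 16) * (L * β)) := by
        apply add_le_add
        · exact mul_le_mul_of_nonneg_right h1 (by positivity)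
        · exact mul_le_mul_of_nonneg_right h2 (by positivity)
    _ = L * (S * (2 / 2 ^ b)) + 2 ^ (b - bp) * ((2 ^ (l + 1) + 16) * (L * β)) := by ring
    _ ≤ L * (2 ^ (b - bp) * β) + 2 ^ (b - bp) * ((2 ^ (l + 1) + 16) * (L * β)) := by
        apply add_le_add _ le_rfl
        exact mul_le_mul_of_nonneg_left h3 hL
    _ = 2 ^ (b - bp) * L * ((2 ^ (l + 1) + 17) * β) := by ring
    _ ≤ 2 ^ (b - bp) * L * (2 ^ (l + 3) * β) := by
        apply mul_le_mul_of_nonneg_left _ (by positivity)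
        apply mul_le_mul_of_nonneg_right _ hβ
        rw [e1, e2]
        linarith

open Classical in
/-- the search theorem -/
theorem search (hCh : ChernoffStmt) (hLow : LowStmt) (hSec : SecondStmt)
    {m b bp e a E w1 w2 j1 l : ℕ} (h : Par m b bp e a E w1 w2 j1 l)
    {σ X0 ξ θ : ℕ} (I : ℕ → ℕ) (hσ1 : 2 ^ E ≤ σ) (hσ2 : 1024 * σ ≤ 1025 * 2 ^ E)
    (hσe : Even σ) (hξ : Odd ξ)
    (hX1 : 3 * 2 ^ E ≤ X0) (hX2 : X0 + 2 ^ b ≤ 4 * 2 ^ E) (hθ1 : 1 ≤ θ) (hθ2 : θ ≤ 62)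
    (hI1 : ∀ q, X0 ≤ q → q < X0 + 2 ^ b → q % 2 ^ bp = ξ % 2 ^ bp →
      (θ + 2) * 2 ^ (a + E + w2) ≤ 64 * I q)
    (hI2 : ∀ q, X0 ≤ q → q < X0 + 2 ^ b → q % 2 ^ bp = ξ % 2 ^ bp →
      2 ^ j1 * (64 * (I q + 2 ^ (a + w2 + E - l)))
      ≤ (2 ^ j1 * θ + 64) * 2 ^ (a + E + w2)) :
    ∑ q ∈ (Ico X0 (X0 + 2 ^ b)).filter (fun q => q % 2 ^ bp = ξ % 2 ^ bp ∧ Nat.Coprime q σ),
      (((Ico (I q) (I q + 2 ^ (a + w2 + E - l))).filter
        (fun M => ¬ Rep q σ a b w1 w2 M)).card : ℝ)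
      ≤ 2 ^ (b - bp) * 2 ^ (a + w2 + E - l) * (2 ^ (l + 3) * (999 / 1000) ^ m) := by
  have hpar := h
  obtain ⟨hm, hb1, hb2, he1, he2, hw2, hgp, hg, hj, hj1, hj3, hbp1, hbp, hl3, hlm, hE⟩ := h
  set L := 2 ^ (a + w2 + E - l) with hL
  set β : ℝ := (999 / 1000) ^ m with hβ
  have hβ0 : 0 ≤ β := by positivity
  obtain ⟨n, hn⟩ : ∃ n, bp + e + n = b := ⟨b - bp - e, by omega⟩
  have hn' : b - bp - e = n := by omega
  set thr := n / 2 - 16 * m with hthr
  set A := (range (2 ^ n)).filter (fun x => pc x ≤ thr) with hA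
  set W := 2 ^ (e - 6) with hW
  set T := Ico (θ * W) ((θ + 1) * W) with hT
  have hWpos : 1 ≤ W := Nat.one_le_two_pow
  have hTcard : T.card = W := by
    rw [hT, Nat.card_Ico]
    have : (θ + 1) * W = θ * W + W := by ring
    omega
  have hTne : T.Nonempty := by
    rw [← card_pos, hTcard]; omega
  have hAne : A.Nonempty := by
    refine ⟨0, ?_⟩
    rw [hA, mem_filter, mem_range]
    exact ⟨by positivity, by rw [pc_zero]; omega⟩
  -- the starting point of the progression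
  obtain ⟨q0, hq01, hq02, hq03⟩ : ∃ q0, X0 ≤ q0 ∧ q0 < X0 + 2 ^ bp ∧
      q0 % 2 ^ bp = ξ % 2 ^ bp := by
    refine ⟨X0 + (ξ + (2 ^ bp - 1) * X0) % 2 ^ bp, by omega, ?_, ?_⟩
    · have := Nat.mod_lt (ξ + (2 ^ bp - 1) * X0) (show 0 < 2 ^ bp by positivity)
      omega
    · have h1 : 1 ≤ 2 ^ bp := Nat.one_le_two_pow
      obtain ⟨c, hc⟩ : ∃ c, 2 ^ bp = c + 1 := ⟨2 ^ bp - 1, by omega⟩
      rw [Nat.add_mod_mod]
      have : X0 + (ξ + (2 ^ bp - 1) * X0) = ξ + 2 ^ bp * X0 := by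
        rw [hc]; simp only [Nat.add_sub_cancel]; ring
      rw [this, Nat.add_mul_mod_self_left]
  set s0 := q0 + (2 ^ a - 1) * σ with hs0
  -- sizes of the counting constants
  set Rb : ℕ := L / (2 ^ a * σ * 2 ^ b) + 1 with hRb
  set G1 : ℝ := 2 ^ (w1 - n) * β with hG1
  set G2 : ℝ := 2 * (2 ^ (a + E + 1) * β) with hG2
  set BY : ℕ → Finset ℕ := fun s => (range (2 ^ b)).filter (fun y =>
    2 * 2 ^ n * VS b (bp + e) T A s y < T.card * A.card) with hBY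
  have hσ0 : 1 ≤ 2 ^ E := Nat.one_le_two_pow
  have ha12 : 12 ≤ a := by omega
  have hcountg : (((range (2 ^ w1)).filter
      (fun g => g % 2 ^ b / 2 ^ (bp + e) ∈ A ∧ a < pc g)).card : ℝ) ≤ A.card * G1 := by
    apply count_g (m := m) (thr := thr) A β hn (by omega)
    · intro v hv
      rw [hA, mem_filter, mem_range] at hv
      exact hv
    · exact hCh m (w1 - n) (by omega)
    · omega
  -- per q bound
  have hper : ∀ q ∈ (Ico X0 (X0 + 2 ^ b)).filter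
      (fun q => q % 2 ^ bp = ξ % 2 ^ bp ∧ Nat.Coprime q σ),
      (((Ico (I q) (I q + L)).filter (fun M => ¬ Rep q σ a b w1 w2 M)).card : ℝ)
      ≤ ((BY (q + (2 ^ a - 1) * σ)).card : ℝ) * (2 * L / 2 ^ b)
        + (2 ^ (l + 1) + 16) * (L * β) := by
    intro q hq
    rw [mem_filter, mem_Ico] at hq
    obtain ⟨⟨hq1, hq2⟩, hq3, hq4⟩ := hq
    have hI1q := hI1 q hq1 hq2 hq3
    have hI2q := hI2 q hq1 hq2 hq3
    have hfacts : ∀ t ∈ T, _ := fun t ht => q_facts hpar (q := q) (σ := σ) (θ := θ)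
      (I := I q) (t := t) hσ1 hσ2 (by omega) (by omega) hθ1 hθ2 hI1q hI2q
      (by rw [hT, mem_Ico] at ht; exact ht.1) (by rw [hT, mem_Ico] at ht; exact ht.2)
    obtain ⟨t0, ht0⟩ := hTne
    have hf0 := hfacts t0 ht0
    obtain ⟨-, -, -, -, hP1, hP2⟩ := hf0
    have hodd : Odd q := by
      rw [Nat.odd_iff] at hξ ⊢
      have h1 : 2 ∣ 2 ^ bp := dvd_pow_self 2 (by omega)
      have h2 : q % 2 ^ bp % 2 = ξ % 2 ^ bp % 2 := by rw [hq3]
      rw [Nat.mod_mod_of_dvd _ h1, Nat.mod_mod_of_dvd _ h1] at h2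
      omega
    have hsodd : Odd (q + (2 ^ a - 1) * σ) := by
      apply hodd.add_even
      exact hσe.mul_left _
    have hcop : Nat.Coprime (q + (2 ^ a - 1) * σ) (2 ^ a * σ) := by
      apply Nat.Coprime.mul_right
      · exact Nat.Coprime.pow_right _ (Nat.coprime_two_right.mpr hsodd)
      · rw [Nat.coprime_add_mul_right_left]
        exact hq4
    have hPbig : 1 < 2 ^ a * σ := by
      have : 2 ≤ 2 ^ (a + E) := by
        calc 2 = 2 ^ 1 := by norm_num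
          _ ≤ 2 ^ (a + E) := Nat.pow_le_pow_right (by norm_num) (by omega)
      omega
    have hmain := perq (q := q) (σ := σ) (a := a) (b := b) (w1 := w1) (w2 := w2) (bp := bp)
      (e := e) (n := n) (I := I q) (L := L) T A G1 G2 hPbig hcop hn
      (fun t ht => (hfacts t ht).1) (fun t ht => (hfacts t ht).2.1)
      (fun t ht => (hfacts t ht).2.2.1) (fun t ht => (hfacts t ht).2.2.2.1) hcountg
      (by
        intro t ht
        apply count_g' (m := m) (e := e) (w2 := w2) β (by omega)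
        · have : 2 ^ (a + E + 1) = 2 * 2 ^ (a + E) := by ring
          omega
        · exact (hfacts t ht).2.2.1
        · omega
        · omega
        · exact hCh m (a + E + 1) (by omega)
        · omega)
      ⟨t0, ht0⟩ hAne
    -- reals
    have hPr : (0 : ℝ) < ((2 ^ a * σ : ℕ) : ℝ) := by exact_mod_cast (by omega : 0 < 2 ^ a * σ)
    set Pr : ℝ := ((2 ^ a * σ : ℕ) : ℝ) with hPrdef
    set A0r : ℝ := 2 ^ (a + E) with hA0r
    have hA0pos : 0 < A0r := by positivity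
    have hPA : A0r ≤ Pr := by
      rw [hA0r, hPrdef]; exact_mod_cast hP1
    have hPA2 : Pr ≤ 2 * A0r := by
      have : (2 ^ a * σ : ℕ) ≤ 2 * 2 ^ (a + E) := by omega
      rw [hA0r, hPrdef]; exact_mod_cast this
    have hPL : (2 ^ a * σ) * 2 ^ b ≤ L := by
      calc (2 ^ a * σ) * 2 ^ b ≤ (2 * 2 ^ (a + E)) * 2 ^ b :=
            Nat.mul_le_mul_right _ (by omega)
        _ = 2 ^ (1 + (a + E) + b) := by rw [pow_add, pow_add]; ring
        _ ≤ L := by rw [hL]; exact Nat.pow_le_pow_right (by norm_num) (by omega)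
    have hRb2 : (Rb : ℝ) ≤ 2 * (L / (Pr * 2 ^ b)) := by
      have h1 : ((L / (2 ^ a * σ * 2 ^ b) : ℕ) : ℝ) ≤ (L : ℝ) / (Pr * 2 ^ b) := by
        have := Nat.cast_div_le (α := ℝ) (m := L) (n := 2 ^ a * σ * 2 ^ b)
        refine le_trans this (le_of_eq ?_)
        rw [hPrdef]; push_cast; ring
      have h2 : (1 : ℝ) ≤ (L : ℝ) / (Pr * 2 ^ b) := by
        rw [le_div_iff₀ (by positivity), one_mul, hPrdef]
        exact_mod_cast hPL
      rw [hRb]; push_cast at h1 ⊢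
      linarith
    have hLr : (0 : ℝ) ≤ (L : ℝ) := by positivity
    have hY : (0 : ℝ) ≤ ((BY (q + (2 ^ a - 1) * σ)).card : ℝ) := by positivity
    have t1 : Pr * (Rb : ℝ) ≤ 2 * L / 2 ^ b := by
      calc Pr * (Rb : ℝ) ≤ Pr * (2 * (L / (Pr * 2 ^ b))) :=
            mul_le_mul_of_nonneg_left hRb2 hPr.le
        _ = 2 * L / 2 ^ b := by field_simp
    have t2 : 2 * 2 ^ n * (G1 * Pr) ≤ 2 ^ (l + 1) * (L * β) := by
      have h1 : (2 : ℝ) ^ n * 2 ^ (w1 - n) = 2 ^ w1 := by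
        rw [← pow_add]; congr 1; omega
      have h2 : (2 : ℝ) ^ w1 * (2 * A0r) ≤ 2 ^ l * L := by
        have : 2 ^ w1 * (2 * 2 ^ (a + E)) ≤ 2 ^ l * L := by
          calc 2 ^ w1 * (2 * 2 ^ (a + E)) = 2 ^ (w1 + 1 + (a + E)) := by
                rw [pow_add, pow_add]; ring
            _ ≤ 2 ^ (l + (a + w2 + E - l)) :=
                Nat.pow_le_pow_right (by norm_num) (by omega)
            _ = 2 ^ l * L := by rw [hL, pow_add]
        rw [hA0r]; exact_mod_cast this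
      calc 2 * 2 ^ n * (G1 * Pr) = 2 * (2 ^ n * 2 ^ (w1 - n)) * Pr * β := by rw [hG1]; ring
        _ = 2 * 2 ^ w1 * Pr * β := by rw [h1]
        _ ≤ 2 * 2 ^ w1 * (2 * A0r) * β := by
            apply mul_le_mul_of_nonneg_right _ hβ0
            apply mul_le_mul_of_nonneg_left hPA2 (by positivity)
        _ = 2 * (2 ^ w1 * (2 * A0r)) * β := by ring
        _ ≤ 2 * (2 ^ l * L) * β := by
            apply mul_le_mul_of_nonneg_right _ hβ0
            linarith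
        _ = 2 ^ (l + 1) * (L * β) := by rw [pow_succ]; ring
    have t3 : 2 * 2 ^ n * (G2 * 2 ^ (bp + e) * (Rb : ℝ)) ≤ 16 * (L * β) := by
      have h1 : (2 : ℝ) ^ n * 2 ^ (bp + e) = 2 ^ b := by
        rw [← pow_add]; congr 1; omega
      have h2 : (2 : ℝ) ^ (a + E + 1) = 2 * A0r := by rw [hA0r]; ring
      calc 2 * 2 ^ n * (G2 * 2 ^ (bp + e) * (Rb : ℝ))
          = 4 * (2 ^ n * 2 ^ (bp + e)) * 2 ^ (a + E + 1) * β * Rb := by rw [hG2]; ring
        _ = 8 * 2 ^ b * A0r * β * Rb := by rw [h1, h2]; ring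
        _ ≤ 8 * 2 ^ b * A0r * β * (2 * (L / (Pr * 2 ^ b))) :=
            mul_le_mul_of_nonneg_left hRb2 (by positivity)
        _ = 16 * (L * β) * (A0r / Pr) := by field_simp; ring
        _ ≤ 16 * (L * β) * 1 := by
            apply mul_le_mul_of_nonneg_left _ (by positivity)
            rw [div_le_one hPr]; exact hPA
        _ = 16 * (L * β) := by ring
    calc (((Ico (I q) (I q + L)).filter (fun M => ¬ Rep q σ a b w1 w2 M)).card : ℝ)
        ≤ ((BY (q + (2 ^ a - 1) * σ)).card : ℝ) * (Pr * (Rb : ℝ))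
          + 2 * 2 ^ n * (G1 * Pr + G2 * 2 ^ (bp + e) * (Rb : ℝ)) := hmain
      _ = ((BY (q + (2 ^ a - 1) * σ)).card : ℝ) * (Pr * (Rb : ℝ))
          + (2 * 2 ^ n * (G1 * Pr) + 2 * 2 ^ n * (G2 * 2 ^ (bp + e) * (Rb : ℝ))) := by ring
      _ ≤ ((BY (q + (2 ^ a - 1) * σ)).card : ℝ) * (2 * L / 2 ^ b)
          + (2 ^ (l + 1) * (L * β) + 16 * (L * β)) := by
          apply add_le_add
          · exact mul_le_mul_of_nonneg_left t1 hY
          · exact add_le_add t2 t3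
      _ = _ := by ring
  -- sum over q
  set QQ := (Ico X0 (X0 + 2 ^ b)).filter
      (fun q => q % 2 ^ bp = ξ % 2 ^ bp ∧ Nat.Coprime q σ) with hQQ
  have hbpb : bp ≤ b := by omega
  have hpw : 2 ^ b = 2 ^ bp * 2 ^ (b - bp) := by
    rw [← pow_add]; congr 1; omega
  have hmapx : ∀ q ∈ QQ, ∃ x, x < 2 ^ (b - bp) ∧ q = q0 + 2 ^ bp * x := by
    intro q hq
    rw [hQQ, mem_filter, mem_Ico] at hq
    obtain ⟨⟨hq1, hq2⟩, hq3, hq4⟩ := hq
    have hq5 : q ≡ q0 [MOD 2 ^ bp] := by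
      unfold Nat.ModEq; rw [hq3, hq03]
    have hge : q0 ≤ q := by
      by_contra hlt
      push Not at hlt
      have h1 : 2 ^ bp ∣ q0 - q := (Nat.modEq_iff_dvd' hlt.le).mp hq5
      have h2 := Nat.le_of_dvd (by omega) h1
      omega
    have h1 : 2 ^ bp ∣ q - q0 := (Nat.modEq_iff_dvd' hge).mp hq5.symm
    obtain ⟨x, hx⟩ := h1
    refine ⟨x, ?_, by omega⟩
    by_contra hge2
    push Not at hge2
    have : 2 ^ bp * 2 ^ (b - bp) ≤ 2 ^ bp * x := Nat.mul_le_mul_left _ hge2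
    rw [← hpw] at this
    omega
  set f : ℕ → ℕ := fun q => (q - q0) / 2 ^ bp with hf
  have hfx : ∀ x, f (q0 + 2 ^ bp * x) = x := by
    intro x
    rw [hf]
    simp only [Nat.add_sub_cancel_left]
    exact Nat.mul_div_cancel_left x (by positivity)
  have hsub : QQ ⊆ (range (2 ^ (b - bp))).image (fun x => q0 + 2 ^ bp * x) := by
    intro q hq
    obtain ⟨x, hx1, hx2⟩ := hmapx q hq
    rw [mem_image]
    exact ⟨x, mem_range.mpr hx1, hx2.symm⟩
  have hinj : Set.InjOn (fun x => q0 + 2 ^ bp * x) (range (2 ^ (b - bp)) : Set ℕ) := by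
    intro x _ y _ hxy
    have := congrArg f hxy
    simpa [hfx] using this
  have hQcard : (QQ.card : ℝ) ≤ 2 ^ (b - bp) := by
    have h1 := card_le_card hsub
    have h2 : ((range (2 ^ (b - bp))).image (fun x => q0 + 2 ^ bp * x)).card
        ≤ (range (2 ^ (b - bp))).card := card_image_le
    rw [card_range] at h2
    exact_mod_cast le_trans h1 h2
  have hsumBY : ∑ q ∈ QQ, ((BY (q + (2 ^ a - 1) * σ)).card : ℝ)
      ≤ ∑ x ∈ range (2 ^ (b - bp)), ((BY (s0 + 2 ^ bp * x)).card : ℝ) := by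
    calc ∑ q ∈ QQ, ((BY (q + (2 ^ a - 1) * σ)).card : ℝ)
        ≤ ∑ q ∈ (range (2 ^ (b - bp))).image (fun x => q0 + 2 ^ bp * x),
          ((BY (q + (2 ^ a - 1) * σ)).card : ℝ) := by
          apply sum_le_sum_of_subset_of_nonneg hsub
          intro _ _ _; positivity
      _ = ∑ x ∈ range (2 ^ (b - bp)), ((BY (q0 + 2 ^ bp * x + (2 ^ a - 1) * σ)).card : ℝ) :=
          sum_image hinj
      _ = _ := by
          apply sum_congr rfl
          intro x _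
          have : q0 + 2 ^ bp * x + (2 ^ a - 1) * σ = s0 + 2 ^ bp * x := by rw [hs0]; ring
          rw [this]
  -- second moment
  have hsecond : (∑ x ∈ range (2 ^ (b - bp)), ((BY (s0 + 2 ^ bp * x)).card : ℝ))
      * ((W : ℝ) * A.card) ≤ 4 * 2 ^ n * 2 ^ (b - bp) * 2 ^ b := by
    have h1 := hSec b bp e s0 (by omega) T A
      (by
        intro t ht t' ht'
        rw [hT, mem_Ico] at ht ht'
        have : (θ + 1) * W = θ * W + W := by ring
        have hWe : W ≤ 2 ^ e := by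
          rw [hW]; exact Nat.pow_le_pow_right (by norm_num) (by omega)
        omega)
      (by rw [hn', hA]; exact filter_subset _ _)
    rw [hn'] at h1
    have h2 : ((range (2 ^ (b - bp)) ×ˢ range (2 ^ b)).filter (fun p : ℕ × ℕ =>
        2 * 2 ^ n * (T.filter (fun t : ℕ =>
          (((p.2 : ℤ) - ((s0 : ℤ) + 2 ^ bp * (p.1 : ℤ)) * (t : ℤ)) % 2 ^ b).toNat
            / 2 ^ (bp + e) ∈ A)).card < T.card * A.card)).card
        = ∑ x ∈ range (2 ^ (b - bp)), (BY (s0 + 2 ^ bp * x)).card := by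
      rw [card_filter, sum_product]
      apply sum_congr rfl
      intro x _
      have hcf : (BY (s0 + 2 ^ bp * x)).card = ∑ y ∈ range (2 ^ b),
          (if 2 * 2 ^ n * VS b (bp + e) T A (s0 + 2 ^ bp * x) y < T.card * A.card
            then 1 else 0) := card_filter _ _
      rw [hcf]
      apply sum_congr rfl
      intro y _
      unfold VS
      push_cast
      rfl
    rw [h2] at h1
    rw [hTcard] at h1
    have h3 : (((∑ x ∈ range (2 ^ (b - bp)), (BY (s0 + 2 ^ bp * x)).card) * (W * A.card) : ℕ) : ℝ)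
        ≤ ((4 * 2 ^ n * 2 ^ (b - bp) * 2 ^ b : ℕ) : ℝ) := by exact_mod_cast h1
    push_cast at h3
    convert h3 using 2
  -- lower bound for A
  have hlow := hLow n (16 * m) (by omega) (by omega)
  rw [← hthr, ← hA] at hlow
  have hAr : (2 : ℝ) ^ n * 7 ^ (16 * m) ≤ A.card * ((n + 1) * 8 ^ (16 * m)) := by
    exact_mod_cast hlow
  have hfin := final_bound m e n b (by omega) he1 (by omega) hb2
  have hApos : (0 : ℝ) < A.card := by exact_mod_cast card_pos.mpr hAne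
  have hWr : (64 : ℝ) * W = 2 ^ e := by
    have : 64 * W = 2 ^ e := by
      rw [hW]
      have : e = (e - 6) + 6 := by omega
      conv_rhs => rw [this, pow_add]
      ring
    exact_mod_cast this
  have hWp : (0 : ℝ) < W := by exact_mod_cast hWpos
  have hSnn : 0 ≤ ∑ x ∈ range (2 ^ (b - bp)), ((BY (s0 + 2 ^ bp * x)).card : ℝ) :=
    sum_nonneg (fun _ _ => by positivity)
  rw [← hWr] at hfin
  have hSb := sb_bound n m b bp _ W A.card β hWp hApos hβ0 hsecond hAr hfin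
  have hLL := ll_bound b bp l _ _ (QQ.card : ℝ) (L : ℝ) β hl3 (by positivity) hβ0 hsumBY hQcard
    hSb
  have hsum := sum_le_sum hper
  rw [sum_add_distrib, ← sum_mul, sum_const, nsmul_eq_mul] at hsum
  refine le_trans hsum (le_trans hLL (le_of_eq ?_))
  rw [hL]; push_cast; ring

end Pool.Agent.CC603
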