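import Pool.Agent.CC603.NewLevel
import Pool.Agent.CC603.Params

/-!
One step from a level to the next.
-/

namespace Pool.Agent.CC603

open Finset

/-- one step from a level to the next -/
theorem lvl_step : ∃ E0, ∀ E ≥ E0, ∀ F, 4956 * E ≤ 1000 * F → 1000 * F ≤ 4961 * E →
    ∀ (c0 ρ i : ℕ) (η : ℝ), 1 ≤ c0 → Odd ρ → ρ < 2 ^ c0 → 1 ≤ i → i ≤ 3 → Lvl c0 ρ E η →
      Lvl c0 (((2 ^ i - 1) * ρ) % 2 ^ c0) F (η + (1 / 2) ^ (E / 2 ^ 20)) := by
  classical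
  obtain ⟨E1, h1⟩ := par_exists
  obtain ⟨E2, h2⟩ := loss_bound
  obtain ⟨E3, h3⟩ := new_level
  refine ⟨max (max E1 E2) (max E3 (2 ^ 30)), fun E hE F hEF hFE c0 ρ i η hc0 hρ hρ2 hi1 hi3 hL => ?_⟩
  obtain ⟨hE12, hE34⟩ := max_le_iff.mp hE
  obtain ⟨hE1, hE2⟩ := max_le_iff.mp hE12
  obtain ⟨hE3, hE4⟩ := max_le_iff.mp hE34
  clear hE hE12 hE34
  obtain ⟨bp, qh, sh, Ex, hbp, hbp4, hEx, hExc, hgood⟩ := hL
  have hE5 : 1000000000 ≤ E := le_trans (by norm_num) hE4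
  have hk1 : bb F + kap F + 5 = F := bb_add_kap (by omega)
  have hk2 : bb E + kap E + 5 = E := bb_add_kap (by omega)
  have hk3 : kap E ≤ E / 100000 := Nat.div_le_div_left (by norm_num) (by norm_num)
  have hk4 : kap F ≤ F / 100000 := Nat.div_le_div_left (by norm_num) (by norm_num)
  have hk5 : kap F ≤ 5 * kap E + 5 := by unfold kap; omega
  obtain ⟨e, a, w2, hP, hF, ha, hw⟩ := h1 E hE1 F hEF hFE bp i (5 + kap F) (by omega) hbp4
    hi1 hi3 (by omega) (by omega)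
  have hN := h3 E hE3 F hEF hFE c0 (((2 ^ i - 1) * ρ) % 2 ^ c0) a (w2 - i) w2 i
  have hloss := h2 E hE2
  have hlf := fun Y => level_fail hc0 hρ hbp hgood hP (θ := 28) (i := i) (Y := Y)
  clear h1 h2 h3
  set b := bb E with hb
  set b' := bb F with hb'
  set l := 5 + kap F with hl
  have hbb : b ≤ b' := by omega
  have hD : Nat.Coprime (2 ^ i - 1) (2 ^ b) := by
    apply Nat.Coprime.pow_right
    rw [Nat.coprime_comm, Nat.coprime_two_left]
    obtain ⟨k, rfl⟩ : ∃ k, i = k + 1 := ⟨i - 1, by omega⟩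
    refine ⟨2 ^ k - 1, ?_⟩
    have := Nat.one_le_two_pow (n := k)
    rw [pow_succ]; omega
  obtain ⟨c, _, hc⟩ := Nat.exists_mul_mod_eq_one_of_coprime hD
    (Nat.one_lt_two_pow (by omega))
  set D := 2 ^ i - 1 with hDd
  -- the inverse
  have hDc : ∀ y, (D * ((c * y) % 2 ^ b)) % 2 ^ b = y % 2 ^ b := by
    intro y
    rw [Nat.mul_mod_mod, ← mul_assoc, Nat.mul_mod, hc, one_mul, Nat.mod_mod]
  have hcD : ∀ y, y % 2 ^ c0 = (D * ρ) % 2 ^ c0 → ((c * y) % 2 ^ b) % 2 ^ c0 = ρ := by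
    intro y hy
    rw [Nat.mod_mod_of_dvd _ (pow_dvd_pow 2 (show c0 ≤ b by omega)), Nat.mul_mod, hy,
      ← Nat.mul_mod, ← mul_assoc, mul_comm c D, Nat.mul_mod]
    have h5 : (D * c) % 2 ^ c0 = 1 := by
      rw [← Nat.mod_mod_of_dvd (D * c) (pow_dvd_pow 2 (show c0 ≤ b by omega)), hc]
      exact Nat.mod_eq_of_lt (Nat.one_lt_two_pow (by omega))
    rw [h5, one_mul, Nat.mod_mod, Nat.mod_eq_of_lt hρ2]
  set Q : ℕ → ℕ := fun y => qh ((c * y) % 2 ^ b) with hQ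
  set S : ℕ → ℕ := fun y => sh (((c * y) % 2 ^ b) % 2 ^ bp) with hS
  set Y0 := (range (2 ^ b)).filter (fun y => y % 2 ^ c0 = (D * ρ) % 2 ^ c0 ∧
    (c * y) % 2 ^ b ∉ Ex) with hY0
  have hY0mem : ∀ y, y < 2 ^ b → y % 2 ^ c0 = (D * ρ) % 2 ^ c0 → (c * y) % 2 ^ b ∉ Ex →
      y ∈ Y0 := by
    intro y h1 h2 h3
    rw [hY0, mem_filter, mem_range]
    exact ⟨h1, h2, h3⟩
  apply hN Q S Y0 η _ (by omega) hF ha (by omega) (by omega) hi1 hi3
  · intro y hy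
    rw [hY0, mem_filter, mem_range] at hy
    exact (hgood _ (Nat.mod_lt _ (by positivity)) (hcD y hy.2.1) hy.2.2).1
  · -- the exceptional residues
    have hw1 := card_window b 0 (2 ^ (b' - b)) (Ex.image (fun x => (D * x) % 2 ^ b))
      (fun x => x % 2 ^ c0 = (D * ρ) % 2 ^ c0 ∧ x % 2 ^ b ∉ Y0) (by
        intro N _ _ hN2
        rw [mem_image]
        refine ⟨(c * (N % 2 ^ b)) % 2 ^ b, ?_, ?_⟩
        · by_contra hcon
          apply hN2.2
          apply hY0mem _ (Nat.mod_lt _ (by positivity)) _ hcon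
          rw [Nat.mod_mod_of_dvd _ (pow_dvd_pow 2 (show c0 ≤ b by omega))]
          exact hN2.1
        · rw [hDc, Nat.mod_mod])
    have e1 : 0 + 2 ^ b * 2 ^ (b' - b) = 2 ^ b' := by
      rw [zero_add, ← pow_add]; congr 1; omega
    rw [e1, ← range_eq_Ico] at hw1
    have hw2 : (Ex.image (fun x => (D * x) % 2 ^ b)).card ≤ Ex.card := card_image_le
    calc (((range (2 ^ b')).filter (fun x => x % 2 ^ c0 = (D * ρ) % 2 ^ c0 ∧
          x % 2 ^ b ∉ Y0)).card : ℝ)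
        ≤ ((Ex.card * 2 ^ (b' - b) : ℕ) : ℝ) := by
          exact_mod_cast le_trans hw1 (Nat.mul_le_mul_right _ hw2)
      _ = (Ex.card : ℝ) * 2 ^ (b' - b) := by push_cast; ring
      _ ≤ η * 2 ^ (b - c0) * 2 ^ (b' - b) := by
          apply mul_le_mul_of_nonneg_right hExc (by positivity)
      _ = η * 2 ^ (b' - c0) := by
          rw [mul_assoc, ← pow_add]; congr 2; omega
  · -- the failures
    have hL : 2 ^ b * 2 ^ (a + w2 + E - l) = 2 ^ b' := by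
      rw [← pow_add]; congr 1; omega
    have hF5 : 2 ^ b' * 2 ^ kap F = 2 ^ (F - 5) := by rw [← pow_add]; congr 1; omega
    have hcast : ((∑ u ∈ range (2 ^ kap F), ((Ico (3 * 2 ^ F + 2 ^ b' * u)
      (3 * 2 ^ F + 2 ^ b' * u + 2 ^ b')).filter (fun N => N % 2 ^ b ∈ Y0 ∧
        ¬ RepN (Q (N % 2 ^ b)) (S (N % 2 ^ b)) a b (w2 - i) w2 i N)).card : ℕ) : ℝ)
      = ∑ u ∈ range (2 ^ kap F), (((Ico (3 * 2 ^ F + 2 ^ b' * u)
      (3 * 2 ^ F + 2 ^ b' * u + 2 ^ b')).filter (fun N => N % 2 ^ b ∈ Y0 ∧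
        ¬ RepN (Q (N % 2 ^ b)) (S (N % 2 ^ b)) a b (w2 - i) w2 i N)).card : ℝ) := by
      push_cast; rfl
    rw [hcast]
    have hone : ∀ u ∈ range (2 ^ kap F), (((Ico (3 * 2 ^ F + 2 ^ b' * u)
      (3 * 2 ^ F + 2 ^ b' * u + 2 ^ b')).filter (fun N => N % 2 ^ b ∈ Y0 ∧
        ¬ RepN (Q (N % 2 ^ b)) (S (N % 2 ^ b)) a b (w2 - i) w2 i N)).card : ℝ)
        ≤ 2 ^ kap E * 2 ^ (b - c0) * 2 ^ (a + w2 + E - l)
        * (2 ^ (l + 3) * (999 / 1000) ^ (b / 768)) := by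
      intro u hu
      rw [mem_range] at hu
      have hu2 : 2 ^ b' * u + 2 ^ b' ≤ 2 ^ (F - 5) := by
        rw [← hF5]
        calc 2 ^ b' * u + 2 ^ b' = 2 ^ b' * (u + 1) := by ring
          _ ≤ _ := Nat.mul_le_mul_left _ hu
      have hr : ∀ q σ, 3 * 2 ^ E ≤ q → q < 3 * 2 ^ E + 2 ^ (E - 5) → 2 ^ E ≤ σ →
          1024 * σ ≤ 1025 * 2 ^ E → _ :=
        fun q σ g1 g2 g3 g4 => step_range (i := i) (l := l) (Y := 3 * 2 ^ F + 2 ^ b' * u) hF
          (by omega) hw hi1 hi3 (by omega) (by omega) g1 g2 g3 g4 (by omega)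
          (by rw [hL]; omega)
      have hlf2 := hlf (3 * 2 ^ F + 2 ^ b' * u) (by norm_num) (by norm_num)
        (fun q σ g1 g2 g3 g4 => (hr q σ g1 g2 g3 g4).1)
        (fun q σ g1 g2 g3 g4 => (hr q σ g1 g2 g3 g4).2)
      refine le_trans ?_ hlf2
      rw [hL]
      norm_cast
      apply card_le_card
      intro N hN2
      rw [mem_filter] at hN2 ⊢
      obtain ⟨g1, g2, g3⟩ := hN2
      refine ⟨g1, (c * (N % 2 ^ b)) % 2 ^ b, Nat.mod_lt _ (by positivity), ?_, ?_, ?_, g3⟩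
      · rw [hY0, mem_filter] at g2
        exact hcD _ g2.2.1
      · rw [hY0, mem_filter] at g2
        exact g2.2.2
      · rw [hDc, Nat.mod_mod]
    calc ∑ u ∈ range (2 ^ kap F), (((Ico (3 * 2 ^ F + 2 ^ b' * u)
      (3 * 2 ^ F + 2 ^ b' * u + 2 ^ b')).filter (fun N => N % 2 ^ b ∈ Y0 ∧
        ¬ RepN (Q (N % 2 ^ b)) (S (N % 2 ^ b)) a b (w2 - i) w2 i N)).card : ℝ)
        ≤ ∑ _u ∈ range (2 ^ kap F), 2 ^ kap E * 2 ^ (b - c0) * 2 ^ (a + w2 + E - l)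
        * (2 ^ (l + 3) * (999 / 1000) ^ (b / 768)) := sum_le_sum hone
      _ = 2 ^ (b' - c0) * (2 ^ (2 * kap F + kap E + 8) * (999 / 1000) ^ (b / 768)) := by
          rw [sum_const, card_range, nsmul_eq_mul]
          push_cast
          have e1 : (2:ℝ) ^ (b' - c0) * 2 ^ (2 * kap F + kap E + 8)
              = 2 ^ kap F * (2 ^ kap E * 2 ^ (b - c0) * 2 ^ (a + w2 + E - l) * 2 ^ (l + 3)) := by
            rw [← pow_add, ← pow_add, ← pow_add, ← pow_add, ← pow_add]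
            congr 1
            omega
          calc (2:ℝ) ^ kap F * (2 ^ kap E * 2 ^ (b - c0) * 2 ^ (a + w2 + E - l)
                * (2 ^ (l + 3) * (999 / 1000) ^ (b / 768)))
              = (2 ^ kap F * (2 ^ kap E * 2 ^ (b - c0) * 2 ^ (a + w2 + E - l) * 2 ^ (l + 3)))
                * (999 / 1000) ^ (b / 768) := by ring
            _ = 2 ^ (b' - c0) * 2 ^ (2 * kap F + kap E + 8) * (999 / 1000) ^ (b / 768) := by
                rw [e1]
            _ = _ := by ring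
      _ ≤ 2 ^ (b' - c0) * (2 ^ (12 * kap E + 40) * (999 / 1000) ^ (b / 768)) := by
          apply mul_le_mul_of_nonneg_left _ (by positivity)
          apply mul_le_mul_of_nonneg_right _ (by positivity)
          exact pow_le_pow_right₀ (by norm_num) (by omega)
      _ ≤ 2 ^ (b' - c0) * (1 / 2) ^ (E / 2 ^ 20) :=
          mul_le_mul_of_nonneg_left hloss (by positivity)
      _ = (1 / 2) ^ (E / 2 ^ 20) * 2 ^ (b' - c0) := by ring

end Pool.Agent.CC603
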